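import Mathlib

-- part Pool.Agent.Lib.MP_905f9a_lc.Ramsey
section

namespace Pool.Agent.Lib.MP_905f9a_lc

open Finset

/-- Finite hypergraph Ramsey theorem. -/
theorem ramsey (κ : Type) [Finite κ] (k : ℕ) : ∀ m : ℕ, ∃ N : ℕ,
    ∀ (α : Type) [DecidableEq α] (X : Finset α) (χ : Finset α → κ), N ≤ X.card →
      ∃ Y ⊆ X, m ≤ Y.card ∧ ∀ A ⊆ Y, ∀ B ⊆ Y, A.card = k → B.card = k → χ A = χ B := by
  induction k with
  | zero =>
    intro m
    refine ⟨m, fun α _ X χ h => ⟨X, Subset.refl _, h, ?_⟩⟩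
    intro A _ B _ hA hB
    rw [card_eq_zero.mp hA, card_eq_zero.mp hB]
  | succ k ih =>
    have aux : ∀ t : ℕ, ∃ N : ℕ,
        ∀ (α : Type) [DecidableEq α] (X : Finset α) (χ : Finset α → κ), N ≤ X.card →
          ∃ T ⊆ X, T.card = t ∧ ∃ γ : α → Option κ, (∀ x ∈ T, γ x ≠ none) ∧
            ∀ A ⊆ T, A.card = k + 1 → ∃ x ∈ A, γ x = some (χ A) := by
      intro t
      induction t with
      | zero =>
        refine ⟨0, fun α _ X χ _ => ⟨∅, empty_subset _, rfl, fun _ => none, by simp, ?_⟩⟩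
        intro A hA hc
        rw [subset_empty.mp hA] at hc
        simp at hc
      | succ t iht =>
        obtain ⟨Nt, hNt⟩ := iht
        obtain ⟨R, hR⟩ := ih (max Nt k)
        refine ⟨R + 1, fun α _ X χ hX => ?_⟩
        obtain ⟨x, hx⟩ : X.Nonempty := card_pos.mp (by omega)
        obtain ⟨Y, hYX, hYc, hY⟩ := hR α (X.erase x) (fun A => χ (insert x A))
          (by rw [card_erase_of_mem hx]; omega)
        obtain ⟨T, hTY, hTc, γ, hγ0, hγ⟩ := hNt α Y χ (le_trans (le_max_left _ _) hYc)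
        obtain ⟨A0, hA0Y, hA0c⟩ := exists_subset_card_eq (le_trans (le_max_right Nt k) hYc)
        have hxT : x ∉ T := fun h => by simpa using hYX (hTY h)
        refine ⟨insert x T, ?_, by rw [card_insert_of_notMem hxT, hTc],
          Function.update γ x (some (χ (insert x A0))), ?_, ?_⟩
        · intro y hy
          rcases mem_insert.mp hy with rfl | hy
          · exact hx
          · exact mem_of_mem_erase (hYX (hTY hy))
        · intro y hy
          by_cases hyx : y = x
          · subst hyx; simp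
          · rw [Function.update_of_ne hyx]
            rcases mem_insert.mp hy with h | h
            · exact absurd h hyx
            · exact hγ0 y h
        · intro A hA hAc
          by_cases hxA : x ∈ A
          · refine ⟨x, hxA, ?_⟩
            have h1 : A.erase x ⊆ Y := by
              intro y hy
              rcases mem_insert.mp (hA (mem_of_mem_erase hy)) with h | h
              · exact absurd h (ne_of_mem_erase hy)
              · exact hTY h
            have h2 : (A.erase x).card = k := by rw [card_erase_of_mem hxA]; omega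
            have h3 := hY A0 hA0Y (A.erase x) h1 hA0c h2
            simp only [insert_erase hxA] at h3
            simp [h3]
          · have h1 : A ⊆ T := by
              intro y hy
              rcases mem_insert.mp (hA hy) with h | h
              · exact absurd (h ▸ hy) hxA
              · exact h
            obtain ⟨y, hy, hy2⟩ := hγ A h1 hAc
            refine ⟨y, hy, ?_⟩
            have : y ≠ x := fun h => hxA (h ▸ hy)
            rw [Function.update_of_ne this, hy2]
    intro m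
    classical
    have : Fintype κ := Fintype.ofFinite κ
    obtain ⟨N, hN⟩ := aux (Fintype.card (Option κ) * m)
    refine ⟨N, fun α _ X χ hX => ?_⟩
    obtain ⟨T, hTX, hTc, γ, _, hγ⟩ := hN α X χ hX
    obtain ⟨b, _, hb⟩ := exists_le_card_fiber_of_mul_le_card_of_maps_to
      (s := T) (t := (univ : Finset (Option κ))) (f := γ) (n := m)
      (fun a _ => mem_univ _) univ_nonempty (by rw [hTc, card_univ])
    refine ⟨T.filter (fun x => γ x = b), (filter_subset _ _).trans hTX, hb, ?_⟩
    intro A hA B hB hAc hBc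
    obtain ⟨x, hx, hx2⟩ := hγ A (hA.trans (filter_subset _ _)) hAc
    obtain ⟨y, hy, hy2⟩ := hγ B (hB.trans (filter_subset _ _)) hBc
    have h1 := (mem_filter.mp (hA hx)).2
    have h2 := (mem_filter.mp (hB hy)).2
    have : some (χ A) = some (χ B) := by rw [← hx2, ← hy2, h1, h2]
    exact Option.some.inj this

theorem ramsey_sm (κ : Type) [Finite κ] (k m : ℕ) : ∃ N : ℕ, ∀ χ : (Fin k → Fin N) → κ,
    ∃ e : Fin m → Fin N, StrictMono e ∧ ∀ s s' : Fin k → Fin m, StrictMono s → StrictMono s' →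
      χ (e ∘ s) = χ (e ∘ s') := by
  classical
  obtain ⟨N, hN⟩ := ramsey (Option κ) k m
  refine ⟨N, fun χ => ?_⟩
  obtain ⟨Y, -, hY, h⟩ := hN (Fin N) univ
    (fun A => if hA : A.card = k then some (χ (A.orderEmbOfFin hA)) else none) (by simp)
  obtain ⟨Y', hY', hc⟩ := exists_subset_card_eq hY
  refine ⟨Y'.orderEmbOfFin hc, (Y'.orderEmbOfFin hc).strictMono, ?_⟩
  have key : ∀ s : Fin k → Fin m, StrictMono s → ∃ A ⊆ Y, ∃ hA : A.card = k,
      (Y'.orderEmbOfFin hc) ∘ s = A.orderEmbOfFin hA := by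
    intro s hs
    have hm : StrictMono ((Y'.orderEmbOfFin hc) ∘ s) := (Y'.orderEmbOfFin hc).strictMono.comp hs
    refine ⟨univ.image ((Y'.orderEmbOfFin hc) ∘ s), ?_, ?_, ?_⟩
    · intro x hx
      obtain ⟨i, -, rfl⟩ := mem_image.1 hx
      exact hY' (orderEmbOfFin_mem _ _ _)
    · rw [card_image_of_injective _ hm.injective]; simp
    · exact orderEmbOfFin_unique _ (fun x => mem_image_of_mem _ (mem_univ x)) hm
  intro s s' hs hs'
  obtain ⟨A, hA, hAc, e⟩ := key s hs
  obtain ⟨A', hA', hAc', e'⟩ := key s' hs'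
  have := h A hA A' hA' hAc hAc'
  simp only [dif_pos hAc, dif_pos hAc', Option.some.injEq] at this
  rw [e, e', this]

theorem ext_inj {A B : Type} [Finite A] [Countable B] (e : A → B) (he : Function.Injective e)
    (h0 : A → ℚ) (hh : Function.Injective h0) :
    ∃ h : B → ℚ, Function.Injective h ∧ ∀ a, h (e a) = h0 a := by
  obtain ⟨k, hk⟩ := Countable.exists_injective_nat B
  have hk' : Function.Injective (fun b => (k b : ℚ)) := fun a b h => hk (Nat.cast_injective (R := ℚ) h)
  obtain ⟨σ, hσ⟩ := Equiv.Perm.exists_extending_pair _ _ (hk'.comp he) hh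
  exact ⟨fun b => σ (k b), σ.injective.comp hk', hσ⟩

theorem fp_lt {n M : ℕ} {a a' : Fin n} (c c' : Fin M) (h : a < a') :
    finProdFinEquiv (a, c) < finProdFinEquiv (a', c') := by
  rw [Fin.lt_def]
  simp only [finProdFinEquiv_apply_val]
  have h1 : a.val + 1 ≤ a'.val := h
  have h2 := c.2
  have := Nat.mul_le_mul_left M h1
  nlinarith

theorem exists_rank {n : ℕ} (h : Fin n → ℚ) :
    ∃ rk : Fin n → Fin n, ∀ a b, h a < h b → rk a < rk b := by
  refine ⟨(Tuple.sort h).symm, fun a b hab => ?_⟩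
  by_contra hcon
  have := Tuple.monotone_sort h (not_lt.1 hcon)
  simp only [Function.comp_apply, Equiv.apply_symm_apply] at this
  exact absurd hab (not_lt.2 this)

end Pool.Agent.Lib.MP_905f9a_lc
end

-- part Pool.Agent.Lib.MP_905f9a_lc.Homog
section

namespace Pool.Agent.Lib.MP_905f9a_lc

open FirstOrder FirstOrder.Language FirstOrder.Language.Structure Order

universe u v

variable (L : FirstOrder.Language.{u, v}) (A : Type) [L.Structure A]

/-- The permutations preserving all relations. -/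
def AutG : Subgroup (Equiv.Perm A) where
  carrier := {σ | ∀ (n : ℕ) (R : L.Relations n) (x : Fin n → A), RelMap R (σ ∘ x) ↔ RelMap R x}
  mul_mem' := fun {a b} ha hb n R x => (ha n R (b ∘ x)).trans (hb n R x)
  one_mem' := fun _ _ _ => Iff.rfl
  inv_mem' := fun {a} ha n R x => by
    have := ha n R (⇑a⁻¹ ∘ x)
    rw [← this]
    congr! 1
    funext i
    simp

/-- Finitely many orbits on tuples. -/
def Oligo : Prop := ∀ (I : Type) [Finite I], ∃ (κ : Type) (_ : Finite κ) (c : (I → A) → κ),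
  ∀ x y, c x = c y → ∃ σ ∈ AutG L A, σ ∘ x = y

variable {L A}

theorem def_inv [L.IsRelational] {σ : Equiv.Perm A} (hσ : σ ∈ AutG L A) {I : Type}
    {S : Set (I → A)} (hS : (∅ : Set A).Definable L S) (x : I → A) : σ ∘ x ∈ S ↔ x ∈ S := by
  obtain ⟨φ, rfl⟩ := Set.empty_definable_iff.1 hS
  let e : A ≃[L] A := ⟨σ, fun f => isEmptyElim f, fun R x => hσ _ R x⟩
  exact StrongHomClass.realize_formula e φ

variable (L) in
/-- Same type over the empty set. -/
def Eqv {I : Type} (x y : I → A) : Prop :=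
  ∀ S : Set (I → A), (∅ : Set A).Definable L S → x ∈ S → y ∈ S

theorem Eqv.symm {I : Type} {x y : I → A} (h : Eqv L x y) : Eqv L y x := by
  intro S hS hy
  by_contra hx
  exact h Sᶜ hS.compl hx hy

theorem Eqv.comp {I J : Type} {x y : I → A} (h : Eqv L x y) (f : J → I) :
    Eqv L (x ∘ f) (y ∘ f) := fun _ hS hx => h _ (hS.preimage_comp f) hx

theorem eqv_def [L.IsRelational] (hO : Oligo L A) {I : Type} [Finite I] (x : I → A) :
    (∅ : Set A).Definable L {y | Eqv L x y} := by
  obtain ⟨κ, _, c, hc⟩ := hO I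
  have : ∀ k : κ, ∃ S : Set (I → A), (∅ : Set A).Definable L S ∧ x ∈ S ∧
      ∀ y ∈ S, c y = k → Eqv L x y := by
    intro k
    by_cases h : ∃ y, c y = k ∧ ¬ Eqv L x y
    · obtain ⟨y0, h1, h2⟩ := h
      simp only [Eqv, not_forall] at h2
      obtain ⟨S, hS, hx, hy⟩ := h2
      refine ⟨S, hS, hx, fun y hyS hy' => ?_⟩
      obtain ⟨σ, hσ, e⟩ := hc y y0 (hy'.trans h1.symm)
      exact absurd (e ▸ (def_inv hσ hS y).2 hyS) hy
    · push Not at h
      exact ⟨Set.univ, Set.definable_univ, trivial, fun y _ hy => h y hy⟩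
  choose S h1 h2 h3 using this
  have e : {y | Eqv L x y} = ⋂ k, S k := by
    ext y
    simp only [Set.mem_ofPred_eq, Set.mem_iInter]
    exact ⟨fun h k => h _ (h1 k) (h2 k), fun h => h3 _ y (h _) rfl⟩
  rw [e]
  exact Set.definable_iInter_of_finite h1

theorem Eqv.ext_one [L.IsRelational] (hO : Oligo L A) {I : Type} [Finite I] {x y : I → A}
    (h : Eqv L x y) (a : A) :
    ∃ b, Eqv L (fun o : Option I => o.elim a x) (fun o : Option I => o.elim b y) := by
  obtain ⟨z, hz, e⟩ := h _ ((eqv_def hO (fun o : Option I => o.elim a x)).image_comp some)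
    ⟨_, fun _ _ h => h, rfl⟩
  refine ⟨z none, ?_⟩
  have e' : (fun o : Option I => o.elim (z none) y) = z := by
    funext o
    cases o with
    | none => rfl
    | some i => exact (congrFun e i).symm
  rw [e']
  exact hz

variable (L) in
def GoodP (p : Finset (A × A)) : Prop :=
  ∀ (I : Type) (x y : I → A), (∀ i, (x i, y i) ∈ p) → Eqv L x y

theorem goodP_of {I : Type} {x y : I → A} (h : Eqv L x y) (p : Finset (A × A))
    (hp : ∀ q ∈ p, ∃ i, q = (x i, y i)) : GoodP L p := by
  intro J x' y' h'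
  choose f hf using fun j => hp _ (h' j)
  have e1 : x' = x ∘ f := funext fun j => congrArg Prod.fst (hf j)
  have e2 : y' = y ∘ f := funext fun j => congrArg Prod.snd (hf j)
  rw [e1, e2]
  exact h.comp f

theorem GoodP.left [L.IsRelational] (hO : Oligo L A) {p : Finset (A × A)} (hp : GoodP L p)
    (a : A) : ∃ q, GoodP L q ∧ p ⊆ q ∧ ∃ b, (a, b) ∈ q := by
  classical
  obtain ⟨b, hb⟩ := (hp p (fun i => i.1.1) (fun i => i.1.2) (fun i => i.2)).ext_one hO a
  refine ⟨insert (a, b) p, goodP_of hb _ (fun q hq => ?_), Finset.subset_insert _ _, b,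
    Finset.mem_insert_self _ _⟩
  rcases Finset.mem_insert.1 hq with rfl | hq
  · exact ⟨none, rfl⟩
  · exact ⟨some ⟨q, hq⟩, rfl⟩

theorem GoodP.right [L.IsRelational] (hO : Oligo L A) {p : Finset (A × A)} (hp : GoodP L p)
    (b : A) : ∃ q, GoodP L q ∧ p ⊆ q ∧ ∃ a, (a, b) ∈ q := by
  classical
  obtain ⟨a, ha⟩ := (hp p (fun i => i.1.1) (fun i => i.1.2) (fun i => i.2)).symm.ext_one hO b
  refine ⟨insert (a, b) p, goodP_of ha.symm _ (fun q hq => ?_), Finset.subset_insert _ _, a,
    Finset.mem_insert_self _ _⟩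
  rcases Finset.mem_insert.1 hq with rfl | hq
  · exact ⟨none, rfl⟩
  · exact ⟨some ⟨q, hq⟩, rfl⟩

theorem Eqv.orbit [L.IsRelational] [Countable A] (hO : Oligo L A) {I : Type} [Finite I]
    {x y : I → A} (h : Eqv L x y) : ∃ σ ∈ AutG L A, σ ∘ x = y := by
  classical
  have := Fintype.ofFinite I
  let _ := Encodable.ofCountable A
  let X := {p : Finset (A × A) // GoodP L p}
  let p0 : X := ⟨Finset.univ.image (fun i => (x i, y i)), goodP_of h _ (fun q hq => by
    obtain ⟨i, -, rfl⟩ := Finset.mem_image.1 hq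
    exact ⟨i, rfl⟩)⟩
  let cf : A ⊕ A → Cofinal X := fun s => Sum.recOn s
    (fun a => ⟨{p | ∃ b, (a, b) ∈ p.1}, fun p => by
      obtain ⟨q, h1, h2, h3⟩ := p.2.left hO a
      exact ⟨⟨q, h1⟩, h3, h2⟩⟩)
    (fun b => ⟨{p | ∃ a, (a, b) ∈ p.1}, fun p => by
      obtain ⟨q, h1, h2, h3⟩ := p.2.right hO b
      exact ⟨⟨q, h1⟩, h3, h2⟩⟩)
  let I0 : Ideal X := idealOfCofinals p0 cf
  let r : A → A → Prop := fun a b => ∃ p ∈ I0, (a, b) ∈ p.1
  have hr : ∀ (J : Type) [Finite J] (x y : J → A), (∀ j, r (x j) (y j)) → Eqv L x y := by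
    intro J _ x y hxy
    choose p hp1 hp2 using hxy
    have hd : Directed (· ≤ ·) (fun q : I0 => (q : X)) := I0.directed.directed_val
    have : Nonempty I0 := ⟨⟨p0, mem_idealOfCofinals _ _⟩⟩
    obtain ⟨z, hz⟩ := hd.finite_le (fun j => ⟨p j, hp1 j⟩)
    exact z.1.2 J x y (fun j => hz j (hp2 j))
  have hl : ∀ a, ∃ b, r a b := fun a => by
    obtain ⟨p, ⟨b, hb⟩, hp⟩ := cofinal_meets_idealOfCofinals p0 cf (Sum.inl a)
    exact ⟨b, p, hp, hb⟩
  have hrr : ∀ b, ∃ a, r a b := fun b => by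
    obtain ⟨p, ⟨a, ha⟩, hp⟩ := cofinal_meets_idealOfCofinals p0 cf (Sum.inr b)
    exact ⟨a, p, hp, ha⟩
  have hu : ∀ a b a' b', r a b → r a' b' → (a = a' ↔ b = b') := by
    intro a b a' b' h1 h2
    have e := hr (Fin 2) ![a, a'] ![b, b'] (by
      intro j; fin_cases j; exacts [h1, h2])
    have hD : (∅ : Set A).Definable L {z : Fin 2 → A | z 0 = z 1} :=
      Set.empty_definable_iff.2 ⟨(Term.var 0).equal (Term.var 1), by ext; simp⟩
    exact ⟨fun h => e _ hD h, fun h => e.symm _ hD h⟩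
  choose f hf using hl
  choose g hg using hrr
  let σ : Equiv.Perm A := ⟨f, g, fun a => (hu _ _ _ _ (hg (f a)) (hf a)).2 rfl,
    fun b => (hu _ _ _ _ (hf (g b)) (hg b)).1 rfl⟩
  refine ⟨σ, fun n R z => ?_, funext fun i => ?_⟩
  · have e := hr (Fin n) z (σ ∘ z) (fun j => hf (z j))
    have hD : (∅ : Set A).Definable L {z : Fin n → A | RelMap R z} :=
      Set.empty_definable_iff.2 ⟨R.formula (fun i => Term.var i), by ext; simp⟩
    exact ⟨fun h => e.symm _ hD h, fun h => e _ hD h⟩
  · exact (hu _ _ _ _ (hf (x i)) ⟨p0, mem_idealOfCofinals _ _,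
      Finset.mem_image_of_mem (fun i => (x i, y i)) (Finset.mem_univ i)⟩).1 rfl

theorem definable_of_inv [L.IsRelational] [Countable A] (hO : Oligo L A) {I : Type} [Finite I]
    (S : Set (I → A)) (hS : ∀ σ ∈ AutG L A, ∀ x ∈ S, σ ∘ x ∈ S) :
    (∅ : Set A).Definable L S := by
  obtain ⟨κ, _, c, hc⟩ := hO I
  have : ∀ k : κ, ∃ T : Set (I → A), (∅ : Set A).Definable L T ∧ T ⊆ S ∧
      ∀ y ∈ S, c y = k → y ∈ T := by
    intro k
    by_cases h : ∃ y ∈ S, c y = k
    · obtain ⟨y0, h1, h2⟩ := h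
      refine ⟨_, eqv_def hO y0, fun y hy => ?_, fun y _ hy => ?_⟩
      · obtain ⟨σ, hσ, rfl⟩ := Eqv.orbit hO hy
        exact hS σ hσ _ h1
      · obtain ⟨σ, hσ, rfl⟩ := hc y0 y (h2.trans hy.symm)
        exact fun T hT h => (def_inv hσ hT y0).2 h
    · push Not at h
      exact ⟨∅, Set.definable_empty, Set.empty_subset _, fun y hy e => absurd e (h y hy)⟩
  choose T h1 h2 h3 using this
  have e : S = ⋃ k, T k := by
    ext y
    simp only [Set.mem_iUnion]
    exact ⟨fun h => ⟨_, h3 _ y h rfl⟩, fun ⟨k, h⟩ => h2 k h⟩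
  rw [e]
  exact Set.definable_iUnion_of_finite h1

end Pool.Agent.Lib.MP_905f9a_lc
end
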