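import Mathlib

-- part Pool.Agent.Lib.MP_905f9a_lc.QAut
section

namespace Pool.Agent.Lib.MP_905f9a_lc

open Order

/-- The group of order automorphisms of the rationals. -/
abbrev GQ := ℚ ≃o ℚ

theorem mul_app (α β : GQ) (x : ℚ) : (α * β) x = α (β x) := rfl
theorem one_app (x : ℚ) : (1 : GQ) x = x := rfl
theorem inv_app (α : GQ) (x : ℚ) : α⁻¹ (α x) = x := α.symm_apply_apply x
theorem app_inv (α : GQ) (x : ℚ) : α (α⁻¹ x) = x := α.apply_symm_apply x

theorem ext_iso {I : Type*} [Finite I] (f g : I → ℚ) (h : ∀ i j, f i < f j ↔ g i < g j) :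
    ∃ α : GQ, ∀ i, α (f i) = g i := by
  classical
  have := Fintype.ofFinite I
  let p0 : PartialIso ℚ ℚ := ⟨Finset.univ.image (fun i => (f i, g i)), by
    intro p hp q hq
    obtain ⟨i, -, rfl⟩ := Finset.mem_image.1 hp
    obtain ⟨j, -, rfl⟩ := Finset.mem_image.1 hq
    simp only [cmp, cmpUsing, h]⟩
  let to_cofinal : ℚ ⊕ ℚ → Cofinal (PartialIso ℚ ℚ) := fun p ↦
    Sum.recOn p (PartialIso.definedAtLeft ℚ) (PartialIso.definedAtRight ℚ)
  let I0 : Ideal (PartialIso ℚ ℚ) := idealOfCofinals p0 to_cofinal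
  let F a := PartialIso.funOfIdeal a I0 (cofinal_meets_idealOfCofinals _ to_cofinal (Sum.inl a))
  let G b := PartialIso.invOfIdeal b I0 (cofinal_meets_idealOfCofinals _ to_cofinal (Sum.inr b))
  refine ⟨OrderIso.ofCmpEqCmp (fun a ↦ (F a).val) (fun b ↦ (G b).val) fun a b ↦ ?_, fun i => ?_⟩
  · rcases (F a).prop with ⟨f, hf, ha⟩
    rcases (G b).prop with ⟨g, hg, hb⟩
    rcases I0.directed _ hf _ hg with ⟨m, _, fm, gm⟩
    exact m.prop (a, _) (fm ha) (_, b) (gm hb)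
  · show (F (f i)).val = g i
    rcases (F (f i)).prop with ⟨f', hf, ha⟩
    have h0 : p0 ∈ I0 := mem_idealOfCofinals _ _
    rcases I0.directed _ hf _ h0 with ⟨m, _, fm, gm⟩
    have h1 : (f i, g i) ∈ p0.val := Finset.mem_image.2 ⟨i, Finset.mem_univ _, rfl⟩
    have := m.prop _ (fm ha) _ (gm h1)
    simp only [cmp_self_eq_eq] at this
    exact cmp_eq_eq_iff _ _ |>.1 this.symm

/-- `α` fixes `S` pointwise. -/
def Fix (S : Finset ℚ) (α : GQ) : Prop := ∀ w ∈ S, α w = w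

theorem Fix.one (S : Finset ℚ) : Fix S 1 := fun _ _ => rfl
theorem Fix.mul {S : Finset ℚ} {α β : GQ} (ha : Fix S α) (hb : Fix S β) : Fix S (α * β) :=
  fun w hw => by rw [mul_app, hb w hw, ha w hw]
theorem Fix.inv {S : Finset ℚ} {α : GQ} (ha : Fix S α) : Fix S α⁻¹ :=
  fun w hw => by conv_lhs => rw [← ha w hw]
                 exact inv_app α w
theorem Fix.mono {S T : Finset ℚ} {α : GQ} (ha : Fix S α) (h : T ⊆ S) : Fix T α :=
  fun w hw => ha w (h hw)
theorem Fix.pow {S : Finset ℚ} {α : GQ} (ha : Fix S α) (n : ℕ) : Fix S (α ^ n) := by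
  induction n with
  | zero => simpa using Fix.one S
  | succ n ih => rw [pow_succ]; exact ih.mul ha
theorem Fix.lt_iff {S : Finset ℚ} {α : GQ} (ha : Fix S α) {z : ℚ} (hz : z ∈ S) (w : ℚ) :
    (z < w ↔ z < α w) ∧ (w < z ↔ α w < z) := by
  constructor
  · conv_rhs => rw [← ha z hz]
    exact α.lt_iff_lt.symm
  · conv_rhs => rw [← ha z hz]
    exact α.lt_iff_lt.symm

theorem ext_one (F : Finset ℚ) (a b : ℚ) (h : ∀ z ∈ F, (z < a ↔ z < b) ∧ (a < z ↔ b < z)) :
    ∃ α : GQ, Fix F α ∧ α a = b := by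
  obtain ⟨α, hα⟩ := ext_iso (I := Option F) (fun o => o.elim a (fun z => z.1))
    (fun o => o.elim b (fun z => z.1)) (by
      rintro (_ | i) (_ | j)
      · simp
      · simpa using (h j.1 j.2).2
      · simpa using (h i.1 i.2).1
      · simp)
  exact ⟨α, fun w hw => hα (some ⟨w, hw⟩), hα none⟩

theorem exists_gt_close (F : Finset ℚ) (a : ℚ) : ∃ b, a < b ∧ ∀ z ∈ F, a < z → b < z := by
  classical
  obtain ⟨b, h1, h2⟩ := exists_between_finsets ({a} : Finset ℚ) (F.filter (fun z => a < z))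
    (by intro x hx y hy; rw [Finset.mem_singleton.1 hx]; exact (Finset.mem_filter.1 hy).2)
  exact ⟨b, h1 a (by simp), fun z hz hz' => h2 z (Finset.mem_filter.2 ⟨hz, hz'⟩)⟩

theorem exists_lt_close (F : Finset ℚ) (a : ℚ) : ∃ b, b < a ∧ ∀ z ∈ F, z < a → z < b := by
  classical
  obtain ⟨b, h1, h2⟩ := exists_between_finsets (F.filter (fun z => z < a)) ({a} : Finset ℚ)
    (by intro x hx y hy; rw [Finset.mem_singleton.1 hy]; exact (Finset.mem_filter.1 hx).2)
  exact ⟨b, h2 a (by simp), fun z hz hz' => h1 z (Finset.mem_filter.2 ⟨hz, hz'⟩)⟩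

/-- Moving `a` slightly up while fixing the rest of `F`. -/
theorem exists_nudge (F : Finset ℚ) (a : ℚ) :
    ∃ α : GQ, Fix (F.erase a) α ∧ a < α a ∧ α a ∉ F := by
  obtain ⟨b, h1, h2⟩ := exists_gt_close F a
  obtain ⟨α, hα, hb⟩ := ext_one (F.erase a) a b (by
    intro z hz
    have hne := Finset.ne_of_mem_erase hz
    have hz' := Finset.mem_of_mem_erase hz
    constructor
    · constructor
      · intro h; exact h.trans h1
      · intro h
        rcases lt_or_gt_of_ne hne with h' | h'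
        · exact h'
        · exact absurd (h2 z hz' h') (not_lt.2 h.le)
    · exact ⟨fun h => h2 z hz' h, fun h => h1.trans h⟩)
  refine ⟨α, hα, hb ▸ h1, ?_⟩
  rw [hb]
  intro hbF
  exact lt_irrefl _ (h2 b hbF h1)

theorem avoid (S0 S T : Finset ℚ) : ∃ α : GQ, Fix S0 α ∧ ∀ w ∈ S, α w ∈ T → w ∈ S0 := by
  classical
  induction T using Finset.induction_on with
  | empty => exact ⟨1, Fix.one _, by simp⟩
  | insert q T hq ih =>
    obtain ⟨α, h1, h2⟩ := ih
    by_cases hq0 : q ∈ S0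
    · refine ⟨α, h1, fun w hw hw' => ?_⟩
      rcases Finset.mem_insert.1 hw' with h | h
      · have : α w = α q := by rw [h, h1 q hq0]
        rw [α.injective this]; exact hq0
      · exact h2 w hw h
    · obtain ⟨β, b1, b2, b3⟩ := exists_nudge (S.image α ∪ S0 ∪ insert q T) q
      refine ⟨β * α, Fix.mul (b1.mono ?_) h1, fun w hw hw' => ?_⟩
      · intro z hz
        refine Finset.mem_erase.2 ⟨fun h => hq0 (h ▸ hz), by simp [hz]⟩
      · rw [mul_app] at hw'
        by_cases hwq : α w = q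
        · rw [hwq] at hw'
          exact absurd (Finset.mem_union_right _ hw') b3
        · have : β (α w) = α w := b1 _ (Finset.mem_erase.2 ⟨hwq, by
            simp only [Finset.mem_union, Finset.mem_image]
            exact Or.inl (Or.inl ⟨w, hw, rfl⟩)⟩)
          rw [this] at hw'
          exact h2 w hw ((Finset.mem_insert.1 hw').resolve_left hwq)

theorem reduce_step (S : Finset ℚ) (α : GQ) (hne : ¬ Fix S α) :
    ∃ w ∈ S, α w ≠ w ∧ ∃ α' : GQ, α' w = w ∧ ∀ z ∈ S, z ≠ w → α' z = α z := by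
  classical
  have key : ∀ w ∈ S, (∀ z ∈ S, z < w → α z < w) → (∀ z ∈ S, w < z → w < α z) →
      ∃ α' : GQ, α' w = w ∧ ∀ z ∈ S, z ≠ w → α' z = α z := by
    intro w _ h1 h2
    obtain ⟨β, b1, b2⟩ := ext_one ((S.erase w).image α) (α w) w (by
      intro y hy
      obtain ⟨z, hz, rfl⟩ := Finset.mem_image.1 hy
      have hzS := Finset.mem_of_mem_erase hz
      rcases lt_or_gt_of_ne (Finset.ne_of_mem_erase hz) with h | h
      · have a1 := h1 z hzS h
        have a2 : α z < α w := α.lt_iff_lt.2 h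
        exact ⟨iff_of_true a2 a1, iff_of_false (not_lt.2 a2.le) (not_lt.2 a1.le)⟩
      · have a1 := h2 z hzS h
        have a2 : α w < α z := α.lt_iff_lt.2 h
        exact ⟨iff_of_false (not_lt.2 a2.le) (not_lt.2 a1.le), iff_of_true a2 a1⟩)
    refine ⟨β * α, b2, fun z hz hzw => ?_⟩
    exact b1 _ (Finset.mem_image.2 ⟨z, Finset.mem_erase.2 ⟨hzw, hz⟩, rfl⟩)
  by_cases hup : (S.filter (fun w => w < α w)).Nonempty
  · obtain ⟨w, hw, hmin⟩ := Finset.exists_min_image _ id hup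
    obtain ⟨hwS, hwup⟩ := Finset.mem_filter.1 hw
    refine ⟨w, hwS, hwup.ne', key w hwS ?_ ?_⟩
    · intro z hz hzw
      by_contra hcon
      have : z < α z := lt_of_lt_of_le hzw (not_lt.1 hcon)
      exact absurd (hmin z (Finset.mem_filter.2 ⟨hz, this⟩)) (not_le.2 hzw)
    · intro z _ hzw
      exact hwup.trans (α.lt_iff_lt.2 hzw)
  · have hdown : (S.filter (fun w => α w < w)).Nonempty := by
      by_contra hcon
      apply hne
      intro w hw
      rcases lt_trichotomy (α w) w with h | h | h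
      · exact absurd ⟨w, Finset.mem_filter.2 ⟨hw, h⟩⟩ hcon
      · exact h
      · exact absurd ⟨w, Finset.mem_filter.2 ⟨hw, h⟩⟩ hup
    obtain ⟨w, hw, hmax⟩ := Finset.exists_max_image _ id hdown
    obtain ⟨hwS, hwd⟩ := Finset.mem_filter.1 hw
    refine ⟨w, hwS, hwd.ne, key w hwS ?_ ?_⟩
    · intro z _ hzw
      exact (α.lt_iff_lt.2 hzw).trans hwd
    · intro z hz hzw
      by_contra hcon
      have : α z < z := lt_of_le_of_lt (not_lt.1 hcon) hzw
      exact absurd (hmax z (Finset.mem_filter.2 ⟨hz, this⟩)) (not_le.2 hzw)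

/-- Induction on the number of points of `S` that are moved. -/
theorem moves_ind (S : Finset ℚ) (P : GQ → Prop) (h0 : ∀ α, Fix S α → P α)
    (hs : ∀ (α α' : GQ) (w : ℚ), w ∈ S → α w ≠ w → α' w = w →
      (∀ z ∈ S, z ≠ w → α' z = α z) → P α' → P α) (α : GQ) : P α := by
  classical
  induction hn : (S.filter (fun z => α z ≠ z)).card using Nat.strong_induction_on
    generalizing α with
  | _ n ih =>
    by_cases hf : Fix S α
    · exact h0 α hf
    · obtain ⟨w, hw, hwne, α', h1, h2⟩ := reduce_step S α hf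
      refine hs α α' w hw hwne h1 h2 (ih _ ?_ α' rfl)
      rw [← hn]
      apply Finset.card_lt_card
      refine ⟨fun z hz => ?_, fun hsub => ?_⟩
      · obtain ⟨hz1, hz2⟩ := Finset.mem_filter.1 hz
        refine Finset.mem_filter.2 ⟨hz1, ?_⟩
        by_cases hzw : z = w
        · rw [hzw]; exact hwne
        · rwa [← h2 z hz1 hzw]
      · exact (Finset.mem_filter.1 (hsub (Finset.mem_filter.2 ⟨hw, hwne⟩))).2 h1

/-- `S` supports the subgroup `H`. -/
def SuppG (S : Finset ℚ) (H : Subgroup GQ) : Prop := ∀ α, Fix S α → α ∈ H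

theorem SuppG.image {S : Finset ℚ} {H : Subgroup GQ} (h : SuppG S H) {σ : GQ} (hσ : σ ∈ H) :
    SuppG (S.image σ) H := by
  intro α hα
  have : σ⁻¹ * α * σ ∈ H := h _ (fun w hw => by
    rw [mul_app, mul_app, hα _ (Finset.mem_image_of_mem _ hw), inv_app])
  have h2 := H.mul_mem (H.mul_mem hσ this) (H.inv_mem hσ)
  simpa [mul_assoc] using h2

theorem SuppG.single {S T : Finset ℚ} {H : Subgroup GQ} (hS : SuppG S H) (hT : SuppG T H)
    {w : ℚ} (hwT : w ∉ T) {ρ : GQ} (hρ : Fix (S.erase w) ρ) : ρ ∈ H := by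
  classical
  have main : ∀ w'', (∀ z ∈ T ∪ S.erase w, (z < w ↔ z < w'') ∧ (w < z ↔ w'' < z)) →
      ((w < w'' ↔ w < ρ w) ∧ (w'' < w ↔ ρ w < w)) → ρ ∈ H := by
    intro w'' h1 h2
    obtain ⟨μ, m1, m2⟩ := ext_one _ w w'' h1
    obtain ⟨σ, s1, s2⟩ := ext_one (insert w (S.erase w)) w'' (ρ w) (by
      intro z hz
      rcases Finset.mem_insert.1 hz with rfl | hz
      · exact h2
      · have a1 := h1 z (Finset.mem_union_right _ hz)
        have a2 := hρ.lt_iff hz w
        exact ⟨a1.1.symm.trans a2.1, a1.2.symm.trans a2.2⟩)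
    have hμ : μ ∈ H := hT μ (m1.mono Finset.subset_union_left)
    have hσ : σ ∈ H := hS σ (s1.mono (Finset.subset_insert_iff.2 (Finset.Subset.refl _)))
    have : ρ⁻¹ * (σ * μ * σ⁻¹) ∈ H := by
      apply hS
      intro z hz
      by_cases hzw : z = w
      · subst hzw
        rw [mul_app, mul_app, mul_app, s1.inv z (Finset.mem_insert_self _ _), m2, s2, inv_app]
      · have hz' : z ∈ S.erase w := Finset.mem_erase.2 ⟨hzw, hz⟩
        rw [mul_app, mul_app, mul_app, s1.inv z (Finset.mem_insert_of_mem hz'),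
          m1 z (Finset.mem_union_right _ hz'), s1 z (Finset.mem_insert_of_mem hz'), hρ.inv z hz']
    have h3 := H.mul_mem this (H.inv_mem (H.mul_mem (H.mul_mem hσ hμ) (H.inv_mem hσ)))
    rw [mul_inv_cancel_right] at h3
    exact H.inv_mem_iff.1 h3
  have hne : ∀ z ∈ T ∪ S.erase w, z ≠ w := by
    intro z hz
    rcases Finset.mem_union.1 hz with h | h
    · exact fun e => hwT (e ▸ h)
    · exact Finset.ne_of_mem_erase h
  rcases lt_trichotomy w (ρ w) with h | h | h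
  · obtain ⟨b, b1, b2⟩ := exists_gt_close (T ∪ S.erase w) w
    refine main b (fun z hz => ⟨⟨fun h => h.trans b1, fun h' => ?_⟩,
      ⟨b2 z hz, fun h => b1.trans h⟩⟩)
      ⟨iff_of_true b1 h, iff_of_false (not_lt.2 b1.le) (not_lt.2 h.le)⟩
    rcases lt_or_gt_of_ne (hne z hz) with h'' | h''
    · exact h''
    · exact absurd (b2 z hz h'') (not_lt.2 h'.le)
  · exact main w (fun z _ => ⟨Iff.rfl, Iff.rfl⟩) (by rw [← h]; simp)
  · obtain ⟨b, b1, b2⟩ := exists_lt_close (T ∪ S.erase w) w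
    refine main b (fun z hz => ⟨⟨b2 z hz, fun h => h.trans b1⟩,
      ⟨fun h => b1.trans h, fun h' => ?_⟩⟩)
      ⟨iff_of_false (not_lt.2 b1.le) (not_lt.2 h.le), iff_of_true b1 h⟩
    rcases lt_or_gt_of_ne (hne z hz) with h'' | h''
    · exact absurd (b2 z hz h'') (not_lt.2 h'.le)
    · exact h''

theorem SuppG.inter {S T : Finset ℚ} {H : Subgroup GQ} (hS : SuppG S H) (hT : SuppG T H) :
    SuppG (S ∩ T) H := by
  classical
  intro α
  refine moves_ind S (fun α => Fix (S ∩ T) α → α ∈ H) (fun α h _ => hS α h) ?_ α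
  intro α α' w hw hwne h1 h2 ih hfix
  have hwT : w ∉ T := fun h => hwne (hfix w (Finset.mem_inter.2 ⟨hw, h⟩))
  have hα' : α' ∈ H := ih (fun z hz => by
    by_cases hzw : z = w
    · rw [hzw, h1]
    · rw [h2 z (Finset.mem_inter.1 hz).1 hzw, hfix z hz])
  have : α * α'⁻¹ ∈ H := by
    refine (hS.image hα').single hT hwT ?_
    intro y hy
    obtain ⟨hyw, hy⟩ := Finset.mem_erase.1 hy
    obtain ⟨z, hz, rfl⟩ := Finset.mem_image.1 hy
    have hzw : z ≠ w := fun e => hyw (by rw [e, h1])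
    rw [mul_app, inv_app, h2 z hz hzw]
  simpa using H.mul_mem this hα'

theorem exists_least_supp {H : Subgroup GQ} (h : ∃ S, SuppG S H) :
    ∃ S, SuppG S H ∧ ∀ T, SuppG T H → S ⊆ T := by
  classical
  have hex : ∃ n, ∃ S, SuppG S H ∧ S.card = n := by
    obtain ⟨S, hS⟩ := h; exact ⟨_, S, hS, rfl⟩
  obtain ⟨S, hS, hc⟩ := Nat.find_spec hex
  refine ⟨S, hS, fun T hT => ?_⟩
  have h1 : Nat.find hex ≤ (S ∩ T).card := Nat.find_min' hex ⟨_, hS.inter hT, rfl⟩
  have h2 : S ∩ T = S := Finset.eq_of_subset_of_card_le Finset.inter_subset_left (by omega)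
  rw [← h2]; exact Finset.inter_subset_right

theorem le_pow_app {τ : GQ} {w : ℚ} (h : w ≤ τ w) (n : ℕ) : w ≤ (τ ^ n) w := by
  induction n with
  | zero => simp [one_app]
  | succ n ih =>
    rw [pow_succ', mul_app]
    exact h.trans (τ.le_iff_le.2 ih)

end Pool.Agent.Lib.MP_905f9a_lc
end

-- part Pool.Agent.Lib.MP_905f9a_lc.Setting
section

namespace Pool.Agent.Lib.MP_905f9a_lc

variable {Γ : Type} [Group Γ]

/-- The conjugate `g V g⁻¹`. -/
def cj (g : Γ) (V : Subgroup Γ) : Subgroup Γ where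
  carrier := {x | g⁻¹ * x * g ∈ V}
  mul_mem' := by
    intro a b ha hb
    have := V.mul_mem ha hb
    show g⁻¹ * (a * b) * g ∈ V
    convert this using 1; group
  one_mem' := by show g⁻¹ * 1 * g ∈ V; simp
  inv_mem' := by
    intro a ha
    have := V.inv_mem ha
    show g⁻¹ * a⁻¹ * g ∈ V
    convert this using 1; group

theorem mem_cj {g x : Γ} {V : Subgroup Γ} : x ∈ cj g V ↔ g⁻¹ * x * g ∈ V := Iff.rfl

theorem cj_one (V : Subgroup Γ) : cj 1 V = V := by ext x; simp [mem_cj]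
theorem cj_mul (g h : Γ) (V : Subgroup Γ) : cj (g * h) V = cj g (cj h V) := by
  ext x; simp [mem_cj, mul_assoc]
theorem cj_inf (g : Γ) (V W : Subgroup Γ) : cj g (V ⊓ W) = cj g V ⊓ cj g W := by
  ext x; simp [mem_cj]
theorem cj_mono (g : Γ) {V W : Subgroup Γ} (h : V ≤ W) : cj g V ≤ cj g W := fun _ hx => h hx
theorem cj_of_mem {g : Γ} {V : Subgroup Γ} (h : g ∈ V) : cj g V = V := by
  ext x
  rw [mem_cj, V.mul_mem_cancel_right h, V.mul_mem_cancel_left (V.inv_mem h)]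
theorem cj_mul_mem (g : Γ) {w : Γ} {V : Subgroup Γ} (h : w ∈ V) : cj (g * w) V = cj g V := by
  rw [cj_mul, cj_of_mem h]
theorem cj_inv_cj (g : Γ) (V : Subgroup Γ) : cj g⁻¹ (cj g V) = V := by
  rw [← cj_mul, inv_mul_cancel, cj_one]
theorem cj_cj_inv (g : Γ) (V : Subgroup Γ) : cj g (cj g⁻¹ V) = V := by
  rw [← cj_mul, mul_inv_cancel, cj_one]
theorem cj_eq_of_mem {g h : Γ} {V : Subgroup Γ} (hm : g⁻¹ * h ∈ V) : cj h V = cj g V := by
  have : h = g * (g⁻¹ * h) := by group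
  rw [this, cj_mul_mem _ hm]
theorem conj_mem_cj (g : Γ) {v : Γ} {V : Subgroup Γ} (h : v ∈ V) : g * v * g⁻¹ ∈ cj g V := by
  rw [mem_cj]; convert h using 1; group

/-- `y` lies in the double coset `V x W`. -/
def DC (V W : Subgroup Γ) (x y : Γ) : Prop := ∃ v ∈ V, ∃ w ∈ W, y = v * x * w

theorem DC.refl (V W : Subgroup Γ) (x : Γ) : DC V W x x := ⟨1, V.one_mem, 1, W.one_mem, by simp⟩
theorem DC.symm {V W : Subgroup Γ} {x y : Γ} (h : DC V W x y) : DC V W y x := by
  obtain ⟨v, hv, w, hw, rfl⟩ := h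
  exact ⟨v⁻¹, V.inv_mem hv, w⁻¹, W.inv_mem hw, by group⟩
theorem DC.trans {V W : Subgroup Γ} {x y z : Γ} (h : DC V W x y) (h' : DC V W y z) :
    DC V W x z := by
  obtain ⟨v, hv, w, hw, rfl⟩ := h
  obtain ⟨v', hv', w', hw', rfl⟩ := h'
  exact ⟨v' * v, V.mul_mem hv' hv, w * w', W.mul_mem hw hw', by group⟩
theorem DC.mono {V V' W : Subgroup Γ} {x y : Γ} (h : DC V W x y) (hV : V ≤ V') : DC V' W x y := by
  obtain ⟨v, hv, w, hw, rfl⟩ := h
  exact ⟨v, hV hv, w, hw, rfl⟩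
theorem DC.conj {V W : Subgroup Γ} {x y : Γ} (h : DC V W x y) (g : Γ) :
    DC (cj g V) W (g * x) (g * y) := by
  obtain ⟨v, hv, w, hw, rfl⟩ := h
  exact ⟨g * v * g⁻¹, conj_mem_cj g hv, w, hw, by group⟩
theorem DC.left {V W : Subgroup Γ} {v : Γ} (hv : v ∈ V) (x : Γ) : DC V W x (v * x) :=
  ⟨v, hv, 1, W.one_mem, by simp⟩
theorem DC.right {V W : Subgroup Γ} {w : Γ} (hw : w ∈ W) (x : Γ) : DC V W x (x * w) :=
  ⟨1, V.one_mem, w, hw, by simp⟩
theorem DC.of_mem_cj {V W : Subgroup Γ} {g x : Γ} (h : g ∈ cj x W) : DC V W x (g * x) :=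
  ⟨1, V.one_mem, x⁻¹ * g * x, h, by group⟩

/-- `U ⊓ W` has finite index in `U`. -/
def Alg (W U : Subgroup Γ) : Prop := ∃ F : Finset Γ, ∀ u ∈ U, ∃ f ∈ F, f ∈ U ∧ f⁻¹ * u ∈ W

theorem Alg.of_le {W U : Subgroup Γ} (h : U ≤ W) : Alg W U :=
  ⟨{1}, fun u hu => ⟨1, by simp, U.one_mem, by simpa using h hu⟩⟩

theorem Alg.of_cover {W U : Subgroup Γ} {κ : Type*} [Finite κ] (c : Γ → κ)
    (h : ∀ u ∈ U, ∀ u' ∈ U, c u = c u' → u⁻¹ * u' ∈ W) : Alg W U := by
  classical
  have := Fintype.ofFinite κ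
  let rep : κ → Γ := fun k => if hk : ∃ u ∈ U, c u = k then hk.choose else 1
  refine ⟨Finset.univ.image rep, fun u hu => ?_⟩
  have hk : ∃ u' ∈ U, c u' = c u := ⟨u, hu, rfl⟩
  have e : rep (c u) = hk.choose := dif_pos hk
  refine ⟨rep (c u), Finset.mem_image_of_mem _ (Finset.mem_univ _), ?_, ?_⟩
  · rw [e]; exact hk.choose_spec.1
  · rw [e]; exact h _ hk.choose_spec.1 _ hu hk.choose_spec.2

theorem Alg.exists_cover {W U : Subgroup Γ} (h : Alg W U) :
    ∃ (F : Finset Γ) (c : Γ → Option F), ∀ u ∈ U, ∀ u' ∈ U, c u = c u' → u⁻¹ * u' ∈ W := by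
  classical
  obtain ⟨F, hF⟩ := h
  refine ⟨F, fun u => if hu : u ∈ U then some ⟨(hF u hu).choose, (hF u hu).choose_spec.1⟩
    else none, ?_⟩
  intro u hu u' hu' e
  simp only [dif_pos hu, dif_pos hu', Option.some.injEq, Subtype.mk.injEq] at e
  have h1 := (hF u hu).choose_spec.2.2
  have h2 := (hF u' hu').choose_spec.2.2
  rw [← e] at h2
  have := W.mul_mem (W.inv_mem h1) h2
  convert this using 1; group

theorem Alg.mono {W W' U U' : Subgroup Γ} (h : Alg W U) (hW : W ≤ W') (hU : U' ≤ U) :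
    Alg W' U' := by
  obtain ⟨F, c, hc⟩ := h.exists_cover
  exact Alg.of_cover c (fun u hu u' hu' e => hW (hc u (hU hu) u' (hU hu') e))

theorem Alg.inf {W W' U : Subgroup Γ} (h : Alg W U) (h' : Alg W' U) : Alg (W ⊓ W') U := by
  obtain ⟨F, c, hc⟩ := h.exists_cover
  obtain ⟨F', c', hc'⟩ := h'.exists_cover
  exact Alg.of_cover (fun u => (c u, c' u)) (fun u hu u' hu' e =>
    ⟨hc u hu u' hu' (congrArg Prod.fst e), hc' u hu u' hu' (congrArg Prod.snd e)⟩)

theorem Alg.trans {W U U' : Subgroup Γ} (h : Alg W (U ⊓ U')) (h' : Alg U' U) : Alg W U := by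
  classical
  obtain ⟨F, hF⟩ := h
  obtain ⟨F', hF'⟩ := h'
  refine ⟨(F' ×ˢ F).image (fun p => p.1 * p.2), fun u hu => ?_⟩
  obtain ⟨f', hf', hf'U, h1⟩ := hF' u hu
  obtain ⟨f, hf, hfU, h2⟩ := hF (f'⁻¹ * u) ⟨U.mul_mem (U.inv_mem hf'U) hu, h1⟩
  refine ⟨f' * f, Finset.mem_image.2 ⟨(f', f), Finset.mem_product.2 ⟨hf', hf⟩, rfl⟩,
    U.mul_mem hf'U hfU.1, ?_⟩
  convert h2 using 1; group

theorem Alg.trans' {W U U' : Subgroup Γ} (h : Alg W U') (h' : Alg U' U) : Alg W U :=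
  (h.mono le_rfl inf_le_right).trans h'

theorem Alg.conj {W U : Subgroup Γ} (h : Alg W U) (g : Γ) : Alg (cj g W) (cj g U) := by
  obtain ⟨F, c, hc⟩ := h.exists_cover
  refine Alg.of_cover (fun u => c (g⁻¹ * u * g)) (fun u hu u' hu' e => ?_)
  have := hc _ hu _ hu' e
  rw [mem_cj]; convert this using 1; group

theorem Alg.conj_mem {W U : Subgroup Γ} (h : Alg W U) {g : Γ} (hg : g ∈ U) : Alg (cj g W) U := by
  have := h.conj g
  rwa [cj_of_mem hg] at this

theorem alg_of_forall {κ : Type*} (s : Finset κ) (f : κ → Subgroup Γ) (U : Subgroup Γ)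
    (h : ∀ i ∈ s, Alg (f i) U) (N : Subgroup Γ) (hN : ∀ x ∈ U, (∀ i ∈ s, x ∈ f i) → x ∈ N) :
    Alg N U := by
  classical
  induction s using Finset.induction_on generalizing N with
  | empty => exact Alg.of_le (fun x hx => hN x hx (by simp))
  | insert a s ha ih =>
    have h1 := ih (fun i hi => h i (Finset.mem_insert_of_mem hi)) (U ⊓ ⨅ i ∈ s, f i)
      (fun x hx hx' => ⟨hx, by simpa [Subgroup.mem_iInf] using hx'⟩)
    refine (h1.inf (h a (Finset.mem_insert_self _ _))).mono ?_ le_rfl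
    rintro x ⟨⟨hx1, hx2⟩, hx3⟩
    refine hN x hx1 (fun i hi => ?_)
    rcases Finset.mem_insert.1 hi with rfl | hi
    · exact hx3
    · have : ∀ i ∈ s, x ∈ f i := by simpa [Subgroup.mem_iInf] using hx2
      exact this i hi

/-- The abstract setting: a group with a family of open subgroups, an action of the order
automorphisms of the rationals with finite supports and finitely many orbits, and stability. -/
class Setting (Γ : Type) [Group Γ] where
  ι : GQ →* Γ
  Op : Subgroup Γ → Prop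
  op_top : Op ⊤
  op_inf : ∀ {V W}, Op V → Op W → Op (V ⊓ W)
  op_mono : ∀ {V W}, Op V → V ≤ W → Op W
  op_cj : ∀ {V} (g : Γ), Op V → Op (cj g V)
  op_supp : ∀ {V}, Op V → ∃ T, ∀ α, Fix T α → ι α ∈ V
  finTup : ∀ (I : Type) [Finite I] (W : I → Subgroup Γ), (∀ i, Op (W i)) →
    ∃ R : Finset (I → Γ), ∀ δ : I → Γ, ∃ α, ∃ δ0 ∈ R, ∀ i, (ι α * δ0 i)⁻¹ * δ i ∈ W i
  stable : ∀ {V W}, Op V → Op W → ∀ (z : Γ) (a b : ℕ → Γ),
    ¬ ∀ i j, DC V W z ((a i)⁻¹ * b j) ↔ j ≤ i

open Setting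

variable [Setting Γ]

theorem op_of_forall {κ : Type*} (s : Finset κ) (f : κ → Subgroup Γ)
    (h : ∀ i ∈ s, Op (f i)) (N : Subgroup Γ) (hN : ∀ x, (∀ i ∈ s, x ∈ f i) → x ∈ N) : Op N := by
  classical
  induction s using Finset.induction_on generalizing N with
  | empty => exact op_mono op_top (fun x _ => hN x (by simp))
  | insert a s ha ih =>
    have h1 := ih (fun i hi => h i (Finset.mem_insert_of_mem hi)) (⨅ i ∈ s, f i)
      (fun x hx' => by simpa [Subgroup.mem_iInf] using hx')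
    refine op_mono (op_inf h1 (h a (Finset.mem_insert_self _ _))) ?_
    rintro x ⟨hx2, hx3⟩
    refine hN x (fun i hi => ?_)
    rcases Finset.mem_insert.1 hi with rfl | hi
    · exact hx3
    · have : ∀ i ∈ s, x ∈ f i := by simpa [Subgroup.mem_iInf] using hx2
      exact this i hi

theorem finDC {V W : Subgroup Γ} (hV : Op V) (hW : Op W) :
    ∃ R : Finset Γ, ∀ x, ∃ r ∈ R, DC V W r x := by
  classical
  obtain ⟨R, hR⟩ := finTup Bool (fun b => cond b V W) (by rintro (_ | _) <;> assumption)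
  refine ⟨R.image (fun δ => (δ true)⁻¹ * δ false), fun x => ?_⟩
  obtain ⟨α, δ0, h0, h⟩ := hR (fun b => cond b 1 x)
  have h1 : (ι α * δ0 true)⁻¹ * 1 ∈ V := h true
  have h2 : (ι α * δ0 false)⁻¹ * x ∈ W := h false
  refine ⟨_, Finset.mem_image_of_mem _ h0, ι α * δ0 true, ?_, _, h2, by group⟩
  rw [mul_one] at h1
  exact V.inv_mem_iff.1 h1

theorem finG {W : Subgroup Γ} (hW : Op W) :
    ∃ R : Finset Γ, ∀ x, ∃ α, ∃ x0 ∈ R, ∃ w ∈ W, x = ι α * x0 * w := by
  classical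
  obtain ⟨R, hR⟩ := finTup Unit (fun _ => W) (fun _ => hW)
  refine ⟨R.image (fun δ => δ ()), fun x => ?_⟩
  obtain ⟨α, δ0, h0, h⟩ := hR (fun _ => x)
  exact ⟨α, _, Finset.mem_image_of_mem _ h0, _, h (), by group⟩

/-- `T` supports `V`. -/
def Supp (T : Finset ℚ) (V : Subgroup Γ) : Prop := ∀ α, Fix T α → ι α ∈ V

theorem Supp.mono {T T' : Finset ℚ} {V V' : Subgroup Γ} (h : Supp T V) (hT : T ⊆ T')
    (hV : V ≤ V') : Supp T' V' := fun α hα => hV (h α (hα.mono hT))

theorem Supp.inf {T : Finset ℚ} {V W : Subgroup Γ} (h : Supp T V) (h' : Supp T W) :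
    Supp T (V ⊓ W) := fun α hα => ⟨h α hα, h' α hα⟩

theorem Supp.conj {T : Finset ℚ} {V : Subgroup Γ} (h : Supp T V) (σ : GQ) :
    Supp (T.image σ) (cj (ι σ) V) := by
  intro α hα
  rw [mem_cj, ← map_inv, ← map_mul, ← map_mul]
  apply h
  intro w hw
  rw [mul_app, mul_app, hα _ (Finset.mem_image_of_mem _ hw), inv_app]

open Classical in
/-- The least support. -/
noncomputable def supp (V : Subgroup Γ) : Finset ℚ :=
  if h : ∃ T, SuppG T (V.comap ι) then (exists_least_supp h).choose else ∅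

theorem supp_spec {V : Subgroup Γ} (hV : Op V) : Supp (supp V) V := by
  have h : ∃ T, SuppG T (V.comap ι) := op_supp hV
  rw [supp, dif_pos h]
  exact (exists_least_supp h).choose_spec.1

theorem supp_subset {V : Subgroup Γ} {T : Finset ℚ} (hT : Supp T V) : supp V ⊆ T := by
  have h : ∃ T, SuppG T (V.comap ι) := ⟨T, hT⟩
  rw [supp, dif_pos h]
  exact (exists_least_supp h).choose_spec.2 T hT

theorem supp_of_subset {V : Subgroup Γ} (hV : Op V) {T : Finset ℚ} (h : supp V ⊆ T) : Supp T V :=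
  (supp_spec hV).mono h le_rfl

theorem supp_cj {V : Subgroup Γ} (hV : Op V) (σ : GQ) :
    supp (cj (ι σ) V) = (supp V).image σ := by
  apply Finset.Subset.antisymm (supp_subset ((supp_spec hV).conj σ))
  have h := (supp_spec (op_cj (ι σ) hV)).conj σ⁻¹
  rw [map_inv, cj_inv_cj] at h
  intro y hy
  obtain ⟨z, hz, rfl⟩ := Finset.mem_image.1 hy
  obtain ⟨u, hu, e⟩ := Finset.mem_image.1 (supp_subset h hz)
  rw [← e, app_inv]; exact hu

theorem mem_supp_cj {V : Subgroup Γ} (hV : Op V) (σ : GQ) (w : ℚ) :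
    σ w ∈ supp (cj (ι σ) V) ↔ w ∈ supp V := by
  rw [supp_cj hV]
  constructor
  · intro h
    obtain ⟨z, hz, e⟩ := Finset.mem_image.1 h
    rwa [← σ.injective e]
  · exact Finset.mem_image_of_mem _

theorem supp_anti {V W : Subgroup Γ} (hV : Op V) (h : V ≤ W) : supp W ⊆ supp V :=
  supp_subset ((supp_spec hV).mono (Finset.Subset.refl _) h)

theorem alg_supp {W U : Subgroup Γ} {T : Finset ℚ} (hW : Op W) (hU : Supp T U) (h : Alg W U) :
    supp W ⊆ T := by
  classical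
  intro w hw
  by_contra hwT
  obtain ⟨τ, t1, t2, -⟩ := exists_nudge (T ∪ supp W) w
  have hT : Fix T τ := t1.mono (fun z hz =>
    Finset.mem_erase.2 ⟨fun e => hwT (e ▸ hz), Finset.mem_union_left _ hz⟩)
  obtain ⟨F, c, hc⟩ := h.exists_cover
  obtain ⟨n, m, hnm, e⟩ := Finite.exists_ne_map_eq_of_infinite (fun n : ℕ => c (ι (τ ^ n)))
  wlog hlt : n < m generalizing n m
  · exact this m n hnm.symm e.symm (by omega)
  obtain ⟨k, rfl⟩ : ∃ k, m = n + (k + 1) := ⟨m - n - 1, by omega⟩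
  have h1 := hc _ (hU _ (hT.pow n)) _ (hU _ (hT.pow (n + (k + 1)))) e
  rw [← map_inv, ← map_mul, pow_add, inv_mul_cancel_left] at h1
  have h2 : (τ ^ (k + 1)) w ∈ supp W := by
    have := (mem_supp_cj hW (τ ^ (k + 1)) w).2 hw
    rwa [cj_of_mem h1] at this
  have h3 : w < (τ ^ (k + 1)) w := by
    rw [pow_succ', mul_app]
    exact lt_of_lt_of_le t2 (τ.le_iff_le.2 (le_pow_app t2.le k))
  have h4 := (t1.pow (k + 1)) _ (Finset.mem_erase.2 ⟨h3.ne', Finset.mem_union_right _ h2⟩)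
  exact h3.ne' ((τ ^ (k + 1)).injective h4)

theorem exists_core {W U : Subgroup Γ} (hW : Op W) (hU : Op U) (h : Alg W U) :
    ∃ N : Subgroup Γ, Op N ∧ N ≤ U ∧ Alg N U ∧ (∀ u ∈ U, cj u N = N) ∧ ∀ u ∈ U, N ≤ cj u W := by
  classical
  obtain ⟨F, hF⟩ := id h
  let N : Subgroup Γ := U ⊓ ⨅ u ∈ U, cj u W
  have memN : ∀ x, x ∈ N ↔ x ∈ U ∧ ∀ u ∈ U, x ∈ cj u W := by
    intro x; simp [N, Subgroup.mem_iInf]
  have key : ∀ x ∈ U, (∀ f ∈ F.filter (fun f => f ∈ U), x ∈ cj f W) → x ∈ N := by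
    intro x hx hx'
    refine (memN x).2 ⟨hx, fun u hu => ?_⟩
    obtain ⟨f, hf, hfU, h1⟩ := hF u hu
    rw [cj_eq_of_mem h1]
    exact hx' f (Finset.mem_filter.2 ⟨hf, hfU⟩)
  refine ⟨N, ?_, inf_le_left, ?_, ?_, fun u hu x hx => ((memN x).1 hx).2 u hu⟩
  · refine op_of_forall (F.filter (fun f => f ∈ U)) (fun f => U ⊓ cj f W)
      (fun f _ => op_inf hU (op_cj f hW)) N ?_
    intro x hx
    obtain ⟨f, hf, hfU, -⟩ := hF 1 U.one_mem
    exact key x (hx f (Finset.mem_filter.2 ⟨hf, hfU⟩)).1 (fun f hf => (hx f hf).2)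
  · exact alg_of_forall (F.filter (fun f => f ∈ U)) (fun f => cj f W) U
      (fun f hf => h.conj_mem (Finset.mem_filter.1 hf).2) N key
  · intro u hu
    ext x
    rw [mem_cj, memN, memN, U.mul_mem_cancel_right hu, U.mul_mem_cancel_left (U.inv_mem hu)]
    refine and_congr_right (fun _ => ⟨fun h' v hv => ?_, fun h' v hv => ?_⟩)
    · have := h' (u⁻¹ * v) (U.mul_mem (U.inv_mem hu) hv)
      rw [mem_cj] at this ⊢
      convert this using 1; group
    · have := h' (u * v) (U.mul_mem hu hv)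
      rw [mem_cj] at this ⊢
      convert this using 1; group

theorem star_nocross {V W : Subgroup Γ} {x : Γ} {S T : Finset ℚ} (hS : Supp S (cj x W))
    (hT : Supp T V) {w : ℚ} {ρ : GQ} (hρ : Fix (S.erase w) ρ)
    (h : ∀ z ∈ T, (z < w ↔ z < ρ w) ∧ (w < z ↔ ρ w < z)) : DC V W x (ι ρ * x) := by
  classical
  obtain ⟨μ, m1, m2⟩ := ext_one (T ∪ S.erase w) w (ρ w) (by
    intro z hz
    rcases Finset.mem_union.1 hz with hz | hz
    · exact h z hz
    · exact hρ.lt_iff hz w)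
  have h1 : ι (μ⁻¹ * ρ) ∈ cj x W := by
    apply hS
    intro z hz
    by_cases hzw : z = w
    · rw [hzw, mul_app, ← m2, inv_app]
    · have hz' : z ∈ S.erase w := Finset.mem_erase.2 ⟨hzw, hz⟩
      rw [mul_app, hρ z hz', m1.inv z (Finset.mem_union_right _ hz')]
  have h2 : ι μ ∈ V := hT μ (m1.mono Finset.subset_union_left)
  have h3 := (DC.of_mem_cj (V := V) h1).trans (DC.left h2 _)
  convert h3 using 1
  rw [map_mul, map_inv]; group

theorem star_up {V W : Subgroup Γ} (hV : Op V) (hW : Op W) {x : Γ} {S T : Finset ℚ}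
    (hS : Supp S (cj x W)) (hT : Supp T V) {w : ℚ} {ρ : GQ} (hρ : Fix (S.erase w) ρ)
    (hw : w ∉ T) (hw' : ρ w ∉ T) (hlt : w < ρ w) : DC V W x (ι ρ * x) := by
  classical
  by_contra hcon
  -- a shift fixing everything outside the crossed block
  let F := T.filter (fun z => ¬ (w < z ∧ z < ρ w)) ∪ S.erase w
  have hout : ∀ z ∈ T, ¬ (w < z ∧ z < ρ w) → (z < w ↔ z < ρ w) ∧ (w < z ↔ ρ w < z) := by
    intro z hz h
    have n1 : z ≠ w := fun e => hw (e ▸ hz)
    have n2 : z ≠ ρ w := fun e => hw' (e ▸ hz)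
    rcases lt_or_gt_of_ne n1 with h1 | h1
    · exact ⟨iff_of_true h1 (h1.trans hlt),
        iff_of_false (not_lt.2 h1.le) (not_lt.2 (h1.trans hlt).le)⟩
    · have h2 : ρ w < z := lt_of_le_of_ne (not_lt.1 (fun h' => h ⟨h1, h'⟩)) n2.symm
      exact ⟨iff_of_false (not_lt.2 h1.le) (not_lt.2 h2.le), iff_of_true h1 h2⟩
  obtain ⟨τ, t1, t2⟩ := ext_one F w (ρ w) (by
    intro z hz
    rcases Finset.mem_union.1 hz with hz | hz
    · exact hout z (Finset.mem_filter.1 hz).1 (Finset.mem_filter.1 hz).2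
    · exact hρ.lt_iff hz w)
  have tS : Fix (S.erase w) τ := t1.mono Finset.subset_union_right
  have hτ : w < τ w := t2 ▸ hlt
  have low : ∀ n : ℕ, DC V W x (ι (τ ^ n)⁻¹ * x) := by
    intro n
    refine star_nocross hS hT (tS.pow n).inv (fun z hz => ?_)
    by_cases hb : w < z ∧ z < ρ w
    · have h1 : (τ ^ n)⁻¹ w ≤ w := by
        have := (τ ^ n)⁻¹.le_iff_le.2 (le_pow_app hτ.le n)
        rwa [inv_app] at this
      exact ⟨iff_of_false (not_lt.2 hb.1.le) (not_lt.2 (h1.trans hb.1.le)),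
        iff_of_true hb.1 (lt_of_le_of_lt h1 hb.1)⟩
    · exact (t1.pow n).inv.lt_iff (Finset.mem_union_left _ (Finset.mem_filter.2 ⟨hz, hb⟩)) w
  have hS' : Supp (S.image ρ) (cj (ι ρ * x) W) := by rw [cj_mul]; exact hS.conj ρ
  have high : ∀ n : ℕ, DC V W (ι ρ * x) (ι (τ ^ (n + 1)) * x) := by
    intro n
    have e : ι (τ ^ (n + 1)) * x = ι (τ ^ (n + 1) * ρ⁻¹) * (ι ρ * x) := by
      rw [map_mul, map_inv]; group
    rw [e]
    have e2 : (τ ^ (n + 1) * ρ⁻¹) (ρ w) = (τ ^ n) (ρ w) := by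
      rw [mul_app, inv_app, pow_succ, mul_app, t2]
    refine star_nocross hS' hT (w := ρ w) ?_ (fun z hz => ?_)
    · intro y hy
      obtain ⟨hyw, hy⟩ := Finset.mem_erase.1 hy
      obtain ⟨z, hz, rfl⟩ := Finset.mem_image.1 hy
      have hz' : z ∈ S.erase w := Finset.mem_erase.2 ⟨fun e => hyw (by rw [e]), hz⟩
      rw [mul_app, inv_app, (tS.pow _) z hz', hρ z hz']
    · rw [e2]
      by_cases hb : w < z ∧ z < ρ w
      · have h1 : ρ w ≤ (τ ^ n) (ρ w) := le_pow_app (by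
          rw [← t2]; exact τ.le_iff_le.2 hτ.le) n
        exact ⟨iff_of_true hb.2 (lt_of_lt_of_le hb.2 h1),
          iff_of_false (not_lt.2 hb.2.le) (not_lt.2 (hb.2.le.trans h1))⟩
      · exact (t1.pow n).lt_iff (Finset.mem_union_left _ (Finset.mem_filter.2 ⟨hz, hb⟩)) _
  apply stable hV hW x (fun i => ι (τ ^ i)) (fun j => ι (τ ^ j) * x)
  intro i j
  constructor
  · intro h
    by_contra hij
    obtain ⟨k, rfl⟩ : ∃ k, j = i + (k + 1) := ⟨j - i - 1, by omega⟩
    apply hcon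
    refine h.trans ?_
    have e : (ι (τ ^ i))⁻¹ * (ι (τ ^ (i + (k + 1))) * x) = ι (τ ^ (k + 1)) * x := by
      rw [pow_add, map_mul]; group
    rw [e]
    exact (high k).symm
  · intro hij
    obtain ⟨k, rfl⟩ : ∃ k, i = k + j := ⟨i - j, by omega⟩
    have e : (ι (τ ^ (k + j)))⁻¹ * (ι (τ ^ j) * x) = ι (τ ^ k)⁻¹ * x := by
      rw [add_comm, pow_add, map_mul, map_inv]; group
    rw [e]
    exact low k

theorem star_single {V W : Subgroup Γ} (hV : Op V) (hW : Op W) {x : Γ} {S T : Finset ℚ}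
    (hS : Supp S (cj x W)) (hT : Supp T V) {w : ℚ} {ρ : GQ} (hρ : Fix (S.erase w) ρ)
    (hw : w ∉ T) (hw' : ρ w ∉ T) : DC V W x (ι ρ * x) := by
  classical
  rcases lt_trichotomy w (ρ w) with h | h | h
  · exact star_up hV hW hS hT hρ hw hw' h
  · exact star_nocross hS hT hρ (fun z _ => by rw [← h]; simp)
  · have hS' : Supp (S.image ρ) (cj (ι ρ * x) W) := by rw [cj_mul]; exact hS.conj ρ
    have := star_up hV hW hS' hT (w := ρ w) (ρ := ρ⁻¹) (by
      intro y hy
      obtain ⟨hyw, hy⟩ := Finset.mem_erase.1 hy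
      obtain ⟨z, hz, rfl⟩ := Finset.mem_image.1 hy
      have hz' : z ∈ S.erase w := Finset.mem_erase.2 ⟨fun e => hyw (by rw [e]), hz⟩
      rw [inv_app, hρ z hz']) hw' (by rwa [inv_app]) (by rwa [inv_app])
    rw [map_inv, inv_mul_cancel_left] at this
    exact this.symm

/-- The type of a pair only depends on the overlap of the supports. -/
theorem star {V W : Subgroup Γ} (hV : Op V) (hW : Op W) {x : Γ} {S T : Finset ℚ}
    (hS : Supp S (cj x W)) (hT : Supp T V) (α : GQ)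
    (h1 : ∀ w ∈ S, w ∈ T → α w = w) (h2 : ∀ w ∈ S, α w ∈ T → w ∈ T) : DC V W x (ι α * x) := by
  classical
  revert h1 h2
  refine moves_ind S (fun α => (∀ w ∈ S, w ∈ T → α w = w) → (∀ w ∈ S, α w ∈ T → w ∈ T) →
    DC V W x (ι α * x)) (fun α h _ _ => DC.of_mem_cj (hS α h)) ?_ α
  intro α α' w hw hwne e1 e2 ih h1 h2
  have hwT : w ∉ T := fun h => hwne (h1 w hw h)
  have ih' := ih (fun z hz hzT => by
    rw [e2 z hz (fun e => hwT (e ▸ hzT)), h1 z hz hzT]) (fun z hz hzT => by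
    by_cases hzw : z = w
    · rw [hzw, e1] at hzT; exact absurd hzT hwT
    · rw [e2 z hz hzw] at hzT; exact h2 z hz hzT)
  have hS' : Supp (S.image α') (cj (ι α' * x) W) := by rw [cj_mul]; exact hS.conj α'
  have e3 : (α * α'⁻¹) w = α w := by
    conv_lhs => rw [← e1]
    rw [mul_app, inv_app]
  have := star_single hV hW hS' hT (w := w) (ρ := α * α'⁻¹) (by
    intro y hy
    obtain ⟨hyw, hy⟩ := Finset.mem_erase.1 hy
    obtain ⟨z, hz, rfl⟩ := Finset.mem_image.1 hy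
    have hzw : z ≠ w := fun e => hyw (by rw [e, e1])
    rw [mul_app, inv_app, e2 z hz hzw]) hwT (by
    rw [e3]; exact fun h => hwT (h2 w hw h))
  refine ih'.trans ?_
  convert this using 1
  rw [map_mul, map_inv]; group

end Pool.Agent.Lib.MP_905f9a_lc
end

-- part Pool.Agent.Lib.MP_905f9a_lc.Types
section

namespace Pool.Agent.Lib.MP_905f9a_lc

open Setting Filter

variable {Γ : Type} [Group Γ] [Setting Γ]

/-- A global type of cosets of `W`: a coherent choice of a double coset for each open subgroup. -/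
structure GT (W : Subgroup Γ) where
  r : Subgroup Γ → Γ → Prop
  opn : ∀ {V x}, r V x → Op V
  ex : ∀ {V}, Op V → ∃ x, r V x
  iff : ∀ {V x y}, r V x → (r V y ↔ DC V W x y)
  mono : ∀ {V V' x}, V ≤ V' → r V x → r V' x

variable {W : Subgroup Γ}

theorem GT.dc (p : GT W) {V : Subgroup Γ} {x y : Γ} (hx : p.r V x) (hy : p.r V y) : DC V W x y :=
  (p.iff hx).1 hy

theorem GT.of_dc (p : GT W) {V : Subgroup Γ} {x y : Γ} (hx : p.r V x) (h : DC V W x y) :
    p.r V y := (p.iff hx).2 h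

theorem GT.ext' {p q : GT W} (h : ∀ V, Op V → ∃ x, p.r V x ∧ q.r V x) : p = q := by
  have : p.r = q.r := by
    funext V y
    apply propext
    constructor
    · intro hp
      obtain ⟨x, h1, h2⟩ := h V (p.opn hp)
      exact q.of_dc h2 (p.dc h1 hp)
    · intro hq
      obtain ⟨x, h1, h2⟩ := h V (q.opn hq)
      exact p.of_dc h1 (q.dc h2 hq)
  cases p; cases q; cases this; rfl

theorem GT.ext_le {p q : GT W} {U : Subgroup Γ} (hU : Op U)
    (h : ∀ V, Op V → V ≤ U → ∃ x, p.r V x ∧ q.r V x) : p = q := by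
  refine GT.ext' (fun V hV => ?_)
  obtain ⟨x, h1, h2⟩ := h (V ⊓ U) (op_inf hV hU) inf_le_right
  exact ⟨x, p.mono inf_le_left h1, q.mono inf_le_left h2⟩

instance : SMul Γ (GT W) where
  smul g p :=
    { r := fun V x => p.r (cj g⁻¹ V) (g⁻¹ * x)
      opn := fun {V x} h => by
        have := op_cj g (p.opn h)
        rwa [cj_cj_inv] at this
      ex := fun {V} hV => by
        obtain ⟨x, hx⟩ := p.ex (op_cj g⁻¹ hV)
        exact ⟨g * x, by simpa using hx⟩
      iff := fun {V x y} h => by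
        rw [p.iff h]
        constructor
        · intro h'
          have := h'.conj g
          simpa [cj_cj_inv] using this
        · intro h'
          exact h'.conj g⁻¹
      mono := fun {V V' x} hV h => p.mono (cj_mono _ hV) h }

theorem smul_r (g : Γ) (p : GT W) (V : Subgroup Γ) (x : Γ) :
    (g • p).r V x ↔ p.r (cj g⁻¹ V) (g⁻¹ * x) := Iff.rfl

theorem GT.r_smul (p : GT W) {V : Subgroup Γ} {x : Γ} (h : p.r V x) (g : Γ) :
    (g • p).r (cj g V) (g * x) := by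
  rw [smul_r, cj_inv_cj]; simpa using h

instance : MulAction Γ (GT W) where
  one_smul p := GT.ext' (fun V hV => by
    obtain ⟨x, hx⟩ := p.ex hV
    exact ⟨x, by rw [smul_r]; simpa [cj_one] using hx, hx⟩)
  mul_smul g h p := GT.ext' (fun V hV => by
    obtain ⟨x, hx⟩ := ((g * h) • p).ex hV
    refine ⟨x, hx, ?_⟩
    rw [smul_r] at hx
    rw [smul_r, smul_r, ← cj_mul]
    simpa [mul_assoc] using hx)

/-- The stabiliser of a global type. -/
abbrev stab (p : GT W) : Subgroup Γ := MulAction.stabilizer Γ p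

theorem mem_stab {p : GT W} {g : Γ} : g ∈ stab p ↔ g • p = p := Iff.rfl

theorem stab_smul (g : Γ) (p : GT W) : stab (g • p) = cj g (stab p) := by
  ext x
  rw [mem_cj, mem_stab, mem_stab, mul_smul, mul_smul, inv_smul_eq_iff]

theorem GT.r_of_stab (p : GT W) {V : Subgroup Γ} {x g : Γ} (h : p.r V x) (hg : g ∈ stab p) :
    p.r (cj g V) (g * x) := by
  have := p.r_smul h g
  rwa [mem_stab.1 hg] at this

/-- Admissible moves for the fresh type. -/
def Adm (W : Subgroup Γ) (x : Γ) (S0 T : Finset ℚ) (α : GQ) : Prop :=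
  Fix S0 α ∧ ∀ w ∈ supp (cj x W), α w ∈ T → w ∈ S0

theorem exists_adm (W : Subgroup Γ) (x : Γ) (S0 T : Finset ℚ) : ∃ α, Adm W x S0 T α :=
  avoid S0 _ T

theorem Adm.mono {x : Γ} {S0 T T' : Finset ℚ} {α : GQ} (h : Adm W x S0 T α) (hT : T' ⊆ T) :
    Adm W x S0 T' α := ⟨h.1, fun w hw hw' => h.2 w hw (hT hw')⟩

theorem adm_dc (hW : Op W) {V : Subgroup Γ} (hV : Op V) {x : Γ} {S0 : Finset ℚ} {α α' : GQ}
    (h : Adm W x S0 (supp V) α) (h' : Adm W x S0 (supp V) α') :
    DC V W (ι α * x) (ι α' * x) := by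
  have hS : Supp ((supp (cj x W)).image α) (cj (ι α * x) W) := by
    rw [cj_mul]; exact (supp_spec (op_cj x hW)).conj α
  have := star hV hW hS (supp_spec hV) (α' * α⁻¹) (by
    intro y hy hyT
    obtain ⟨z, hz, rfl⟩ := Finset.mem_image.1 hy
    have hz0 := h.2 z hz hyT
    rw [mul_app, inv_app, h'.1 z hz0, h.1 z hz0]) (by
    intro y hy hyT
    obtain ⟨z, hz, rfl⟩ := Finset.mem_image.1 hy
    rw [mul_app, inv_app] at hyT
    have hz0 := h'.2 z hz hyT
    rwa [h.1 z hz0, ← h'.1 z hz0])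
  convert this using 1
  rw [map_mul, map_inv]; group

/-- The type of `x W` with the support points outside `S0` made fresh. -/
def fr (hW : Op W) (x : Γ) (S0 : Finset ℚ) : GT W where
  r V y := Op V ∧ ∃ α, Adm W x S0 (supp V) α ∧ DC V W (ι α * x) y
  opn h := h.1
  ex := by
    intro V hV
    obtain ⟨α, hα⟩ := exists_adm W x S0 (supp V)
    exact ⟨_, hV, α, hα, DC.refl _ _ _⟩
  iff := by
    rintro V y z ⟨hV, α, hα, h⟩
    constructor
    · rintro ⟨-, α', hα', h'⟩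
      exact h.symm.trans ((adm_dc hW hV hα hα').trans h')
    · intro h'
      exact ⟨hV, α, hα, h.trans h'⟩
  mono := by
    rintro V V' y hVV ⟨hV, α, hα, h⟩
    exact ⟨op_mono hV hVV, α, hα.mono (supp_anti hV hVV), h.mono hVV⟩

theorem fr_real (hW : Op W) {x : Γ} {S0 T : Finset ℚ} {V : Subgroup Γ} (hV : Op V)
    (hT : Supp T V) {α : GQ} (h : Adm W x S0 T α) : (fr hW x S0).r V (ι α * x) :=
  ⟨hV, α, h.mono (supp_subset hT), DC.refl _ _ _⟩

theorem fr_self (hW : Op W) {x : Γ} {S0 T : Finset ℚ} {V : Subgroup Γ} (hV : Op V)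
    (hT : Supp T V) (h : ∀ w ∈ supp (cj x W), w ∈ T → w ∈ S0) : (fr hW x S0).r V x := by
  have := fr_real hW hV hT (α := 1) (x := x) (S0 := S0) ⟨Fix.one _, h⟩
  simpa using this

theorem supp_pull {V : Subgroup Γ} {T : Finset ℚ} (hT : Supp T V) (σ : GQ) :
    Supp (T.image ⇑σ⁻¹) (cj (ι σ : Γ)⁻¹ V) := by
  have := hT.conj σ⁻¹
  rwa [map_inv] at this

theorem smul_fr_real (hW : Op W) {x : Γ} {S0 T : Finset ℚ} {V : Subgroup Γ} (hV : Op V)
    (hT : Supp T V) (σ : GQ) {α : GQ} (h1 : Fix S0 α)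
    (h2 : ∀ w ∈ supp (cj x W), σ (α w) ∈ T → w ∈ S0) :
    ((ι σ : Γ) • fr hW x S0).r V (ι (σ * α) * x) := by
  have := (fr hW x S0).r_smul (fr_real hW (op_cj _ hV) (supp_pull (Γ := Γ) hT σ) (α := α) ⟨h1, by
    intro w hw hw'
    obtain ⟨z, hz, e⟩ := Finset.mem_image.1 hw'
    apply h2 w hw
    rw [← e, app_inv]; exact hz⟩) (ι σ)
  rwa [cj_cj_inv, ← mul_assoc, ← map_mul] at this

theorem avoid' (S0 S T : Finset ℚ) (σ : GQ) :
    ∃ α : GQ, Fix S0 α ∧ ∀ w ∈ S, σ (α w) ∈ T → w ∈ S0 := by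
  obtain ⟨α, h1, h2⟩ := avoid S0 S (T.image ⇑σ⁻¹)
  exact ⟨α, h1, fun w hw hw' => h2 w hw (Finset.mem_image.2 ⟨_, hw', inv_app _ _⟩)⟩

theorem fr_smul (hW : Op W) (x : Γ) (S0 : Finset ℚ) (σ : GQ) :
    (ι σ : Γ) • fr hW x S0 = fr hW (ι σ * x) (S0.image σ) := by
  refine GT.ext' (fun V hV => ?_)
  obtain ⟨α, h1, h2⟩ := avoid' S0 (supp (cj x W)) (supp V) σ
  refine ⟨_, smul_fr_real hW hV (supp_spec hV) σ h1 h2, ?_⟩
  have := fr_real hW hV (supp_spec hV) (x := ι σ * x) (S0 := S0.image σ) (α := σ * α * σ⁻¹) ⟨by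
    intro y hy
    obtain ⟨z, hz, rfl⟩ := Finset.mem_image.1 hy
    rw [mul_app, mul_app, inv_app, h1 z hz], by
    intro y hy hy'
    rw [cj_mul, supp_cj (op_cj x hW)] at hy
    obtain ⟨z, hz, rfl⟩ := Finset.mem_image.1 hy
    rw [mul_app, mul_app, inv_app] at hy'
    exact Finset.mem_image_of_mem _ (h2 z hz hy')⟩
  convert this using 1
  rw [map_mul, map_mul, map_mul, map_inv]; group

theorem fr_fixed (hW : Op W) (x : Γ) (S0 : Finset ℚ) : Supp S0 (stab (fr hW x S0)) := by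
  intro σ hσ
  refine GT.ext' (fun V hV => ?_)
  obtain ⟨α, h1, h2⟩ := avoid' S0 (supp (cj x W)) (supp V) σ
  exact ⟨_, smul_fr_real hW hV (supp_spec hV) σ h1 h2,
    fr_real hW hV (supp_spec hV) ⟨hσ.mul h1, h2⟩⟩

theorem fr_right (hW : Op W) (x : Γ) (S0 : Finset ℚ) {w : Γ} (hw : w ∈ W) :
    fr hW (x * w) S0 = fr hW x S0 := by
  refine GT.ext' (fun V hV => ?_)
  obtain ⟨α, hα⟩ := exists_adm W x S0 (supp V)
  refine ⟨_, ?_, fr_real hW hV (supp_spec hV) hα⟩
  have h1 := fr_real hW hV (supp_spec hV) (x := x * w) (S0 := S0) (α := α)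
    ⟨hα.1, by rw [cj_mul_mem _ hw]; exact hα.2⟩
  refine (fr hW (x * w) S0).of_dc h1 ?_
  rw [← mul_assoc]
  exact (DC.right hw _).symm

/-- Limit of a family of types along an ultrafilter. -/
def lim (hW : Op W) {I : Type} (𝒰 : Ultrafilter I) (p : I → GT W) : GT W where
  r V y := ∀ᶠ i in (𝒰 : Filter I), (p i).r V y
  opn h := by
    obtain ⟨i, hi⟩ := h.exists
    exact (p i).opn hi
  ex := by
    intro V hV
    obtain ⟨R, hR⟩ := finDC hV hW
    have : ∀ᶠ i in (𝒰 : Filter I), ∃ r ∈ (R : Set Γ), (p i).r V r := by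
      refine Eventually.of_forall (fun i => ?_)
      obtain ⟨x, hx⟩ := (p i).ex hV
      obtain ⟨r, hr, h⟩ := hR x
      exact ⟨r, hr, (p i).of_dc hx h.symm⟩
    obtain ⟨r, -, hr⟩ := (Ultrafilter.eventually_exists_mem_iff R.finite_toSet).1 this
    exact ⟨r, hr⟩
  iff := by
    intro V x y hx
    constructor
    · intro hy
      obtain ⟨i, h1, h2⟩ := (hx.and hy).exists
      exact (p i).dc h1 h2
    · intro h
      exact hx.mono (fun i hi => (p i).of_dc hi h)
  mono := fun hVV h => h.mono (fun i hi => (p i).mono hVV hi)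

theorem lim_smul (hW : Op W) {I : Type} (𝒰 : Ultrafilter I) (p : I → GT W) (g : Γ) :
    g • lim hW 𝒰 p = lim hW 𝒰 (fun i => g • p i) :=
  GT.ext' (fun V hV => by
    obtain ⟨x, hx⟩ := (g • lim hW 𝒰 p).ex hV
    exact ⟨x, hx, hx⟩)

theorem lim_fr (hW : Op W) {I : Type} (𝒰 : Ultrafilter I) (p : I → GT W) (x0 : Γ)
    (S0 : Finset ℚ) (h : ∀ᶠ i in (𝒰 : Filter I), ∃ α, p i = (ι α : Γ) • fr hW x0 S0) :
    ∃ S1 ⊆ S0, ∃ β, lim hW 𝒰 p = (ι β : Γ) • fr hW x0 S1 ∧
      (S1 = S0 → ∀ᶠ i in (𝒰 : Filter I), p i = lim hW 𝒰 p) := by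
  classical
  let α : I → GQ := fun i => if hi : ∃ α, p i = (ι α : Γ) • fr hW x0 S0 then hi.choose else 1
  have hα : ∀ᶠ i in (𝒰 : Filter I), p i = (ι (α i) : Γ) • fr hW x0 S0 := h.mono (fun i hi => by
    have : α i = hi.choose := dif_pos hi
    rw [this]; exact hi.choose_spec)
  let S1 := S0.filter (fun w => ∃ c, ∀ᶠ i in (𝒰 : Filter I), α i w = c)
  let c : ℚ → ℚ := fun w => if hw : ∃ c, ∀ᶠ i in (𝒰 : Filter I), α i w = c then hw.choose else 0
  have hc : ∀ᶠ i in (𝒰 : Filter I), ∀ w ∈ S1, α i w = c w := by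
    rw [eventually_all_finset]
    intro w hw
    have hw' := (Finset.mem_filter.1 hw).2
    have : c w = hw'.choose := dif_pos hw'
    rw [this]; exact hw'.choose_spec
  obtain ⟨i0, hi0⟩ := hc.exists
  have hfix : ∀ i, (∀ w ∈ S1, α i w = c w) → Fix S1 ((α i0)⁻¹ * α i) := by
    intro i hi w hw
    rw [mul_app, hi w hw, ← hi0 w hw, inv_app]
  have hlim : lim hW 𝒰 p = (ι (α i0) : Γ) • fr hW x0 S1 := by
    refine GT.ext' (fun V hV => ?_)
    obtain ⟨y, hy⟩ := (lim hW 𝒰 p).ex hV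
    refine ⟨y, hy, ?_⟩
    have hesc : ∀ᶠ i in (𝒰 : Filter I), ∀ w ∈ S0, α i w ∈ supp V → w ∈ S1 := by
      rw [eventually_all_finset]
      intro w hw
      by_cases hw1 : w ∈ S1
      · exact Eventually.of_forall (fun i _ => hw1)
      · have : ¬ ∀ᶠ i in (𝒰 : Filter I), ∃ q ∈ ((supp V : Finset ℚ) : Set ℚ), α i w = q := by
          intro hcon
          obtain ⟨q, -, hq⟩ :=
            (Ultrafilter.eventually_exists_mem_iff (supp V).finite_toSet).1 hcon
          exact hw1 (Finset.mem_filter.2 ⟨hw, q, hq⟩)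
        exact (Ultrafilter.eventually_not.2 this).mono
          (fun i hi hq => absurd ⟨_, hq, rfl⟩ hi)
    obtain ⟨i, ⟨⟨h1, h2⟩, h3⟩, h4⟩ := (((hα.and hc).and hesc).and hy).exists
    obtain ⟨γ, g1, g2⟩ := avoid' S0 (supp (cj x0 W)) (supp V) (α i)
    have r1 := smul_fr_real hW hV (supp_spec hV) (α i) g1 g2
    rw [← h1] at r1
    have r2 := smul_fr_real hW hV (supp_spec hV) (α i0) (x := x0) (S0 := S1)
      (α := (α i0)⁻¹ * α i * γ)
      ((hfix i h2).mul (g1.mono (Finset.filter_subset _ _))) (by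
        intro w hw hw'
        rw [mul_app, mul_app, app_inv] at hw'
        have hw0 := g2 w hw hw'
        rw [g1 w hw0] at hw'
        exact h3 w hw0 hw')
    have e : α i0 * ((α i0)⁻¹ * α i * γ) = α i * γ := by group
    rw [e] at r2
    exact GT.of_dc _ r2 ((p i).dc r1 h4)
  refine ⟨S1, Finset.filter_subset _ _, α i0, hlim, fun hS => ?_⟩
  refine (hα.and hc).mono (fun i hi => ?_)
  rw [hlim, hi.1, hS]
  have := mem_stab.1 (fr_fixed hW x0 S0 _ (hS ▸ hfix i hi.2))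
  rw [map_mul, map_inv, mul_smul, inv_smul_eq_iff] at this
  exact this

/-- `p` is represented with at most `k` old points. -/
def Rep (hW : Op W) (R : Finset Γ) (k : ℕ) (p : GT W) : Prop :=
  ∃ x0 ∈ R, ∃ S0 ⊆ supp (cj x0 W), S0.card ≤ k ∧ ∃ α, p = (ι α : Γ) • fr hW x0 S0

theorem rep_lim (hW : Op W) (R : Finset Γ) (k : ℕ) {I : Type} (𝒰 : Ultrafilter I)
    (p : I → GT W) (h : ∀ᶠ i in (𝒰 : Filter I), Rep hW R k (p i)) :
    Rep hW R k (lim hW 𝒰 p) ∧ ((¬ ∀ᶠ i in (𝒰 : Filter I), p i = lim hW 𝒰 p) →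
      ∃ k' < k, Rep hW R k' (lim hW 𝒰 p)) := by
  have h' : ∀ᶠ i in (𝒰 : Filter I), ∃ x0 ∈ (R : Set Γ), ∃ S0 ⊆ supp (cj x0 W), S0.card ≤ k ∧
      ∃ α, p i = (ι α : Γ) • fr hW x0 S0 := h
  obtain ⟨x0, hx0, h1⟩ := (Ultrafilter.eventually_exists_mem_iff R.finite_toSet).1 h'
  have h2 : ∀ᶠ i in (𝒰 : Filter I), ∃ S0 ∈ (((supp (cj x0 W)).powerset : Finset _) : Set _),
      S0.card ≤ k ∧ ∃ α, p i = (ι α : Γ) • fr hW x0 S0 := h1.mono (fun i hi => by
    obtain ⟨S0, a, b⟩ := hi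
    exact ⟨S0, by simpa using a, b⟩)
  obtain ⟨S0, hS0, h3⟩ := (Ultrafilter.eventually_exists_mem_iff (Finset.finite_toSet _)).1 h2
  have hS0' : S0 ⊆ supp (cj x0 W) := by simpa using hS0
  have hk : S0.card ≤ k := h3.exists.choose_spec.1
  obtain ⟨S1, hS1, β, e, hE⟩ := lim_fr hW 𝒰 p x0 S0 (h3.mono (fun i hi => hi.2))
  refine ⟨⟨x0, hx0, S1, hS1.trans hS0', (Finset.card_le_card hS1).trans hk, β, e⟩, fun hn => ?_⟩
  have : S1 ⊂ S0 := ⟨hS1, fun h' => hn (hE (Finset.Subset.antisymm hS1 h'))⟩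
  exact ⟨S1.card, lt_of_lt_of_le (Finset.card_lt_card this) hk, x0, hx0, S1, hS1.trans hS0',
    le_rfl, β, e⟩

theorem exists_open_ultra : ∃ 𝒰 : Ultrafilter {V : Subgroup Γ // Op V},
    ∀ V, Op V → ∀ᶠ V' in (𝒰 : Filter {V : Subgroup Γ // Op V}), V'.1 ≤ V := by
  obtain ⟨𝒰, h⟩ := Ultrafilter.exists_ultrafilter_of_finite_inter_nonempty
    (Set.range (fun V : {V : Subgroup Γ // Op V} => {V' : {V : Subgroup Γ // Op V} | V'.1 ≤ V.1}))
    (by
      intro T hT
      have : ∀ s ∈ T, ∃ V : {V : Subgroup Γ // Op V},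
          {V' : {V : Subgroup Γ // Op V} | V'.1 ≤ V.1} = s := fun s hs => hT hs
      have hne : Nonempty {V : Subgroup Γ // Op V} := ⟨⟨⊤, op_top⟩⟩
      choose! f hf using this
      refine ⟨⟨⨅ s ∈ T, (f s).1, op_of_forall T (fun s => (f s).1) (fun s _ => (f s).2) _
        (fun x hx => by simpa [Subgroup.mem_iInf] using hx)⟩, ?_⟩
      intro s hs
      rw [← hf s hs]
      exact biInf_le (fun s => (f s).1) hs)
  exact ⟨𝒰, fun V hV => h ⟨⟨V, hV⟩, rfl⟩⟩

theorem exists_rep (hW : Op W) : ∃ R k, ∀ p : GT W, Rep hW R k p := by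
  classical
  obtain ⟨R, hR⟩ := finG hW
  refine ⟨R, R.sup (fun x0 => (supp (cj x0 W)).card), fun p => ?_⟩
  obtain ⟨𝒰, h𝒰⟩ := exists_open_ultra (Γ := Γ)
  choose x hx using fun V : {V : Subgroup Γ // Op V} => p.ex V.2
  have hp : p = lim hW 𝒰 (fun V => fr hW (x V) (supp (cj (x V) W))) := by
    refine GT.ext' (fun V hV => ?_)
    obtain ⟨y, hy⟩ := p.ex hV
    refine ⟨y, hy, (h𝒰 V hV).mono (fun V' hV' => ?_)⟩
    exact GT.of_dc _ (fr_self hW hV (supp_spec hV) (fun w hw _ => hw))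
      (p.dc (p.mono hV' (hx V')) hy)
  rw [hp]
  refine (rep_lim hW R _ 𝒰 _ (Eventually.of_forall (fun V => ?_))).1
  obtain ⟨α, x0, hx0, w, hw, e⟩ := hR (x V)
  refine ⟨x0, hx0, _, Finset.Subset.refl _,
    Finset.le_sup (f := fun x0 => (supp (cj x0 W)).card) hx0, α, ?_⟩
  rw [e, fr_right hW _ _ hw, cj_mul_mem _ hw, fr_smul, cj_mul, supp_cj (op_cj _ hW)]

theorem op_stab (hW : Op W) (p : GT W) : Op (stab p) := by
  by_contra hcon
  obtain ⟨R, k, hR⟩ := exists_rep hW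
  obtain ⟨𝒰, h𝒰⟩ := exists_open_ultra (Γ := Γ)
  have : ∀ V : {V : Subgroup Γ // Op V}, ∃ g ∈ V.1, g • p ≠ p := by
    intro V
    by_contra h
    push Not at h
    exact hcon (op_mono V.2 h)
  choose γ hγ hγ' using this
  have hp : lim hW 𝒰 (fun V => γ V • p) = p := by
    refine GT.ext' (fun V hV => ?_)
    obtain ⟨y, hy⟩ := p.ex hV
    refine ⟨y, (h𝒰 V hV).mono (fun V' hV' => ?_), hy⟩
    have hm : γ V' ∈ V := hV' (hγ V')
    have := p.r_smul hy (γ V')
    rw [cj_of_mem hm] at this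
    exact GT.of_dc _ this (DC.left hm _).symm
  have key : ∀ k, ¬ ∀ g : Γ, Rep hW R k (g • p) := by
    intro k
    induction k using Nat.strong_induction_on with
    | _ k ih =>
      intro hk
      have step : ∀ g : Γ, ∃ k' < k, Rep hW R k' (g • p) := by
        intro g
        have e : lim hW 𝒰 (fun V => g • γ V • p) = g • p := by rw [← lim_smul, hp]
        have := (rep_lim hW R k 𝒰 (fun V => g • γ V • p)
          (Eventually.of_forall (fun V => by rw [← mul_smul]; exact hk _))).2 (by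
          intro h
          obtain ⟨V, hV⟩ := h.exists
          rw [e] at hV
          exact hγ' V (MulAction.injective g hV))
        rwa [e] at this
      obtain ⟨k0, hk0, -⟩ := step 1
      refine ih (k - 1) (by omega) (fun g => ?_)
      obtain ⟨k', hk', x0, h1, S0, h2, h3, h4⟩ := step g
      exact ⟨x0, h1, S0, h2, by omega, h4⟩
  exact key k (fun g => hR _)

theorem alg_of_finite_orbit {p : GT W} {U : Subgroup Γ} {Y : Set (GT W)} (hY : Y.Finite)
    (h : ∀ u ∈ U, u • p ∈ Y) : Alg (stab p) U := by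
  classical
  have : Finite Y := hY
  refine Alg.of_cover (κ := Option Y)
    (fun u => if hu : u ∈ U then some ⟨u • p, h u hu⟩ else none) (fun u hu u' hu' e => ?_)
  simp only [dif_pos hu, dif_pos hu', Option.some.injEq, Subtype.mk.injEq] at e
  rw [mem_stab, mul_smul, ← e, inv_smul_smul]

theorem exists_alg (hW : Op W) {U : Subgroup Γ} (hU : Op U) (x : Γ) :
    ∃ p : GT W, Alg (stab p) U ∧ p.r U x := by
  obtain ⟨R, k, hR⟩ := exists_rep hW
  have key : ∀ k, ∀ Y : Set (GT W), Y.Nonempty → (∀ p ∈ Y, p.r U x) →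
      (∀ u ∈ U, ∀ p ∈ Y, u • p ∈ Y) → (∀ p ∈ Y, Rep hW R k p) →
      ∃ p : GT W, Alg (stab p) U ∧ p.r U x := by
    intro k
    induction k using Nat.strong_induction_on with
    | _ k ih =>
      intro Y hne h1 h2 h3
      by_cases hfin : Y.Finite
      · obtain ⟨p, hp⟩ := hne
        exact ⟨p, alg_of_finite_orbit hfin (fun u hu => h2 u hu p hp), h1 p hp⟩
      · have : Infinite Y := Set.infinite_coe_iff.2 hfin
        let Y' : Set (GT W) := {q | ∃ f : Y → GT W, (∀ i, f i ∈ Y) ∧ Function.Injective f ∧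
          q = lim hW (hyperfilter Y) f}
        have step : ∀ q ∈ Y', ∃ k' < k, Rep hW R k' q := by
          rintro q ⟨f, hf, hinj, rfl⟩
          refine (rep_lim hW R k _ f (Eventually.of_forall (fun i => h3 _ (hf i)))).2 ?_
          intro h
          refine notMem_hyperfilter_of_finite (s := {i | f i = lim hW (hyperfilter Y) f}) ?_ h
          exact Set.Subsingleton.finite (fun i hi j hj => hinj (hi.trans hj.symm))
        have hne' : Y'.Nonempty := ⟨_, Subtype.val, fun i => i.2, Subtype.val_injective, rfl⟩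
        obtain ⟨k0, hk0, -⟩ := step _ hne'.choose_spec
        refine ih (k - 1) (by omega) Y' hne' ?_ ?_ ?_
        · rintro q ⟨f, hf, -, rfl⟩
          exact Eventually.of_forall (fun i => h1 _ (hf i))
        · rintro u hu q ⟨f, hf, hinj, rfl⟩
          exact ⟨fun i => u • f i, fun i => h2 u hu _ (hf i),
            fun i j e => hinj (MulAction.injective u e), lim_smul _ _ _ _⟩
        · intro q hq
          obtain ⟨k', hk', x0, h1, S0, h2, h3, h4⟩ := step q hq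
          exact ⟨x0, h1, S0, h2, by omega, h4⟩
  refine key k {p | p.r U x} ⟨fr hW x (supp (cj x W)),
    fr_self hW hU (supp_spec hU) (fun w hw _ => hw)⟩ (fun p hp => hp) ?_ (fun p _ => hR p)
  intro u hu p hp
  have := p.r_smul hp u
  rw [cj_of_mem hu] at this
  exact (u • p).of_dc this (DC.left hu _).symm

theorem finite_supported (hW : Op W) (T : Finset ℚ) : {p : GT W | Supp T (stab p)}.Finite := by
  classical
  obtain ⟨R, k, hR⟩ := exists_rep hW
  have one : ∀ p0 : GT W, {p : GT W | Supp T (stab p) ∧ ∃ α, p = (ι α : Γ) • p0}.Finite := by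
    intro p0
    have hp0 := op_stab hW p0
    let F : (supp (stab p0) → T) → GT W := fun f =>
      if h : ∃ α : GQ, ∀ w : supp (stab p0), α w = f w then (ι h.choose : Γ) • p0 else p0
    refine (Set.finite_range F).subset ?_
    rintro p ⟨hT, α, rfl⟩
    have hsub := supp_subset hT
    rw [stab_smul, supp_cj hp0] at hsub
    let f : supp (stab p0) → T := fun w => ⟨α w, hsub (Finset.mem_image_of_mem _ w.2)⟩
    have h : ∃ α' : GQ, ∀ w : supp (stab p0), α' w = f w := ⟨α, fun w => rfl⟩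
    refine ⟨f, ?_⟩
    have e : F f = (ι h.choose : Γ) • p0 := dif_pos h
    rw [e]
    have : ι (α⁻¹ * h.choose) ∈ stab p0 := supp_spec hp0 _ (fun w hw => by
      rw [mul_app, h.choose_spec ⟨w, hw⟩]; exact inv_app _ _)
    rw [mem_stab, map_mul, map_inv, mul_smul, inv_smul_eq_iff] at this
    exact this
  refine (Set.Finite.biUnion R.finite_toSet (fun x0 _ =>
    Set.Finite.biUnion (supp (cj x0 W)).powerset.finite_toSet
      (fun S0 _ => one (fr hW x0 S0)))).subset ?_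
  intro p hp
  obtain ⟨x0, h1, S0, h2, -, h4⟩ := hR p
  simp only [Set.mem_iUnion]
  exact ⟨x0, h1, S0, by simpa using h2, hp, h4⟩

/-- `x` is a generic realisation of `p`. -/
def Gen (hW : Op W) (p : GT W) (x : Γ) : Prop :=
  p = fr hW x (supp (cj x W) ∩ supp (stab p))

theorem exists_gen (hW : Op W) (p : GT W) (T : Finset ℚ) :
    ∃ x, Gen hW p x ∧ ∀ w ∈ supp (cj x W), w ∈ T → w ∈ supp (stab p) := by
  obtain ⟨R, k, hR⟩ := exists_rep hW
  obtain ⟨x0, -, S0', -, -, α0, e⟩ := hR p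
  rw [fr_smul] at e
  obtain ⟨x, S0, e⟩ : ∃ x S0, p = fr hW x S0 := ⟨_, _, e⟩
  have hp := op_stab hW p
  have hsub : supp (stab p) ⊆ S0 := supp_subset (by rw [e]; exact fr_fixed hW x S0)
  have g0 : Gen hW p x := by
    refine GT.ext' (fun V hV => ?_)
    obtain ⟨σ, s1, s2⟩ := avoid (supp (stab p)) S0 (supp V)
    obtain ⟨β, b1, b2⟩ := avoid' S0 (supp (cj x W)) (supp V) σ
    have r1 := smul_fr_real hW hV (supp_spec hV) σ b1 b2
    rw [← e, mem_stab.1 (supp_spec hp σ s1)] at r1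
    refine ⟨_, r1, fr_real hW hV (supp_spec hV)
      ⟨(s1.mul (b1.mono hsub)).mono Finset.inter_subset_right, fun w hw hw' => ?_⟩⟩
    rw [mul_app] at hw'
    have h0 := b2 w hw hw'
    rw [b1 w h0] at hw'
    exact Finset.mem_inter.2 ⟨hw, s2 w h0 hw'⟩
  obtain ⟨β, b1, b2⟩ := avoid (supp (stab p)) (supp (cj x W)) T
  refine ⟨ι β * x, ?_, ?_⟩
  · have h1 : (ι β : Γ) • p = p := supp_spec hp β b1
    have h2 : (supp (cj x W) ∩ supp (stab p)).image β =
        supp (cj (ι β * x) W) ∩ supp (stab p) := by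
      rw [Finset.image_inter _ _ β.injective, cj_mul, supp_cj (op_cj x hW), ← supp_cj hp,
        ← stab_smul, h1]
    unfold Gen
    rw [← h2, ← fr_smul, ← g0, h1]
  · intro w hw hwT
    rw [cj_mul, supp_cj (op_cj x hW)] at hw
    obtain ⟨z, hz, rfl⟩ := Finset.mem_image.1 hw
    have := b2 z hz hwT
    rwa [b1 z this]

theorem Gen.real {hW : Op W} {p : GT W} {x : Γ} (h : Gen hW p x) {V : Subgroup Γ} (hV : Op V)
    {T : Finset ℚ} (hT : Supp T V) (h' : ∀ w ∈ supp (cj x W), w ∈ T → w ∈ supp (stab p)) :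
    p.r V x := by
  rw [h]
  exact fr_self hW hV hT (fun w hw hwT => Finset.mem_inter.2 ⟨hw, h' w hw hwT⟩)

theorem Gen.supp_le {hW : Op W} {p : GT W} {x : Γ} (h : Gen hW p x) :
    supp (stab p) ⊆ supp (cj x W) := by
  have := fr_fixed hW x (supp (cj x W) ∩ supp (stab p))
  rw [← h] at this
  exact (supp_subset this).trans Finset.inter_subset_left

theorem stab_of_realized (hW : Op W) {p : GT W} {x : Γ} (h : ∀ V, Op V → p.r V x) :
    stab p = cj x W := by
  ext g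
  constructor
  · intro hg
    have hV := op_cj x hW
    have h1 := p.r_of_stab (h _ (op_cj g⁻¹ hV)) hg
    rw [cj_cj_inv] at h1
    obtain ⟨v, hv, w, hw, e⟩ := p.dc (h _ hV) h1
    rw [mem_cj] at hv ⊢
    have : x⁻¹ * g * x = x⁻¹ * v * x * w := by rw [mul_assoc, e]; group
    rw [this]; exact W.mul_mem hv hw
  · intro hg
    refine GT.ext' (fun V hV => ⟨x, ?_, h V hV⟩)
    have h1 := p.r_smul (h _ (op_cj g⁻¹ hV)) g
    rw [cj_cj_inv] at h1
    exact GT.of_dc _ h1 (DC.of_mem_cj hg).symm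

theorem Gen.realized {hW : Op W} {p : GT W} {x : Γ} (h : Gen hW p x)
    (h' : supp (cj x W) ⊆ supp (stab p)) (V : Subgroup Γ) (hV : Op V) : p.r V x :=
  h.real hV (supp_spec hV) (fun _ hw _ => h' hw)

theorem tensor (hW : Op W) {V : Subgroup Γ} (hV : Op V) (p : GT W) (q : GT V) {N : Subgroup Γ}
    (hN : Op N) : ∃ x y, p.r (N ⊓ cj y V) x ∧ q.r (N ⊓ cj x W) y := by
  obtain ⟨x, hx, hx'⟩ := exists_gen hW p (supp N ∪ supp (stab q))
  obtain ⟨y, hy, hy'⟩ := exists_gen hV q (supp N ∪ supp (cj x W))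
  refine ⟨x, y, hx.real (op_inf hN (op_cj y hV)) (T := supp N ∪ supp (cj y V))
    (((supp_spec hN).mono Finset.subset_union_left le_rfl).inf
      ((supp_spec (op_cj y hV)).mono Finset.subset_union_right le_rfl)) ?_,
    hy.real (op_inf hN (op_cj x hW))
    (((supp_spec hN).mono Finset.subset_union_left le_rfl).inf
      ((supp_spec (op_cj x hW)).mono Finset.subset_union_right le_rfl)) hy'⟩
  intro w hw hwT
  rcases Finset.mem_union.1 hwT with h | h
  · exact hx' w hw (Finset.mem_union_left _ h)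
  · exact hx' w hw (Finset.mem_union_right _ (hy' w h (Finset.mem_union_right _ hw)))

theorem supp_bounded (hW : Op W) : ∃ D, ∀ g, (supp (cj g W)).card ≤ D := by
  obtain ⟨R, hR⟩ := finG hW
  refine ⟨R.sup (fun x0 => (supp (cj x0 W)).card), fun g => ?_⟩
  obtain ⟨α, x0, hx0, w, hw, rfl⟩ := hR g
  rw [cj_mul_mem _ hw, cj_mul, supp_cj (op_cj _ hW)]
  exact Finset.card_image_le.trans (Finset.le_sup (f := fun x0 => (supp (cj x0 W)).card) hx0)

end Pool.Agent.Lib.MP_905f9a_lc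
end
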