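import Mathlib

namespace Pool.Agent.Lib.MP_905f9a_lc

open FirstOrder FirstOrder.Language

universe u v u' v'

/-- A single binary relation symbol. -/
inductive LtSym : ℕ → Type
  | lt : LtSym 2

/-- The language with one binary relation symbol and no function symbols. -/
def ltLang : FirstOrder.Language.{0, 0} := ⟨fun _ => Empty, LtSym⟩

/-- The structure `(ℚ; <)`. -/
instance ratLt : ltLang.Structure ℚ where
  funMap f := Empty.elim f
  RelMap
    | LtSym.lt => fun x => x 0 < x 1

/-- The structure `(ℕ; =)` with empty signature. -/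
instance natEq : FirstOrder.Language.empty.Structure ℕ := FirstOrder.Language.emptyStructure

/-- The tuples of codes (elements of `D`, written one after the other) whose
decoded tuple lies in `S`. -/
def pull {M A : Type} {d n : ℕ} {D : Set (Fin d → M)} (f : D → A) (S : Set (Fin n → A)) :
    Set (Fin n × Fin d → M) :=
  {w | ∃ x : Fin n → D, (∀ j i, w (j, i) = (x j).1 i) ∧ (fun j => f (x j)) ∈ S}

/-- The relational `L`-structure `A` has a first-order interpretation in the `L₀`-structure `M`
whose defining formulas use only parameters from `P`. -/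
def Interp (L₀ : FirstOrder.Language.{u', v'}) (M : Type) [L₀.Structure M] (P : Set M)
    (L : FirstOrder.Language.{u, v}) (A : Type) [L.Structure A] : Prop :=
  ∃ (d : ℕ) (D : Set (Fin d → M)) (f : D → A), Function.Surjective f ∧ P.Definable L₀ D ∧
    P.Definable L₀ (pull f {a : Fin 2 → A | a 0 = a 1}) ∧
    ∀ (n : ℕ) (R : L.Relations n), P.Definable L₀ (pull f {a | Structure.RelMap R a})

/-- The theory of `A` is stable: no formula has the order property. -/
def IsStable (L : FirstOrder.Language.{u, v}) (A : Type) [L.Structure A] : Prop :=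
  ∀ (m n : ℕ) (φ : L.Formula (Fin m ⊕ Fin n)), ∃ N : ℕ,
    ¬ ∃ (a : Fin N → Fin m → A) (b : Fin N → Fin n → A),
      ∀ i j, φ.Realize (Sum.elim (a i) (b j)) ↔ i ≤ j

end Pool.Agent.Lib.MP_905f9a_lc
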