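import Pool.Agent.Lib.MP_905f9a_lc.Types
import Pool.Agent.Lib.MP_905f9a_lc.Homog
import Pool.Agent.Lib.MP_905f9a_lc.Defs

-- part Pool.Agent.Lib.MP_905f9a_lc.Fork
section

namespace Pool.Agent.Lib.MP_905f9a_lc

open Setting

variable {Γ : Type} [Group Γ] [Setting Γ] {W : Subgroup Γ}

theorem inv_fin (p : GT W) {U N : Subgroup Γ} (hU : U ≤ stab p) (hN : Op N) (hNU : N ≤ U)
    (hn : ∀ u ∈ U, cj u N = N) {x : Γ} (h : p.r U x) : p.r N x := by
  obtain ⟨x0, h0⟩ := p.ex hN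
  obtain ⟨u, hu, w, hw, rfl⟩ := p.dc (p.mono hNU h0) h
  have := p.r_of_stab h0 (hU hu)
  rw [hn u hu] at this
  exact p.of_dc this (DC.right hw _)

/-- Moving a type inside `M` so that it is realised over a normal subgroup `N`. -/
theorem refine_norm (p : GT W) {M N : Subgroup Γ} (hN : Op N) (hNM : N ≤ M)
    (hn : ∀ u ∈ M, cj u N = N) {x : Γ} (h : p.r M x) : ∃ m ∈ M, (m • p).r N x := by
  obtain ⟨x0, h0⟩ := p.ex hN
  obtain ⟨u, hu, w, hw, rfl⟩ := p.dc (p.mono hNM h0) h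
  have := p.r_smul h0 u
  rw [hn u hu] at this
  exact ⟨u, hu, (u • p).of_dc this (DC.right hw _)⟩

theorem uniq0 (hW : Op W) {p p' : GT W} {U : Subgroup Γ} (h : U ≤ stab p) (h' : U ≤ stab p')
    {x : Γ} (hx : p.r U x) (hx' : p'.r U x) : p = p' := by
  have hU := p.opn hx
  refine GT.ext_le hU (fun V hV hVU => ?_)
  obtain ⟨q, hq, hq1⟩ := exists_alg hV hU 1
  obtain ⟨N, hN, hNU, -, hn, hNq⟩ := exists_core (op_stab hV q) hU hq
  have hNq1 : N ≤ stab q := by simpa [cj_one] using hNq 1 U.one_mem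
  obtain ⟨x1, y1, a1, b1⟩ := tensor hW hV p q hN
  obtain ⟨x2, y2, a2, b2⟩ := tensor hW hV p' q hN
  have c1 : p'.r N x1 := inv_fin p' h' hN hNU hn
    (p'.of_dc hx' (p.dc hx (p.mono (inf_le_left.trans hNU) a1)))
  obtain ⟨n, hnN, w, hw, e⟩ := p'.dc (p'.mono inf_le_left a2) c1
  have a3 := p'.r_of_stab a2 (h' (hNU hnN))
  have b3 := q.r_of_stab b2 (hNq1 hnN)
  rw [cj_inf, cj_of_mem hnN, ← cj_mul] at a3 b3
  rw [← cj_mul_mem _ hw, ← e] at b3
  have a4 : p'.r (N ⊓ cj (n * y2) V) x1 := by rw [e]; exact p'.of_dc a3 (DC.right hw _)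
  obtain ⟨m, hm, v, hv, e2⟩ := q.dc b3 b1
  have a5 := p'.r_of_stab a4 (h' (hNU hm.1))
  rw [cj_inf, cj_of_mem hm.1, ← cj_mul, ← cj_mul_mem _ hv, ← e2] at a5
  have a6 : p'.r (N ⊓ cj y1 V) x1 := p'.of_dc a5 (DC.of_mem_cj hm.2).symm
  obtain ⟨u, hu, v', hv', e3⟩ := q.dc (q.mono (inf_le_left.trans hNU) b1) hq1
  have e4 : cj u (N ⊓ cj y1 V) = N ⊓ V := by
    rw [cj_inf, hn u hu, ← cj_mul, ← cj_mul_mem _ hv', ← e3, cj_one]
  have f1 := p.r_of_stab a1 (h hu)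
  have f2 := p'.r_of_stab a6 (h' hu)
  rw [e4] at f1 f2
  exact ⟨_, p.mono inf_le_right f1, p'.mono inf_le_right f2⟩

theorem uniq (hW : Op W) {p p' : GT W} {U : Subgroup Γ} (h : Alg (stab p) U)
    (h' : Alg (stab p') U) {x : Γ} (hx : p.r U x) (hx' : p'.r U x) : ∃ u ∈ U, p' = u • p := by
  have hU := p.opn hx
  obtain ⟨N, hN, hNU, -, hn, hNq⟩ :=
    exists_core (op_inf (op_stab hW p) (op_stab hW p')) hU (h.inf h')
  obtain ⟨y, hy⟩ := p'.ex hN
  obtain ⟨m, hm, h1⟩ := refine_norm p hN hNU hn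
    (p.of_dc hx (p'.dc hx' (p'.mono hNU hy)))
  refine ⟨m, hm, (uniq0 hW ?_ ?_ h1 hy).symm⟩
  · rw [stab_smul]
    exact (hNq m hm).trans (cj_mono _ inf_le_left)
  · have := hNq 1 U.one_mem
    rw [cj_one] at this
    exact this.trans inf_le_right

theorem uniq_alg (hW : Op W) {p p' : GT W} {U U' : Subgroup Γ} (h : Alg (stab p) U')
    (hUU : U ≤ U') (h' : Alg (stab p') U) {x : Γ} (hx : p.r U x) (hx' : p'.r U x) :
    Alg (stab p') U' := by
  obtain ⟨u, hu, rfl⟩ := uniq hW (h.mono le_rfl hUU) h' hx hx'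
  rw [stab_smul]
  exact h.conj_mem (hUU hu)

/-- Independence of `x W` from `V` over `U`. -/
def IndX (W : Subgroup Γ) (x : Γ) (U V : Subgroup Γ) : Prop :=
  ∃ p : GT W, Alg (stab p) U ∧ p.r (U ⊓ V) x

/-- Independence of `W` from `V` over `U`. -/
def Ind (W U V : Subgroup Γ) : Prop := IndX W 1 U V

/-- Translating a type on the right. -/
def GT.shift (p : GT W) (x : Γ) : GT (cj x W) where
  r V y := p.r V (y * x)
  opn h := p.opn h
  ex hV := by
    obtain ⟨y, hy⟩ := p.ex hV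
    exact ⟨y * x⁻¹, by simpa using hy⟩
  iff := by
    intro V y z h
    rw [p.iff h]
    constructor
    · rintro ⟨v, hv, w, hw, e⟩
      refine ⟨v, hv, x * w * x⁻¹, conj_mem_cj x hw, ?_⟩
      rw [← mul_inv_cancel_right z x, e]; group
    · rintro ⟨v, hv, w, hw, e⟩
      exact ⟨v, hv, x⁻¹ * w * x, hw, by rw [e]; group⟩
  mono h h' := p.mono h h'

theorem stab_le_shift (p : GT W) (x : Γ) : stab p ≤ stab (p.shift x) := by
  intro g hg
  refine GT.ext' (fun V hV => ?_)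
  obtain ⟨y, hy⟩ := (g • p.shift x).ex hV
  refine ⟨y, hy, ?_⟩
  have h1 : (g • p).r V (y * x) := by
    rw [smul_r, ← mul_assoc]; exact hy
  rwa [mem_stab.1 hg] at h1

theorem IndX.to_cj {x : Γ} {U V : Subgroup Γ} (h : IndX W x U V) : Ind (cj x W) U V := by
  obtain ⟨p, h1, h2⟩ := h
  exact ⟨p.shift x, h1.mono (stab_le_shift p x) le_rfl, by
    show p.r _ (1 * x); rwa [one_mul]⟩

theorem IndX.of_cj {x : Γ} {U V : Subgroup Γ} (h : Ind (cj x W) U V) : IndX W x U V := by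
  obtain ⟨p, h1, h2⟩ := h
  have key : ∀ W' : Subgroup Γ, cj x⁻¹ (cj x W) = W' → IndX W' x U V := by
    rintro W' rfl
    exact ⟨p.shift x⁻¹, h1.mono (stab_le_shift p _) le_rfl, by
      show p.r _ (x * x⁻¹); rwa [mul_inv_cancel]⟩
  exact key W (cj_inv_cj x W)

theorem IndX.fin_right {x : Γ} {U V V' : Subgroup Γ} (h : IndX W x U V) (hV' : Op V')
    (ha : Alg V' (U ⊓ V)) : IndX W x U (V ⊓ V') := by
  obtain ⟨p, h1, h2⟩ := h
  obtain ⟨N, hN, hNU, -, hn, hNq⟩ := exists_core hV' (p.opn h2) ha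
  obtain ⟨m, hm, h3⟩ := refine_norm p hN hNU hn h2
  refine ⟨m • p, by rw [stab_smul]; exact h1.conj_mem hm.1, (m • p).mono ?_ h3⟩
  have := hNq 1 (Subgroup.one_mem _)
  rw [cj_one] at this
  rw [← inf_assoc]
  exact le_inf hNU this

theorem Ind.fin_right {U V V' : Subgroup Γ} (h : Ind W U V) (hV' : Op V')
    (ha : Alg V' (U ⊓ V)) : Ind W U (V ⊓ V') := IndX.fin_right h hV' ha

theorem Ind.mono {U V V' : Subgroup Γ} (h : Ind W U V) (hV : U ⊓ V ≤ V') : Ind W U V' := by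
  obtain ⟨p, h1, h2⟩ := h
  exact ⟨p, h1, p.mono (le_inf inf_le_left hV) h2⟩

theorem Ind.base {U U' V V' : Subgroup Γ} (h : Ind W U V) (hU : U' ≤ U) (hV : U ⊓ V ≤ U' ⊓ V') :
    Ind W U' V' := by
  obtain ⟨p, h1, h2⟩ := h
  exact ⟨p, h1.mono le_rfl hU, p.mono hV h2⟩

theorem Ind.trans (hW : Op W) {U U' V : Subgroup Γ} (h : Ind W U U') (h' : Ind W (U ⊓ U') V) :
    Ind W U (U' ⊓ V) := by
  obtain ⟨p, h1, h2⟩ := h
  obtain ⟨p', h1', h2'⟩ := h'
  exact ⟨p', uniq_alg hW h1 inf_le_left h1' h2 (p'.mono inf_le_left h2'), by rwa [← inf_assoc]⟩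

theorem Ind.symm (hW : Op W) {U V : Subgroup Γ} (hU : Op U) (hV : Op V) (h : Ind W U V) :
    Ind V U W := by
  obtain ⟨p, h1, h2⟩ := h
  obtain ⟨N, hN, hNU, hNa, hn, hNp⟩ := exists_core (op_stab hW p) hU h1
  obtain ⟨m, hm, h3⟩ := refine_norm p (N := N ⊓ V) (op_inf hN hV) (inf_le_inf_right _ hNU)
    (fun u hu => by rw [cj_inf, hn u hu.1, cj_of_mem hu.2]) h2
  have hNp1 : N ≤ stab (m • p) := by rw [stab_smul]; exact hNp m hm.1
  obtain ⟨q, hq, hq1⟩ := exists_alg hV hN 1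
  obtain ⟨x1, y1, a1, b1⟩ := tensor hW hV (m • p) q hN
  obtain ⟨n, hnN, v, hv, e⟩ := q.dc (q.mono inf_le_left b1) hq1
  have a2 := (m • p).r_of_stab a1 (hNp1 hnN)
  have b2 := q.r_smul b1 n
  rw [cj_inf, cj_of_mem hnN, ← cj_mul] at a2 b2
  rw [← cj_mul_mem _ hv, ← e, cj_one] at a2
  have b3 : (n • q).r (N ⊓ cj (n * x1) W) 1 := by rw [e]; exact (n • q).of_dc b2 (DC.right hv _)
  obtain ⟨m', hm', w, hw, e2⟩ := (m • p).dc a2 h3
  have b4 := (n • q).r_smul b3 m'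
  rw [cj_inf, cj_of_mem hm'.1, ← cj_mul, ← cj_mul_mem _ hw, ← e2, cj_one] at b4
  refine ⟨m' • n • q, ?_, (m' • n • q).mono (inf_le_inf_right _ hNU) ?_⟩
  · rw [stab_smul, stab_smul]
    exact ((hq.trans' hNa).conj_mem (hNU hnN)).conj_mem (hNU hm'.1)
  · refine (m' • n • q).of_dc b4 ?_
    have := (DC.right (V := N ⊓ W) hm'.2 1).symm
    simpa using this

theorem Ind.acl (hW : Op W) {U V : Subgroup Γ} (h : Ind W U V) (ha : Alg W (U ⊓ V)) :
    Alg W U := by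
  obtain ⟨p, h1, h2⟩ := h.fin_right hW ha
  have : ∀ V', Op V' → p.r V' 1 := by
    intro V' hV'
    obtain ⟨x0, h0⟩ := p.ex (op_inf hV' (p.opn h2))
    obtain ⟨v, hv, w, hw, e⟩ := p.dc h2 (p.mono inf_le_right h0)
    refine p.of_dc (p.mono inf_le_left h0) ?_
    have := (DC.right (V := V') (W.mul_mem hv.2.2 hw) 1).symm
    rw [e]; simpa using this
  rwa [stab_of_realized hW this, cj_one] at h1

theorem ind_self (hW : Op W) {U : Subgroup Γ} (hU : Op U) : Ind W U ⊤ := by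
  obtain ⟨p, h1, h2⟩ := exists_alg hW hU 1
  exact ⟨p, h1, by rwa [inf_top_eq]⟩

theorem exists_cb (hW : Op W) {V : Subgroup Γ} (hV : Op V) :
    ∃ p : GT W, Alg (stab p) V ∧ p.r (V ⊓ stab p) 1 := by
  obtain ⟨p, h1, h2⟩ := exists_alg hW hV 1
  obtain ⟨N, hN, hNU, -, hn, hNq⟩ := exists_core (op_stab hW p) hV h1
  obtain ⟨m, hm, h3⟩ := refine_norm p hN hNU hn h2
  refine ⟨m • p, by rw [stab_smul]; exact h1.conj_mem hm, (m • p).mono (le_inf hNU ?_) h3⟩
  rw [stab_smul]; exact hNq m hm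

theorem supp_inf {V V' : Subgroup Γ} (hV : Op V) (hV' : Op V') :
    Supp (supp V ∪ supp V') (V ⊓ V') :=
  ((supp_spec hV).mono Finset.subset_union_left le_rfl).inf
    ((supp_spec hV').mono Finset.subset_union_right le_rfl)

theorem one_based (hW : Op W) (p : GT W) (h : p.r (stab p) 1) : Alg (stab p) W := by
  have hP := op_stab hW p
  obtain ⟨q, hq1, hq2⟩ := exists_cb hP hW
  have hQ := op_stab hP q
  obtain ⟨c, hc1, hc2⟩ := exists_cb hQ hP
  have hC := op_stab hQ c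
  have i1 : Ind (stab p) (stab q) W := ⟨q, Alg.of_le le_rfl, by rwa [inf_comm]⟩
  have i2 : Ind (stab q) (stab c) (stab p) := ⟨c, Alg.of_le le_rfl, by rwa [inf_comm]⟩
  have i3 : Ind W (stab c ⊓ stab q) (stab p) :=
    ((i1.symm hP hQ hW).fin_right hC (hc1.mono le_rfl inf_le_right)).base inf_le_right
      (fun x hx => ⟨⟨hx.2.2, hx.1⟩, hx.2.1⟩)
  have i4 : Ind W (stab c) (stab p) :=
    (((i2.symm hQ hC hP).trans hP (i3.symm hW (op_inf hC hQ) hP)).mono
      (fun x hx => hx.2.2)).symm hP hC hW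
  have hPC : Alg (stab p) (stab c) := by
    obtain ⟨p', a1, a2⟩ := i4
    obtain ⟨N, hN, hNU, -, hn, hNq⟩ := exists_core hC hP hc1
    have hNC : N ≤ stab c := by simpa [cj_one] using hNq 1 (Subgroup.one_mem _)
    exact uniq_alg hW a1 inf_le_left (Alg.of_le inf_le_right) a2
      (p.mono (le_inf hNC hNU) (inv_fin p le_rfl hN hNU hn h))
  have hsub : ∀ g, supp (cj g (stab p)) ⊆ supp (cj g (stab c)) := fun g =>
    alg_supp (op_cj g hP) (supp_spec (op_cj g hC)) (hPC.conj g)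
  obtain ⟨D, hD⟩ := supp_bounded hP
  obtain ⟨g, hg⟩ : ∃ g, ∀ g', (supp (cj g' (stab p))).card ≤ (supp (cj g (stab p))).card := by
    have := Nat.sSup_mem (s := Set.range (fun g => (supp (cj g (stab p))).card))
      (Set.range_nonempty _) ⟨D, by rintro _ ⟨g, rfl⟩; exact hD g⟩
    obtain ⟨g, hg⟩ := this
    refine ⟨g, fun g' => ?_⟩
    rw [show (supp (cj g (stab p))).card = _ from hg]
    exact le_csSup ⟨D, by rintro _ ⟨g, rfl⟩; exact hD g⟩ ⟨g', rfl⟩
  obtain ⟨y, hy, hy'⟩ := exists_gen hQ (g • c) (supp (cj g (stab p)) ∪ supp (cj g (stab c)))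
  have r1 := hy.real (op_inf (op_cj g hP) (op_cj g hC)) (supp_inf (op_cj g hP) (op_cj g hC)) hy'
  have r2 := c.r_smul hc2 g
  rw [cj_inf, mul_one] at r2
  obtain ⟨m, hm, q0, hq0, e⟩ := (g • c).dc r2 r1
  have s1 : supp (cj g (stab p)) ⊆ supp (stab ((m * g) • q)) := by
    have := hy.supp_le
    rw [stab_smul, e, cj_mul_mem _ hq0] at this
    rw [stab_smul]
    exact (hsub g).trans this
  obtain ⟨z, hz, -⟩ := exists_gen hP ((m * g) • q) ∅
  have s2 := hz.supp_le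
  have s3 : supp (cj z (stab p)) ⊆ supp (stab ((m * g) • q)) := by
    have : supp (stab ((m * g) • q)) = supp (cj z (stab p)) :=
      Finset.eq_of_subset_of_card_le s2 ((hg z).trans (Finset.card_le_card s1))
    rw [this]
  have hreal : ∀ V, Op V → q.r V ((m * g)⁻¹ * z) := by
    intro V hV
    have := ((m * g) • q).r_smul (hz.realized s3 _ (op_cj (m * g) hV)) (m * g)⁻¹
    rwa [cj_inv_cj, inv_smul_smul] at this
  have eQ := stab_of_realized hP hreal
  obtain ⟨v, hv, w, hw, e'⟩ := q.dc (hreal _ (q.opn hq2)) hq2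
  have hv2 : v ∈ stab q := hv.2
  rw [eQ, mem_cj] at hv2
  have hz' : (m * g)⁻¹ * z ∈ stab p := by
    have h1 := (stab p).mul_mem hv2 hw
    have : ((m * g)⁻¹ * z)⁻¹ * v * ((m * g)⁻¹ * z) * w = ((m * g)⁻¹ * z)⁻¹ := by
      rw [mul_assoc, mul_assoc, ← mul_assoc v, ← e', mul_one]
    rw [this] at h1
    exact (stab p).inv_mem_iff.1 h1
  rwa [eQ, cj_of_mem hz'] at hq1

theorem triangle_step {B C1 C2 U : Subgroup Γ} (hB : Op B) (h1 : Op C1) (h2 : Op C2) (hU : Op U)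
    (i1 : Ind B U C1) (a0 : Alg B (U ⊓ C1 ⊓ C2)) (a1 : Alg C1 (U ⊓ C2 ⊓ B)) (hn : ¬ Alg B U)
    (u : Γ) (hu : u ∈ U) :
    ∃ u' ∈ U, (supp (cj u C1) \ supp U).card < (supp (cj u' C2) \ supp U).card := by
  obtain ⟨p, p1, p2⟩ := i1
  have hps : supp (stab (u • p)) ⊆ supp U :=
    alg_supp (op_stab hB _) (supp_spec hU) (by rw [stab_smul]; exact p1.conj_mem hu)
  obtain ⟨z, hz, hz'⟩ := exists_gen hB (u • p) (supp U ∪ supp (cj u C1))
  have r1 := hz.real (op_inf hU (op_cj u h1)) (supp_inf hU (op_cj u h1)) hz'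
  have r2 := p.r_smul p2 u
  rw [cj_inf, cj_of_mem hu, mul_one] at r2
  obtain ⟨m, hm, b, hb, e⟩ := (u • p).dc r2 r1
  have hu' : m * u ∈ U := U.mul_mem hm.1 hu
  have e1 : cj (m * u) C1 = cj u C1 := by rw [cj_mul, cj_of_mem hm.2]
  have e2 : cj (m * u) B = cj z B := by rw [e, cj_mul_mem _ hb]
  obtain ⟨w, hw, hwU⟩ : ∃ w ∈ supp (cj z B), w ∉ supp U := by
    by_contra hcon
    push Not at hcon
    have := stab_of_realized hB (hz.realized
      (fun w hw => hz' w hw (Finset.mem_union_left _ (hcon w hw))))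
    apply hn
    have h3 := p1.conj_mem hu
    rw [← stab_smul, this, ← e2] at h3
    have h4 := h3.conj_mem (U.inv_mem hu')
    rwa [cj_inv_cj] at h4
  have sup3 : ∀ {X Y : Subgroup Γ}, Op X → Op Y → Supp (supp U ∪ supp (cj (m * u) X) ∪
      supp (cj (m * u) Y)) (cj (m * u) (U ⊓ X ⊓ Y)) := by
    intro X Y hX hY
    rw [cj_inf, cj_inf, cj_of_mem hu']
    exact ((supp_inf hU (op_cj _ hX)).mono Finset.subset_union_left le_rfl).inf
      ((supp_spec (op_cj _ hY)).mono Finset.subset_union_right le_rfl)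
  have f0 := alg_supp (op_cj _ hB) (sup3 h1 h2) (a0.conj (m * u))
  have f1 := alg_supp (op_cj _ h1) (sup3 h2 hB) (a1.conj (m * u))
  rw [e1, e2] at f0 f1
  have hdis : ∀ v ∈ supp (cj z B), v ∈ supp (cj u C1) → v ∈ supp U :=
    fun v hv hv' => hps (hz' v hv (Finset.mem_union_right _ hv'))
  refine ⟨m * u, hu', Finset.card_lt_card ⟨fun v hv => ?_, fun hsub => ?_⟩⟩
  · obtain ⟨v1, v2⟩ := Finset.mem_sdiff.1 hv
    refine Finset.mem_sdiff.2 ⟨?_, v2⟩
    rcases Finset.mem_union.1 (f1 v1) with h | h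
    · exact (Finset.mem_union.1 h).resolve_left v2
    · exact absurd (hdis v h v1) v2
  · have : w ∈ supp (cj (m * u) C2) := by
      rcases Finset.mem_union.1 (f0 hw) with h | h
      · rcases Finset.mem_union.1 h with h | h
        · exact absurd h hwU
        · exact absurd (hdis w hw h) hwU
      · exact h
    exact hwU (hdis w hw (Finset.mem_sdiff.1 (hsub (Finset.mem_sdiff.2 ⟨this, hwU⟩))).1)

theorem triangle {B C1 C2 U : Subgroup Γ} (hB : Op B) (h1 : Op C1) (h2 : Op C2) (hU : Op U)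
    (i1 : Ind B U C1) (i2 : Ind B U C2) (a0 : Alg B (U ⊓ C1 ⊓ C2)) (a1 : Alg C1 (U ⊓ C2 ⊓ B))
    (a2 : Alg C2 (U ⊓ C1 ⊓ B)) : Alg B U := by
  by_contra hn
  obtain ⟨D, hD⟩ := supp_bounded h1
  have : ∀ n : ℕ, ∃ u ∈ U, n ≤ (supp (cj u C1) \ supp U).card := by
    intro n
    induction n with
    | zero => exact ⟨1, U.one_mem, Nat.zero_le _⟩
    | succ n ih =>
      obtain ⟨u, hu, h⟩ := ih
      obtain ⟨u', hu', h'⟩ := triangle_step hB h1 h2 hU i1 a0 a1 hn u hu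
      obtain ⟨u'', hu'', h''⟩ := triangle_step hB h2 h1 hU i2 (by rwa [inf_right_comm]) a2 hn u' hu'
      exact ⟨u'', hu'', by omega⟩
  obtain ⟨u, -, h⟩ := this (D + 1)
  have := (Finset.card_le_card (Finset.sdiff_subset (s := supp (cj u C1)) (t := supp U))).trans
    (hD u)
  omega

theorem cb_pack {X V U : Subgroup Γ} (hX : Op X) (hV : Op V) (hU : Op U) :
    ∃ C, Op C ∧ Alg C (U ⊓ V) ∧ Alg C X ∧ Ind V (U ⊓ C) X := by
  obtain ⟨c, c1, c2⟩ := exists_cb hX (op_inf hU hV)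
  have hC := op_stab hX c
  refine ⟨stab c, hC, c1, one_based hX c (c.mono inf_le_right c2), ?_⟩
  have : Ind X (U ⊓ stab c) V := ⟨c, Alg.of_le inf_le_right, by rwa [inf_right_comm]⟩
  exact this.symm hX (op_inf hU hC) hV

theorem triv0 {B D1 D2 U : Subgroup Γ} (hB : Op B) (h1 : Op D1) (h2 : Op D2) (hU : Op U)
    (i1 : Ind B U D1) (i2 : Ind B U D2) (a0 : Alg B (U ⊓ D1 ⊓ D2)) : Alg B U := by
  obtain ⟨C1, hC1, c1, c1', j1⟩ := cb_pack (op_inf h2 hB) h1 hU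
  obtain ⟨C2, hC2, c2, c2', j2⟩ := cb_pack (op_inf h1 hB) h2 hU
  have k1 : Ind D1 (U ⊓ C1) (D2 ⊓ B ⊓ C2) :=
    j1.fin_right hC2 (c2.mono le_rfl (fun x hx => ⟨hx.1.1, hx.2.1⟩))
  have k2 : Ind D2 (U ⊓ C2) (D1 ⊓ B ⊓ C1) :=
    j2.fin_right hC1 (c1.mono le_rfl (fun x hx => ⟨hx.1.1, hx.2.1⟩))
  have b1 : Alg B (U ⊓ C1 ⊓ D2) := by
    have : Ind D1 (U ⊓ C1 ⊓ D2) B := j1.base inf_le_left (fun x hx => ⟨⟨hx.1, hx.2.1⟩, hx.2.2⟩)
    exact (this.symm h1 (op_inf (op_inf hU hC1) h2) hB).acl hB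
      (a0.mono le_rfl (fun x hx => ⟨⟨hx.1.1.1, hx.2⟩, hx.1.2⟩))
  refine triangle hB hC1 hC2 hU ((i1.fin_right hC1 c1).mono (fun x hx => hx.2.2))
    ((i2.fin_right hC2 c2).mono (fun x hx => hx.2.2)) ?_ ?_ ?_
  · have : Ind D2 (U ⊓ C1 ⊓ C2) B := k2.base (fun x hx => ⟨hx.1.1, hx.2⟩)
      (fun x hx => ⟨⟨⟨hx.1.1, hx.2.2⟩, hx.1.2⟩, hx.2.1.2⟩)
    exact (this.symm h2 (op_inf (op_inf hU hC1) hC2) hB).acl hB
      (b1.mono le_rfl (fun x hx => ⟨hx.1.1, hx.2⟩))
  · have : Ind D2 (U ⊓ C2 ⊓ B) C1 := k2.base inf_le_left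
      (fun x hx => ⟨⟨hx.1, hx.2.1.2⟩, hx.2.2⟩)
    exact (this.symm h2 (op_inf (op_inf hU hC2) hB) hC1).acl hC1
      (c1'.mono le_rfl (fun x hx => ⟨hx.2, hx.1.2⟩))
  · have : Ind D1 (U ⊓ C1 ⊓ B) C2 := k1.base inf_le_left
      (fun x hx => ⟨⟨hx.1, hx.2.1.2⟩, hx.2.2⟩)
    exact (this.symm h1 (op_inf (op_inf hU hC1) hB) hC2).acl hC2
      (c2'.mono le_rfl (fun x hx => ⟨hx.2, hx.1.2⟩))

theorem Ind.triv {W1 W2 U V : Subgroup Γ} (h1 : Op W1) (h2 : Op W2) (hU : Op U) (hV : Op V)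
    (i1 : Ind W1 U V) (i2 : Ind W2 U V) : Ind (W1 ⊓ W2) U V := by
  obtain ⟨q, q1, q2⟩ := exists_cb (op_inf h1 h2) (op_inf hU hV)
  have hQ := op_stab (op_inf h1 h2) q
  have a := one_based (op_inf h1 h2) q (q.mono inf_le_right q2)
  refine ⟨q, triv0 hQ h1 h2 hU ?_ ?_ (a.mono le_rfl (fun x hx => ⟨hx.1.2, hx.2⟩)),
    q.mono inf_le_left q2⟩
  · exact ((i1.fin_right hQ q1).mono (fun x hx => hx.2.2)).symm h1 hU hQ
  · exact ((i2.fin_right hQ q1).mono (fun x hx => hx.2.2)).symm h2 hU hQ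

theorem ind_of_forall (hW : Op W) {U : Subgroup Γ} (hU : Op U) {κ : Type*} (s : Finset κ)
    (f : κ → Subgroup Γ) (hf : ∀ i ∈ s, Op (f i)) (h : ∀ i ∈ s, Ind (f i) U W)
    (N : Subgroup Γ) (hN : ∀ x, (∀ i ∈ s, x ∈ f i) → x ∈ N) : Ind W U N := by
  classical
  induction s using Finset.induction_on generalizing N with
  | empty => exact (ind_self hW hU).mono (fun x _ => hN x (by simp))
  | insert a s ha ih =>
    have hf' : ∀ i ∈ s, Op (f i) := fun i hi => hf i (Finset.mem_insert_of_mem hi)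
    have hmem : ∀ x, (∀ i ∈ s, x ∈ f i) → x ∈ (⨅ i ∈ s, f i) :=
      fun x hx' => by simpa [Subgroup.mem_iInf] using hx'
    have hop := op_of_forall s f hf' _ hmem
    have h1 := ih hf' (fun i hi => h i (Finset.mem_insert_of_mem hi)) (⨅ i ∈ s, f i) hmem
    have ha' := hf a (Finset.mem_insert_self _ _)
    have h2 := (Ind.triv hop ha' hU hW (h1.symm hW hU hop)
      (h a (Finset.mem_insert_self _ _))).symm (op_inf hop ha') hU hW
    refine h2.mono ?_
    rintro x ⟨-, hx2, hx3⟩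
    refine hN x (fun i hi => ?_)
    rcases Finset.mem_insert.1 hi with rfl | hi
    · exact hx3
    · have : ∀ i ∈ s, x ∈ f i := by simpa [Subgroup.mem_iInf] using hx2
      exact this i hi

end Pool.Agent.Lib.MP_905f9a_lc
end

-- part Pool.Agent.Lib.MP_905f9a_lc.Amalg
section

namespace Pool.Agent.Lib.MP_905f9a_lc

open Setting Function

variable {Γ : Type} [Group Γ]

def std (j : ℕ) : Fin j → ℚ := fun i => ((i : ℕ) : ℚ)

theorem std_sm (j : ℕ) : StrictMono (std j) := fun a b h => by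
  unfold std; exact_mod_cast h

def stdS (j : ℕ) : Finset ℚ := Finset.univ.image (std j)

open Classical in
noncomputable def β {j : ℕ} (r : Fin j → ℚ) : GQ :=
  if h : StrictMono r then
    (ext_iso (std j) r (fun _ _ => (std_sm j).lt_iff_lt.trans h.lt_iff_lt.symm)).choose else 1

theorem β_spec {j : ℕ} {r : Fin j → ℚ} (h : StrictMono r) (i : Fin j) : β r (std j i) = r i := by
  rw [β, dif_pos h]
  exact (ext_iso (std j) r (fun _ _ => (std_sm j).lt_iff_lt.trans h.lt_iff_lt.symm)).choose_spec i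

/-- Finite intersections. -/
def fi {κ : Type} (c : κ → Prop) (f : κ → Subgroup Γ) : Subgroup Γ where
  carrier := {g | ∀ k, c k → g ∈ f k}
  mul_mem' := fun ha hb k hk => (f k).mul_mem (ha k hk) (hb k hk)
  one_mem' := fun k _ => (f k).one_mem
  inv_mem' := fun ha k hk => (f k).inv_mem (ha k hk)

theorem mem_fi {κ : Type} {c : κ → Prop} {f : κ → Subgroup Γ} {g : Γ} :
    g ∈ fi c f ↔ ∀ k, c k → g ∈ f k := Iff.rfl

theorem alg_fi {κ : Type} [Finite κ] {c : κ → Prop} {f : κ → Subgroup Γ} {U : Subgroup Γ}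
    (h : ∀ k, c k → Alg (f k) U) : Alg (fi c f) U := by
  classical
  have := Fintype.ofFinite κ
  exact alg_of_forall (Finset.univ.filter c) f U (fun i hi => h i (Finset.mem_filter.1 hi).2) _
    (fun x _ hx k hk => hx k (Finset.mem_filter.2 ⟨Finset.mem_univ _, hk⟩))

variable [Setting Γ]

theorem op_fi {κ : Type} [Finite κ] {c : κ → Prop} {f : κ → Subgroup Γ}
    (h : ∀ k, c k → Op (f k)) : Op (fi c f) := by
  classical
  have := Fintype.ofFinite κ
  exact op_of_forall (Finset.univ.filter c) f (fun i hi => h i (Finset.mem_filter.1 hi).2) _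
    (fun x hx k hk => hx k (Finset.mem_filter.2 ⟨Finset.mem_univ _, hk⟩))

theorem ind_fi {κ : Type} [Finite κ] {c : κ → Prop} {f : κ → Subgroup Γ} {W U : Subgroup Γ}
    (hW : Op W) (hU : Op U) (hf : ∀ k, c k → Op (f k)) (h : ∀ k, c k → Ind (f k) U W) :
    Ind W U (fi c f) := by
  classical
  have := Fintype.ofFinite κ
  exact ind_of_forall hW hU (Finset.univ.filter c) f
    (fun i hi => hf i (Finset.mem_filter.1 hi).2) (fun i hi => h i (Finset.mem_filter.1 hi).2) _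
    (fun x hx k hk => hx k (Finset.mem_filter.2 ⟨Finset.mem_univ _, hk⟩))

/-- The group element moving the standard position to `r`. -/
noncomputable def pos {j : ℕ} (r : Fin j → ℚ) : Γ := ι (β r)

theorem pos_eqv {j : ℕ} {K : Subgroup Γ} (hK : Supp (stdS j) K) {r r' : Fin j → ℚ}
    (hr : StrictMono r) (hr' : StrictMono r') {α : GQ} (h : ∀ i, α (r i) = r' i) :
    (pos r' : Γ)⁻¹ * (ι α * pos r) ∈ K := by
  unfold pos
  rw [← map_inv, ← map_mul, ← map_mul]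
  apply hK
  intro w hw
  obtain ⟨i, -, rfl⟩ := Finset.mem_image.1 hw
  rw [mul_app, mul_app, β_spec hr, h, ← β_spec hr', inv_app]

theorem supp_pos {j : ℕ} {K : Subgroup Γ} (hK : Supp (stdS j) K) {r : Fin j → ℚ}
    (hr : StrictMono r) : Supp (Finset.univ.image r) (cj (pos r) K) := by
  refine (hK.conj (β r)).mono ?_ le_rfl
  intro y hy
  obtain ⟨z, hz, rfl⟩ := Finset.mem_image.1 hy
  obtain ⟨i, -, rfl⟩ := Finset.mem_image.1 hz
  rw [β_spec hr]
  exact Finset.mem_image_of_mem _ (Finset.mem_univ _)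

abbrev Lev (m n : ℕ) := Σ j : Fin m, (Fin j → Fin n)

/-- The boundary subgroup at level `m`. -/
noncomputable def bd (W : ℕ → Subgroup Γ) (m : ℕ) : Subgroup Γ :=
  fi (fun x : Lev m m => StrictMono x.2) (fun x => cj (pos (std m ∘ x.2)) (W x.1))

theorem op_bd {W : ℕ → Subgroup Γ} {m : ℕ} (hW : ∀ j < m, Op (W j)) : Op (bd W m) :=
  op_fi (fun k _ => op_cj _ (hW _ k.1.2))

theorem supp_bd {W : ℕ → Subgroup Γ} {m : ℕ} (hS : ∀ j < m, Supp (stdS j) (W j)) :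
    Supp (stdS m) (bd W m) := by
  intro α hα k hk
  refine supp_pos (hS _ k.1.2) ((std_sm m).comp hk) α (hα.mono ?_)
  intro y hy
  obtain ⟨i, -, rfl⟩ := Finset.mem_image.1 hy
  exact Finset.mem_image_of_mem _ (Finset.mem_univ _)

theorem pos_comp {j m : ℕ} {K : Subgroup Γ} (hK : Supp (stdS j) K) {r : Fin m → ℚ}
    (hr : StrictMono r) {u : Fin j → Fin m} (hu : StrictMono u) :
    (pos (r ∘ u) : Γ)⁻¹ * (pos r * pos (std m ∘ u)) ∈ K :=
  pos_eqv hK ((std_sm m).comp hu) (hr.comp hu) (fun i => β_spec hr (u i))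

theorem mem_cj_bd {W : ℕ → Subgroup Γ} {m : ℕ} (hS : ∀ j < m, Supp (stdS j) (W j))
    {r : Fin m → ℚ} (hr : StrictMono r) (g : Γ) :
    g ∈ cj (pos r) (bd W m) ↔
      ∀ x : Lev m m, StrictMono x.2 → g ∈ cj (pos (r ∘ x.2)) (W x.1) := by
  rw [mem_cj, bd, mem_fi]
  refine forall_congr' (fun x => forall_congr' (fun hx => ?_))
  rw [← mem_cj, ← cj_mul, cj_eq_of_mem (pos_comp (hS _ x.1.2) hr hx)]

/-- `γ` realises the order `h` on the levels below `m`. -/
def Low (W : ℕ → Subgroup Γ) (m : ℕ) {n : ℕ} (δ : Lev m n → Γ) (h : Fin n → ℚ) (γ : Γ) : Prop :=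
  ∀ x : Lev m n, StrictMono (h ∘ x.2) → (δ x)⁻¹ * (γ * pos (h ∘ x.2)) ∈ W x.1

def Top (P : Subgroup Γ) {m n : ℕ} (ε : (Fin m → Fin n) → Γ) (h : Fin n → ℚ) (γ : Γ) : Prop :=
  ∀ t : Fin m → Fin n, StrictMono (h ∘ t) → (ε t)⁻¹ * (γ * pos (h ∘ t)) ∈ P

def Sol (W : ℕ → Subgroup Γ) (m n : ℕ) : Prop :=
  ∃ δ : Lev m n → Γ, ∀ h : Fin n → ℚ, Injective h → ∃ γ, Low W m δ h γ

def Sol2 (W : ℕ → Subgroup Γ) (P : Subgroup Γ) (m n : ℕ) : Prop :=
  ∃ δ : Lev m n → Γ, ∃ ε : (Fin m → Fin n) → Γ, ∀ h : Fin n → ℚ, Injective h →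
    ∃ γ, Low W m δ h γ ∧ Top P ε h γ

theorem sol_succ {W : ℕ → Subgroup Γ} {m n : ℕ} (h : Sol2 W (W m) m n) : Sol W (m + 1) n := by
  obtain ⟨δ, ε, h⟩ := h
  refine ⟨fun x => Fin.lastCases (motive := fun j : Fin (m + 1) => (Fin j → Fin n) → Γ)
    (fun t => ε t) (fun j t => δ ⟨j, t⟩) x.1 x.2, fun h0 hh => ?_⟩
  obtain ⟨γ, h1, h2⟩ := h h0 hh
  refine ⟨γ, ?_⟩
  rintro ⟨j, t⟩ ht
  induction j using Fin.lastCases with
  | last => simpa using h2 t ht
  | cast j => simpa using h1 ⟨j, t⟩ ht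

theorem exists_eps {W : ℕ → Subgroup Γ} {m N : ℕ} (hS : ∀ j < m, Supp (stdS j) (W j))
    (δ : Lev m N → Γ) (hδ : ∀ h : Fin N → ℚ, Injective h → ∃ γ, Low W m δ h γ) :
    ∃ ε : (Fin m → Fin N) → Γ, ∀ h γ, Low W m δ h γ → Top (bd W m) ε h γ := by
  have : ∀ t : Fin m → Fin N, ∃ e : Γ, ∀ h γ, Low W m δ h γ → StrictMono (h ∘ t) →
      e⁻¹ * (γ * pos (h ∘ t)) ∈ bd W m := by
    intro t
    by_cases ht : Injective t
    · obtain ⟨h1, hi, e1⟩ := ext_inj t ht (std m) (std_sm m).injective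
      obtain ⟨γ1, g1⟩ := hδ h1 hi
      have s1 : StrictMono (h1 ∘ t) := by
        rw [show h1 ∘ t = std m from funext e1]; exact std_sm m
      refine ⟨γ1 * pos (h1 ∘ t), fun h γ g s x hx => ?_⟩
      have a1 := g1 ⟨x.1, t ∘ x.2⟩ (s1.comp hx)
      have a2 := g ⟨x.1, t ∘ x.2⟩ (s.comp hx)
      have b1 := pos_comp (hS _ x.1.2) s1 hx
      have b2 := pos_comp (hS _ x.1.2) s hx
      have := (W x.1).mul_mem ((W x.1).inv_mem ((W x.1).mul_mem a1 b1)) ((W x.1).mul_mem a2 b2)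
      rw [mem_cj]
      convert this using 1
      simp only [Function.comp_assoc]
      group
    · exact ⟨1, fun h γ _ s => absurd (Injective.of_comp s.injective) ht⟩
  choose ε hε using this
  exact ⟨ε, fun h γ g t s => hε t h γ g s⟩

theorem stepA {W : ℕ → Subgroup Γ} {m : ℕ} (hW : ∀ j < m, Op (W j))
    (hS : ∀ j < m, Supp (stdS j) (W j)) {P : Subgroup Γ} (hP : Op P) (hPS : Supp (stdS m) P)
    (hPa : Alg P (bd W m)) (hn : ∀ u ∈ bd W m, cj u P = P) (h : ∀ n, Sol W m n) (n : ℕ) :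
    Sol2 W P m n := by
  classical
  obtain ⟨F, cov, hcov⟩ := hPa.exists_cover
  obtain ⟨M, hM⟩ := ramsey_sm ((Fin m → Fin n) → Option F) m n
  obtain ⟨R, hR⟩ := finTup (Lev m n ⊕ (Fin m → Fin n)) (Sum.elim (fun x => W x.1) (fun _ => P))
    (by rintro (x | t); exacts [hW _ x.1.2, hP])
  choose αf δf hδR hδf using hR
  obtain ⟨N, hN⟩ := ramsey_sm R n (n * M)
  obtain ⟨δ, hδ⟩ := h N
  obtain ⟨ε, hε⟩ := exists_eps hS δ hδ
  let D : (Fin n → Fin N) → (Lev m n ⊕ (Fin m → Fin n)) → Γ := fun s =>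
    Sum.elim (fun x => δ ⟨x.1, s ∘ x.2⟩) (fun t => ε (s ∘ t))
  obtain ⟨e, he, hhom⟩ := hN (fun s => ⟨δf (D s), hδR _⟩)
  obtain ⟨h1, hi1, e1⟩ := ext_inj e he.injective
    (fun x => std (M * n) (finProdFinEquiv (finProdFinEquiv.symm x).swap))
    ((std_sm _).injective.comp (finProdFinEquiv.injective.comp
      (Prod.swap_injective.comp finProdFinEquiv.symm.injective)))
  obtain ⟨γ, hγ⟩ := hδ h1 hi1
  have hcol : ∀ (a a' : Fin n) (c c' : Fin M), c < c' →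
      h1 (e (finProdFinEquiv (a, c))) < h1 (e (finProdFinEquiv (a', c'))) := by
    intro a a' c c' hc
    rw [e1, e1]
    simp only [Equiv.symm_apply_apply, Prod.swap_prod_mk]
    exact std_sm _ (fp_lt _ _ hc)
  let tt : (Fin m → Fin n) → (Fin m → Fin M) → Fin m → Fin N := fun t c i =>
    e (finProdFinEquiv (t i, c i))
  let g : (Fin m → Fin n) → (Fin m → Fin M) → Γ := fun t c =>
    (ε (tt t c))⁻¹ * (γ * pos (h1 ∘ tt t c))
  have hg : ∀ t c, StrictMono c → g t c ∈ bd W m := fun t c hc =>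
    hε h1 γ hγ (tt t c) (fun i j hij => hcol _ _ _ _ (hc hij))
  obtain ⟨e2, he2, hhom2⟩ := hM (fun c t => cov (g t c))
  let lam : (Fin m → Fin n) → Γ := fun t =>
    if hx : ∃ c0 : Fin m → Fin n, StrictMono c0 then g t (e2 ∘ hx.choose) else 1
  have hlam : ∀ t (c : Fin m → Fin n), StrictMono c →
      lam t ∈ bd W m ∧ (lam t)⁻¹ * g t (e2 ∘ c) ∈ P := by
    intro t c hc
    have hx : ∃ c0 : Fin m → Fin n, StrictMono c0 := ⟨c, hc⟩
    have e3 : lam t = g t (e2 ∘ hx.choose) := dif_pos hx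
    have m1 := hg t _ (he2.comp hx.choose_spec)
    rw [e3]
    exact ⟨m1, hcov _ m1 _ (hg t _ (he2.comp hc))
      (congrFun (hhom2 _ _ hx.choose_spec hc) t)⟩
  have hs : ∀ c : Fin n → Fin M, StrictMono (fun a => finProdFinEquiv (a, c a)) :=
    fun c a b hab => fp_lt _ _ hab
  let δ0 := δf (D (e ∘ fun a => finProdFinEquiv (a, e2 a)))
  refine ⟨fun x => δ0 (Sum.inl x), fun t => δ0 (Sum.inr t) * lam t, fun h' hi' => ?_⟩
  obtain ⟨rk, hrk⟩ := exists_rank h'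
  let s : Fin n → Fin N := e ∘ fun a => finProdFinEquiv (a, e2 (rk a))
  have hδ0 : δf (D s) = δ0 := congrArg Subtype.val (hhom _ _ (hs _) (hs _))
  have hord : ∀ a b, h' a < h' b → h1 (s a) < h1 (s b) := fun a b hab =>
    hcol _ _ _ _ (he2 (hrk a b hab))
  obtain ⟨α, hα⟩ := ext_iso h' (h1 ∘ s) (by
    intro a b
    refine ⟨hord a b, fun hab => ?_⟩
    rcases lt_trichotomy (h' a) (h' b) with h2 | h2 | h2
    · exact h2
    · rw [hi' h2] at hab; exact absurd hab (lt_irrefl _)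
    · exact absurd (hord b a h2) (not_lt.2 hab.le))
  refine ⟨(ι (αf (D s)))⁻¹ * γ * ι α, fun x hx => ?_, fun t ht => ?_⟩
  · have sm : StrictMono (h1 ∘ (s ∘ x.2)) := fun i j hij => hord _ _ (hx hij)
    have a1 := hδf (D s) (Sum.inl x)
    rw [hδ0] at a1
    have a2 := hγ ⟨x.1, s ∘ x.2⟩ sm
    have a3 := pos_eqv (hS _ x.1.2) hx sm (α := α) (fun i => hα _)
    have := (W x.1).mul_mem ((W x.1).mul_mem a1 a2) a3
    convert this using 1
    simp only [D, Sum.elim_inl]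
    group
  · have sm : StrictMono (h1 ∘ (s ∘ t)) := fun i j hij => hord _ _ (ht hij)
    have a1 : (ι (αf (D s)) * δ0 (Sum.inr t))⁻¹ * ε (s ∘ t) ∈ P := by
      have := hδf (D s) (Sum.inr t)
      rwa [hδ0] at this
    obtain ⟨l1, l2⟩ := hlam t (rk ∘ t) (fun i j hij => hrk _ _ (ht hij))
    have a3 := pos_eqv hPS ht sm (α := α) (fun i => hα _)
    rw [← hn _ l1, mem_cj] at a1
    have := P.mul_mem (P.mul_mem a1 l2) a3
    convert this using 1
    have e4 : tt t (e2 ∘ rk ∘ t) = s ∘ t := rfl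
    simp only [g, e4]
    group

theorem ind_of_le {X U V : Subgroup Γ} (hX : Op X) (hU : Op U) (hV : Op V) (h : U ≤ X) :
    Ind X U V := by
  have hr : ∀ V', Op V' → (fr hX 1 (supp (cj 1 X))).r V' 1 := fun V' hV' =>
    fr_self hX hV' (supp_spec hV') (fun w hw _ => hw)
  refine ⟨fr hX 1 (supp (cj 1 X)), ?_, hr _ (op_inf hU hV)⟩
  rw [stab_of_realized hX hr, cj_one]
  exact Alg.of_le h

theorem factor_sm {j m : ℕ} {r : Fin j → ℚ} {r0 : Fin m → ℚ} (hr : StrictMono r)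
    (hr0 : StrictMono r0) (h : ∀ i, r i ∈ Set.range r0) :
    ∃ u : Fin j → Fin m, StrictMono u ∧ r = r0 ∘ u := by
  choose u hu using h
  refine ⟨u, fun a b hab => ?_, funext fun i => (hu i).symm⟩
  rw [← hr0.lt_iff_lt, hu, hu]; exact hr hab

/-- The closure property of a family of levels. -/
def Closed (W : ℕ → Subgroup Γ) (d : ℕ) : Prop :=
  ∀ j j', j < j' → j' ≤ d → ∀ p : GT (W j'), Supp (stdS j) (stab p) → W j ≤ stab p

theorem ind_piece {W : ℕ → Subgroup Γ} {m : ℕ} (hW : ∀ j ≤ m, Op (W j))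
    (hS : ∀ j ≤ m, Supp (stdS j) (W j)) (hcl : Closed W m) {j : ℕ} (hj : j ≤ m)
    {r : Fin j → ℚ} {r0 : Fin m → ℚ} (hr : StrictMono r) (hr0 : StrictMono r0)
    (hne : j < m ∨ ∃ i, r i ∉ Set.range r0) :
    Ind (cj (pos r) (W j)) (cj (pos r0) (bd W m)) (cj (pos r0) (W m)) := by
  classical
  have hS' : ∀ j < m, Supp (stdS j) (W j) := fun j h => hS j h.le
  have hU := op_cj (pos r0) (op_bd (fun j h => hW j h.le) (m := m))
  have hV := op_cj (pos r0) (hW m le_rfl)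
  by_cases hA : ∃ i, r i ∉ Set.range r0
  · obtain ⟨i0, hi0⟩ := hA
    let A0 : Finset (Fin m) := Finset.univ.filter (fun i => r0 i ∈ Set.range r)
    let u : Fin A0.card → Fin m := A0.orderEmbOfFin rfl
    have hu : StrictMono u := (A0.orderEmbOfFin rfl).strictMono
    have hlt : A0.card < j := by
      have h1 : A0.image r0 ⊂ Finset.univ.image r := by
        refine ⟨fun y hy => ?_, fun hsub => ?_⟩
        · obtain ⟨i, hi, rfl⟩ := Finset.mem_image.1 hy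
          obtain ⟨k, hk⟩ := (Finset.mem_filter.1 hi).2
          exact Finset.mem_image.2 ⟨k, Finset.mem_univ _, hk⟩
        · obtain ⟨i, -, e⟩ := Finset.mem_image.1
            (hsub (Finset.mem_image_of_mem _ (Finset.mem_univ i0)))
          exact hi0 ⟨i, e⟩
      have h2 := Finset.card_lt_card h1
      rwa [Finset.card_image_of_injective _ hr0.injective,
        Finset.card_image_of_injective _ hr.injective, Finset.card_univ, Fintype.card_fin] at h2
    let p := fr (hW j hj) (pos r) (A0.image r0)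
    have h1 : Supp (stdS A0.card) (stab ((pos (r0 ∘ u) : Γ)⁻¹ • p)) := by
      rw [stab_smul]
      refine (supp_pull (fr_fixed (hW j hj) (pos r) (A0.image r0)) (β (r0 ∘ u))).mono ?_ le_rfl
      intro y hy
      obtain ⟨z, hz, rfl⟩ := Finset.mem_image.1 hy
      obtain ⟨i, hi, rfl⟩ := Finset.mem_image.1 hz
      have : i ∈ Set.range u := by
        rw [Finset.range_orderEmbOfFin]; exact hi
      obtain ⟨k, rfl⟩ := this
      have e : r0 (u k) = β (r0 ∘ u) (std _ k) := (β_spec (hr0.comp hu) k).symm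
      rw [e, inv_app]
      exact Finset.mem_image_of_mem _ (Finset.mem_univ _)
    have h2 := cj_mono (pos (r0 ∘ u)) (hcl _ _ hlt hj _ h1)
    rw [stab_smul, cj_cj_inv] at h2
    refine IndX.to_cj ⟨p, Alg.of_le (fun g hg => h2 ?_), ?_⟩
    · exact (mem_cj_bd hS' hr0 g).1 hg ⟨⟨A0.card, by omega⟩, u⟩ hu
    · refine fr_self (hW j hj) (op_inf hU hV)
        ((supp_pos (supp_bd hS') hr0).inf (supp_pos (hS m le_rfl) hr0)) ?_
      intro w hw hw'
      obtain ⟨k, -, e⟩ := Finset.mem_image.1 (supp_subset (supp_pos (hS j hj) hr) hw)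
      obtain ⟨i, -, rfl⟩ := Finset.mem_image.1 hw'
      exact Finset.mem_image_of_mem _ (Finset.mem_filter.2 ⟨Finset.mem_univ _, k, e⟩)
  · have hjm := hne.resolve_right hA
    push Not at hA
    obtain ⟨u, hu, rfl⟩ := factor_sm hr hr0 hA
    exact ind_of_le (op_cj _ (hW j hj)) hU hV
      (fun g hg => (mem_cj_bd hS' hr0 g).1 hg ⟨⟨j, hjm⟩, u⟩ hu)

theorem exists_P {W : ℕ → Subgroup Γ} {m : ℕ} (hW : ∀ j ≤ m, Op (W j))
    (hS : ∀ j ≤ m, Supp (stdS j) (W j)) :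
    ∃ P, Op P ∧ Supp (stdS m) P ∧ Alg P (bd W m) ∧ (∀ u ∈ bd W m, cj u P = P) ∧
      ∃ p0 : GT (W m), P ≤ stab p0 ∧
        ∀ p : GT (W m), Alg (stab p) (bd W m) → p.r P 1 → p = p0 := by
  have hB := op_bd (fun j h => hW j h.le) (m := m)
  have hBS := supp_bd (fun j h => hS j h.le) (m := m)
  have hWm := hW m le_rfl
  have hfin : {p : GT (W m) | Alg (stab p) (bd W m)}.Finite :=
    (finite_supported hWm (stdS m)).subset (fun p hp =>
      supp_of_subset (op_stab hWm p) (alg_supp (op_stab hWm p) hBS hp))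
  have hmem : ∀ x, (∀ p ∈ hfin.toFinset, x ∈ stab p) → x ∈ (⨅ p ∈ hfin.toFinset, stab p) :=
    fun x hx => by simpa [Subgroup.mem_iInf] using hx
  obtain ⟨P, h1, h2, h3, h4, h5⟩ := exists_core
    (op_of_forall hfin.toFinset stab (fun p _ => op_stab hWm p) _ hmem) hB
    (alg_of_forall hfin.toFinset stab _ (fun p hp => by simpa using hp) _ (fun x _ => hmem x))
  have h6 : ∀ p : GT (W m), Alg (stab p) (bd W m) → P ≤ stab p := by
    intro p hp
    have := h5 1 (Subgroup.one_mem _)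
    rw [cj_one] at this
    exact this.trans (biInf_le stab (by simpa using hp))
  obtain ⟨p1, a1, a2⟩ := exists_alg hWm hB 1
  obtain ⟨u, hu, a3⟩ := refine_norm p1 h1 h2 h4 a2
  have a4 : Alg (stab (u • p1)) (bd W m) := by rw [stab_smul]; exact a1.conj_mem hu
  exact ⟨P, h1, supp_of_subset h1 (alg_supp h1 hBS h3), h3, h4, u • p1, h6 _ a4,
    fun p hp hp' => uniq0 hWm (h6 p hp) (h6 _ a4) hp' a3⟩

theorem true_config {W : ℕ → Subgroup Γ} {m n : ℕ} (hW : ∀ j ≤ m, Op (W j))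
    (hS : ∀ j ≤ m, Supp (stdS j) (W j)) (hcl : Closed W m) {P : Subgroup Γ} (hP : Op P)
    (hPa : Alg P (bd W m)) {p0 : GT (W m)}
    (hp0 : ∀ p : GT (W m), Alg (stab p) (bd W m) → p.r P 1 → p = p0)
    {h : Fin n → ℚ} (hh : Injective h) (T : Finset (Fin m → Fin n)) {t0 : Fin m → Fin n}
    (ht0 : t0 ∉ T) (hs0 : StrictMono (h ∘ t0)) :
    ((pos (h ∘ t0) : Γ) • p0).r
      ((fi (fun x : Lev m n => StrictMono (h ∘ x.2)) (fun x => cj (pos (h ∘ x.2)) (W x.1)) ⊓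
        fi (fun t : Fin m → Fin n => t ∈ T ∧ StrictMono (h ∘ t))
          (fun t => cj (pos (h ∘ t)) (W m))) ⊓
        fi (fun t : Fin m → Fin n => StrictMono (h ∘ t)) (fun t => cj (pos (h ∘ t)) P))
      (pos (h ∘ t0)) := by
  have hS' : ∀ j < m, Supp (stdS j) (W j) := fun j h => hS j h.le
  have hU := op_cj (pos (h ∘ t0)) (op_bd (fun j h => hW j h.le) (m := m))
  have hV := op_cj (pos (h ∘ t0)) (hW m le_rfl)
  have o1 : ∀ x : Lev m n, StrictMono (h ∘ x.2) → Op (cj (pos (h ∘ x.2)) (W x.1)) :=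
    fun x _ => op_cj _ (hW _ x.1.2.le)
  have o2 : ∀ t : Fin m → Fin n, t ∈ T ∧ StrictMono (h ∘ t) → Op (cj (pos (h ∘ t)) (W m)) :=
    fun t _ => op_cj _ (hW _ le_rfl)
  have i1 := ind_fi hV hU o1 (fun x hx => ind_piece hW hS hcl x.1.2.le hx hs0 (Or.inl x.1.2))
  have i2 := ind_fi hV hU o2 (fun t ht => ind_piece hW hS hcl le_rfl ht.2 hs0 (Or.inr (by
    by_contra hcon
    push Not at hcon
    obtain ⟨u, hu, e⟩ := factor_sm ht.2 hs0 hcon
    have : u = id := hu.eq_id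
    rw [this, Function.comp_id] at e
    exact ht0 (by rw [← hh.comp_left e]; exact ht.1))))
  have i3 := (Ind.triv (op_fi o1) (op_fi o2) hU hV (i1.symm hV hU (op_fi o1))
    (i2.symm hV hU (op_fi o2))).symm (op_inf (op_fi o1) (op_fi o2)) hU hV
  have i4 := i3.fin_right (V' := fi (fun t : Fin m → Fin n => StrictMono (h ∘ t))
    (fun t => cj (pos (h ∘ t)) P)) (op_fi (fun t _ => op_cj _ hP)) (alg_fi (fun t ht =>
      (hPa.conj _).mono le_rfl (fun g hg => (mem_cj_bd hS' ht g).2 (fun x hx =>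
        hg.2.1 ⟨x.1, t ∘ x.2⟩ (ht.comp hx)))))
  obtain ⟨p', a1, a2⟩ := IndX.of_cj i4
  have a3 := p'.r_smul a2 (pos (h ∘ t0))⁻¹
  rw [inv_mul_cancel] at a3
  have e := hp0 ((pos (h ∘ t0) : Γ)⁻¹ • p') (by
    have := a1.conj (pos (h ∘ t0))⁻¹
    rwa [cj_inv_cj, ← stab_smul] at this) (GT.mono _ (by
    intro g hg
    have k : (pos (h ∘ t0) : Γ)⁻¹⁻¹ * g * (pos (h ∘ t0))⁻¹ ∈ cj (pos (h ∘ t0)) P :=
      (mem_cj.1 hg).2.2 t0 hs0
    rw [← mem_cj, cj_inv_cj] at k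
    exact k) a3)
  rw [← e, smul_inv_smul]
  exact p'.mono inf_le_right a2

theorem stepB {W : ℕ → Subgroup Γ} {m n : ℕ} (hW : ∀ j ≤ m, Op (W j))
    (hS : ∀ j ≤ m, Supp (stdS j) (W j)) (hcl : Closed W m) {P : Subgroup Γ} (hP : Op P)
    (hPa : Alg P (bd W m)) {p0 : GT (W m)} (hPp : P ≤ stab p0)
    (hp0 : ∀ p : GT (W m), Alg (stab p) (bd W m) → p.r P 1 → p = p0)
    (h : Sol2 W P m n) : Sol2 W (W m) m n := by
  classical
  obtain ⟨δ, ε, hsol⟩ := h
  have key : ∀ T : Finset (Fin m → Fin n), ∃ η : (Fin m → Fin n) → Γ,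
      ∀ h : Fin n → ℚ, Injective h → ∃ γ, Low W m δ h γ ∧ Top P ε h γ ∧
        ∀ t ∈ T, StrictMono (h ∘ t) → (η t)⁻¹ * (γ * pos (h ∘ t)) ∈ W m := by
    intro T
    induction T using Finset.induction_on with
    | empty =>
      refine ⟨fun _ => 1, fun h hh => ?_⟩
      obtain ⟨γ, h1, h2⟩ := hsol h hh
      exact ⟨γ, h1, h2, by simp⟩
    | insert t0 T ht0 ih =>
      obtain ⟨η, hη⟩ := ih
      obtain ⟨y, hy⟩ := (ε t0 • p0).ex (V := (fi (fun _ : Lev m n => True)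
          (fun x => cj (δ x) (W x.1)) ⊓ fi (fun t : Fin m → Fin n => t ∈ T)
          (fun t => cj (η t) (W m))) ⊓ fi (fun _ : Fin m → Fin n => True) (fun t => cj (ε t) P))
        (op_inf (op_inf (op_fi (fun x _ => op_cj _ (hW _ x.1.2.le)))
          (op_fi (fun t _ => op_cj _ (hW _ le_rfl)))) (op_fi (fun t _ => op_cj _ hP)))
      refine ⟨Function.update η t0 y, fun h hh => ?_⟩
      obtain ⟨γ, h1, h2, h3⟩ := hη h hh
      by_cases hs0 : StrictMono (h ∘ t0)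
      · have tc := GT.r_smul _ (true_config hW hS hcl hP hPa hp0 hh T ht0 hs0) γ
        have e : γ • (pos (h ∘ t0) : Γ) • p0 = ε t0 • p0 := by
          have := mem_stab.1 (hPp (h2 t0 hs0))
          rw [mul_smul, inv_smul_eq_iff, mul_smul] at this
          exact this
        rw [e] at tc
        obtain ⟨v, hv, w, hw, e2⟩ := (ε t0 • p0).dc tc ((ε t0 • p0).mono (by
          rintro g ⟨⟨g1, g2⟩, g3⟩
          refine ⟨⟨fun x hx => ?_, fun t ht => ?_⟩, fun t ht => ?_⟩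
          · rw [← mem_cj, ← cj_mul, cj_eq_of_mem (h1 x hx)]; exact g1 x trivial
          · rw [← mem_cj, ← cj_mul, cj_eq_of_mem (h3 t ht.1 ht.2)]; exact g2 t ht.1
          · rw [← mem_cj, ← cj_mul, cj_eq_of_mem (h2 t ht)]; exact g3 t trivial) hy)
        have upd : ∀ (a b : Γ) (K : Subgroup Γ), a⁻¹ * (γ * b) ∈ K → γ⁻¹ * v * γ ∈ cj b K →
            a⁻¹ * (v * γ * b) ∈ K := by
          intro a b K k1 k2
          rw [mem_cj] at k2
          have := K.mul_mem k1 k2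
          convert this using 1; group
        refine ⟨v * γ, fun x hx => upd _ _ _ (h1 x hx) (hv.1.1 x hx),
          fun t ht => upd _ _ _ (h2 t ht) (hv.2 t ht), fun t ht hs => ?_⟩
        rcases Finset.mem_insert.1 ht with rfl | ht'
        · rw [Function.update_self, e2]
          have := (W m).inv_mem hw
          convert this using 1; group
        · rw [Function.update_of_ne (fun e : t = t0 => ht0 (e ▸ ht'))]
          exact upd _ _ _ (h3 t ht' hs) (hv.1.2 t ⟨ht', hs⟩)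
      · refine ⟨γ, h1, h2, fun t ht hs => ?_⟩
        rcases Finset.mem_insert.1 ht with rfl | ht'
        · exact absurd hs hs0
        · rw [Function.update_of_ne (fun e : t = t0 => ht0 (e ▸ ht'))]
          exact h3 t ht' hs
  obtain ⟨η, hη⟩ := key Finset.univ
  refine ⟨δ, η, fun h hh => ?_⟩
  obtain ⟨γ, h1, -, h3⟩ := hη h hh
  exact ⟨γ, h1, fun t ht => h3 t (Finset.mem_univ _) ht⟩

theorem sol2_of_sol {W : ℕ → Subgroup Γ} {m : ℕ} (hW : ∀ j ≤ m, Op (W j))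
    (hS : ∀ j ≤ m, Supp (stdS j) (W j)) (hcl : Closed W m) (h : ∀ n, Sol W m n) (n : ℕ) :
    Sol2 W (W m) m n := by
  obtain ⟨P, p1, p2, p3, p4, p0, p5, p6⟩ := exists_P hW hS
  exact stepB hW hS hcl p1 p3 p5 p6
    (stepA (fun j h => hW j h.le) (fun j h => hS j h.le) p1 p2 p3 p4 h n)

theorem sol_all {W : ℕ → Subgroup Γ} {d : ℕ} (hW : ∀ j ≤ d, Op (W j))
    (hS : ∀ j ≤ d, Supp (stdS j) (W j)) (hcl : Closed W d) (m : ℕ) (hm : m ≤ d) :
    ∀ n, Sol W m n := by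
  induction m with
  | zero => exact fun n => ⟨fun _ => 1, fun h _ => ⟨1, fun x => x.1.elim0⟩⟩
  | succ m ih =>
    exact fun n => sol_succ (sol2_of_sol (fun j hj => hW j (by omega)) (fun j hj => hS j (by omega))
      (fun j j' h1 h2 => hcl j j' h1 (by omega)) (ih (by omega)) n)

theorem exists_closed {K : Subgroup Γ} {d : ℕ} (hK : Op K) (hKS : Supp (stdS d) K) :
    ∃ W : ℕ → Subgroup Γ, W d = K ∧ (∀ j ≤ d, Op (W j)) ∧ (∀ j ≤ d, Supp (stdS j) (W j)) ∧
      Closed W d := by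
  classical
  have key : ∀ i ≤ d, ∃ W : ℕ → Subgroup Γ, W d = K ∧ (∀ j ≤ d, d ≤ j + i → Op (W j)) ∧
      (∀ j ≤ d, d ≤ j + i → Supp (stdS j) (W j)) ∧
      ∀ j j', d ≤ j + i → j < j' → j' ≤ d →
        ∀ p : GT (W j'), Supp (stdS j) (stab p) → W j ≤ stab p := by
    intro i
    induction i with
    | zero =>
      intro _
      refine ⟨fun _ => K, rfl, fun _ _ _ => hK, fun j h1 h2 => ?_, fun j j' h1 h2 h3 => by omega⟩
      rw [show j = d by omega]; exact hKS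
    | succ i ih =>
      intro hi
      obtain ⟨W, w1, w2, w3, w4⟩ := ih (by omega)
      let j0 := d - (i + 1)
      let c : Fin (d + 1) → Prop := fun j' => j0 < j'
      let N : Subgroup Γ := fi c (fun j' =>
        ⨅ p ∈ {p : GT (W j') | Supp (stdS j0) (stab p)}, stab p)
      have hN : ∀ g, g ∈ N ↔ ∀ j' : Fin (d + 1), j0 < j' → ∀ p : GT (W j'),
          Supp (stdS j0) (stab p) → g ∈ stab p := by
        intro g
        simp only [N, mem_fi, c, Subgroup.mem_iInf, Set.mem_ofPred_eq]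
      have hW : ∀ j, j ≠ j0 → Function.update W j0 N j = W j :=
        fun j hj => Function.update_of_ne hj _ _
      refine ⟨Function.update W j0 N, by rw [hW d (by omega), w1], fun j h1 h2 => ?_,
        fun j h1 h2 => ?_, fun j j' h1 h2 h3 => ?_⟩
      · by_cases hj : j = j0
        · rw [hj, Function.update_self]
          refine op_fi (fun j' hj' => ?_)
          have hWj : Op (W j') := w2 j' (by omega) (by simp only [c] at hj'; omega)
          refine op_of_forall (finite_supported hWj (stdS j0)).toFinset stab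
            (fun p _ => op_stab hWj p) _ (fun x hx => ?_)
          simpa [Subgroup.mem_iInf] using hx
        · rw [hW j hj]; exact w2 j h1 (by omega)
      · by_cases hj : j = j0
        · rw [hj, Function.update_self]
          exact fun α hα => (hN _).2 (fun j' _ p hp => hp α hα)
        · rw [hW j hj]; exact w3 j h1 (by omega)
      · rw [hW j' (by omega)]
        by_cases hj : j = j0
        · rw [hj, Function.update_self]
          exact fun p hp g hg => (hN g).1 hg ⟨j', by omega⟩ (by simp only; omega) p hp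
        · rw [hW j hj]; exact w4 j j' (by omega) h2 h3
  obtain ⟨W, w1, w2, w3, w4⟩ := key d le_rfl
  exact ⟨W, w1, fun j hj => w2 j hj (by omega), fun j hj => w3 j hj (by omega),
    fun j j' h1 h2 => w4 j j' (by omega) h1 h2⟩

/-- The amalgamation of all linear orders. -/
theorem amalgam {K : Subgroup Γ} {d : ℕ} (hK : Op K) (hKS : Supp (stdS d) K) (n : ℕ) :
    ∃ ε : (Fin d → Fin n) → Γ, ∀ h : Fin n → ℚ, Injective h → ∃ γ, Top K ε h γ := by
  obtain ⟨W, w1, w2, w3, w4⟩ := exists_closed hK hKS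
  obtain ⟨δ, ε, h⟩ := sol2_of_sol w2 w3 w4 (sol_all w2 w3 w4 d le_rfl) n
  refine ⟨ε, fun h0 hh => ?_⟩
  obtain ⟨γ, -, h2⟩ := h h0 hh
  exact ⟨γ, w1 ▸ h2⟩

end Pool.Agent.Lib.MP_905f9a_lc
end

-- part Pool.Agent.Lib.MP_905f9a_lc.Concrete
section

namespace Pool.Agent.Lib.MP_905f9a_lc

open FirstOrder FirstOrder.Language FirstOrder.Language.Structure Function

universe u v

/-- An action with finite supports and finitely many orbits. -/
structure Nice {X : Type} (ρ : GQ →* Equiv.Perm X) : Prop where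
  supp : ∀ x, ∃ T, ∀ α, Fix T α → ρ α x = x
  fin : ∃ (κ : Type) (_ : Finite κ) (c : X → κ), ∀ x y, c x = c y → ∃ α, ρ α x = y

theorem Nice.reps {X : Type} {ρ : GQ →* Equiv.Perm X} (h : Nice ρ) :
    ∃ (d : ℕ) (Λ : Type) (_ : Finite Λ) (a : Λ → X), (∀ l α, Fix (stdS d) α → ρ α (a l) = a l) ∧
      ∀ x, ∃ l α, ρ α (a l) = x := by
  classical
  obtain ⟨κ, _, c, hc⟩ := h.fin
  choose T hT using h.supp
  let Λ := Set.range c
  have := Fintype.ofFinite Λ
  let a0 : Λ → X := fun l => l.2.choose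
  let S : Finset ℚ := Finset.univ.biUnion (fun l => T (a0 l))
  have hs : StrictMono (S.orderEmbOfFin rfl) := (S.orderEmbOfFin rfl).strictMono
  let b := β (S.orderEmbOfFin rfl)
  refine ⟨S.card, Λ, inferInstance, fun l => ρ b⁻¹ (a0 l), fun l α hα => ?_, fun x => ?_⟩
  · have : ρ (b * α * b⁻¹) (a0 l) = a0 l := by
      apply hT
      intro w hw
      have hw' : w ∈ Set.range (S.orderEmbOfFin rfl) := by
        rw [Finset.range_orderEmbOfFin]
        exact Finset.mem_biUnion.2 ⟨l, Finset.mem_univ _, hw⟩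
      obtain ⟨i, rfl⟩ := hw'
      rw [mul_app, mul_app, ← β_spec hs i, inv_app,
        hα _ (Finset.mem_image_of_mem _ (Finset.mem_univ i))]
    show ρ α (ρ b⁻¹ (a0 l)) = ρ b⁻¹ (a0 l)
    conv_rhs => rw [← this]
    rw [← Equiv.Perm.mul_apply, ← Equiv.Perm.mul_apply, ← map_mul, ← map_mul]
    congr 2
    group
  · obtain ⟨α, hα⟩ := hc (a0 ⟨c x, x, rfl⟩) x (Exists.choose_spec (⟨x, rfl⟩ : c x ∈ Set.range c))
    refine ⟨⟨c x, x, rfl⟩, α * b, ?_⟩
    rw [← Equiv.Perm.mul_apply, ← map_mul, mul_inv_cancel_right, hα]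

theorem Nice.tup {X : Type} {ρ : GQ →* Equiv.Perm X} (h : Nice ρ) (I : Type) [Finite I] :
    ∃ (κ : Type) (_ : Finite κ) (c : (I → X) → κ),
      ∀ x y, c x = c y → ∃ α, ∀ i, ρ α (x i) = y i := by
  obtain ⟨d, Λ, _, a, h1, h2⟩ := h.reps
  choose l g hg using h2
  refine ⟨(I → Λ) × ((I × Fin d) → (I × Fin d) → Prop), inferInstance,
    fun x => (fun i => l (x i), fun p q => g (x p.1) (std d p.2) < g (x q.1) (std d q.2)),
    fun x y e => ?_⟩
  obtain ⟨e1, e2⟩ := Prod.mk.inj e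
  obtain ⟨α, hα⟩ := ext_iso (fun p : I × Fin d => g (x p.1) (std d p.2))
    (fun p => g (y p.1) (std d p.2)) (fun p q => iff_of_eq (congrFun (congrFun e2 p) q))
  refine ⟨α, fun i => ?_⟩
  have e3 : l (x i) = l (y i) := congrFun e1 i
  have := h1 (l (x i)) ((g (y i))⁻¹ * α * g (x i)) (by
    intro w hw
    obtain ⟨k, -, rfl⟩ := Finset.mem_image.1 hw
    rw [mul_app, mul_app, hα (i, k), inv_app])
  rw [← hg (y i), ← e3, ← this, ← Equiv.Perm.mul_apply, ← map_mul, ← mul_assoc, ← mul_assoc,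
    mul_inv_cancel, one_mul, map_mul, Equiv.Perm.mul_apply, hg]

variable {L : FirstOrder.Language.{u, v}} {A : Type} [L.Structure A]

theorem Nice.oligo {ρ : GQ →* Equiv.Perm A} (h : Nice ρ) (hρ : ∀ α, ρ α ∈ AutG L A) :
    Oligo L A := by
  intro I _
  obtain ⟨κ, _, c, hc⟩ := h.tup I
  refine ⟨κ, inferInstance, c, fun x y e => ?_⟩
  obtain ⟨α, hα⟩ := hc x y e
  exact ⟨ρ α, hρ α, funext hα⟩

theorem no_half [L.IsRelational] [Countable A] (hO : Oligo L A) (hst : IsStable L A)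
    {I J : Type} [Finite I] [Finite J] (r : (I → A) → (J → A) → Prop)
    (hr : ∀ σ ∈ AutG L A, ∀ x y, r x y → r (σ ∘ x) (σ ∘ y)) (a : ℕ → I → A) (b : ℕ → J → A) :
    ¬ ∀ i j, r (a i) (b j) ↔ i ≤ j := by
  intro h
  obtain ⟨m, ⟨e⟩⟩ := Finite.exists_equiv_fin I
  obtain ⟨n, ⟨e'⟩⟩ := Finite.exists_equiv_fin J
  obtain ⟨φ, hφ⟩ := Set.empty_definable_iff.1 (definable_of_inv hO
    {z : Fin m ⊕ Fin n → A | r (z ∘ Sum.inl ∘ e) (z ∘ Sum.inr ∘ e')}
    (fun σ hσ x hx => hr σ hσ _ _ hx))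
  obtain ⟨N, hN⟩ := hst m n φ
  refine hN ⟨fun i => a i ∘ e.symm, fun j => b j ∘ e'.symm, fun i j => ?_⟩
  have := Set.ext_iff.1 hφ (Sum.elim (a i ∘ e.symm) (b j ∘ e'.symm))
  simp only [Set.mem_ofPred_eq] at this
  rw [← this, Fin.le_def, ← h]
  congr! 1
  · funext k; simp
  · funext k; simp

/-- The concrete setting. -/
@[reducible] def mkSetting [L.IsRelational] [Countable A] {ρ : GQ →* Equiv.Perm A} (h : Nice ρ)
    (hρ : ∀ α, ρ α ∈ AutG L A) (hst : IsStable L A) : Setting (AutG L A) where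
  ι := ρ.codRestrict _ hρ
  Op V := ∃ F : Finset A, ∀ g : AutG L A, (∀ a ∈ F, g.1 a = a) → g ∈ V
  op_top := ⟨∅, fun _ _ => trivial⟩
  op_inf := by
    classical
    rintro V W ⟨F, hF⟩ ⟨F', hF'⟩
    exact ⟨F ∪ F', fun g hg => ⟨hF g (fun a ha => hg a (Finset.mem_union_left _ ha)),
      hF' g (fun a ha => hg a (Finset.mem_union_right _ ha))⟩⟩
  op_mono := by
    rintro V W ⟨F, hF⟩ h
    exact ⟨F, fun g hg => h (hF g hg)⟩
  op_cj := by
    classical
    rintro V g ⟨F, hF⟩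
    refine ⟨F.image g.1, fun x hx => hF _ (fun a ha => ?_)⟩
    have := hx _ (Finset.mem_image_of_mem _ ha)
    simp [this]
  op_supp := by
    classical
    rintro V ⟨F, hF⟩
    choose T hT using h.supp
    exact ⟨F.biUnion T, fun α hα => hF _ (fun a ha =>
      hT a α (hα.mono (Finset.subset_biUnion_of_mem T ha)))⟩
  finTup := by
    classical
    intro I _ W hW
    choose F hF using hW
    obtain ⟨κ, _, c, hc⟩ := h.tup (Σ i, F i)
    have := Fintype.ofFinite κ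
    let t : (I → AutG L A) → (Σ i, F i) → A := fun δ p => (δ p.1).1 p.2
    let rep : κ → I → AutG L A := fun k => if hk : ∃ δ, c (t δ) = k then hk.choose else 1
    refine ⟨Finset.univ.image rep, fun δ => ?_⟩
    have hk : ∃ δ', c (t δ') = c (t δ) := ⟨δ, rfl⟩
    have e : rep (c (t δ)) = hk.choose := dif_pos hk
    obtain ⟨α, hα⟩ := hc _ _ hk.choose_spec
    refine ⟨α, _, Finset.mem_image_of_mem _ (Finset.mem_univ (c (t δ))), fun i => hF i _ ?_⟩
    intro a ha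
    have := hα ⟨i, a, ha⟩
    rw [e]
    simp only [t] at this
    simp [← this]
  stable := by
    rintro V W ⟨F, hF⟩ ⟨F', hF'⟩ z a b hab
    refine no_half (h.oligo hρ) hst (I := F') (J := F)
      (fun x y => ∃ g g' : AutG L A, (∀ i : F', g'.1 i = x i) ∧ (∀ i : F, g.1 i = y i) ∧
        DC V W z (g⁻¹ * g')) ?_ (fun j i => (b j).1 i) (fun j i => (a j).1 i) (fun j i => ?_)
    · rintro σ hσ x y ⟨g, g', h1, h2, h3⟩
      refine ⟨⟨σ, hσ⟩ * g, ⟨σ, hσ⟩ * g', fun i => by simp [h1], fun i => by simp [h2], ?_⟩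
      convert h3 using 1
      group
    · rw [← hab]
      refine ⟨?_, fun h => ⟨a i, b j, fun _ => rfl, fun _ => rfl, h⟩⟩
      rintro ⟨g, g', h1, h2, h3⟩
      have k1 : (a i)⁻¹ * g ∈ V := hF _ (fun x hx => by simp [h2 ⟨x, hx⟩])
      have k2 : g'⁻¹ * b j ∈ W := hF' _ (fun x hx => by simp [← h1 ⟨x, hx⟩])
      exact h3.trans ⟨_, k1, _, k2, by group⟩

end Pool.Agent.Lib.MP_905f9a_lc
end

-- part Pool.Agent.Lib.MP_905f9a_lc.Final
section

namespace Pool.Agent.Lib.MP_905f9a_lc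

open FirstOrder FirstOrder.Language FirstOrder.Language.Structure Function

universe u v

variable {L : FirstOrder.Language.{u, v}} {A : Type} [L.Structure A]

variable (L) in
/-- `y` realises every linear order on the indices below `N`. -/
def GoodN {Λ : Type} {d : ℕ} (f : Λ → (Fin d → ℚ) → A) (N : ℕ) (y : Λ × (Fin d → ℕ) → A) : Prop :=
  ∀ h : ℕ → ℚ, Injective h → ∃ γ ∈ AutG L A, ∀ l t, (∀ i, t i < N) → StrictMono (h ∘ t) →
    γ (f l (h ∘ t)) = y (l, t)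

def Agree {Λ : Type} {d : ℕ} (n : ℕ) (x y : Λ × (Fin d → ℕ) → A) : Prop :=
  ∀ l t, (∀ i, t i < n) → x (l, t) = y (l, t)

theorem exists_goodN [L.IsRelational] [Countable A] {ρ : GQ →* Equiv.Perm A} (h : Nice ρ)
    (hρ : ∀ α, ρ α ∈ AutG L A) (hst : IsStable L A) {d : ℕ} {Λ : Type} [Finite Λ] (a : Λ → A)
    (ha : ∀ l α, Fix (stdS d) α → ρ α (a l) = a l) (N : ℕ) :
    ∃ y, GoodN L (fun l (r : Fin d → ℚ) => ρ (β r) (a l)) N y := by
  classical
  let S : Setting (AutG L A) := mkSetting h hρ hst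
  have := Fintype.ofFinite Λ
  let K : Subgroup (AutG L A) :=
    { carrier := {g | ∀ l, g.1 (a l) = a l}
      mul_mem' := fun {x y} hx hy l => by simp [hy l, hx l]
      one_mem' := fun l => rfl
      inv_mem' := fun {x} hx l => by
        conv_lhs => rw [← hx l]
        simp }
  have hK : ∃ F : Finset A, ∀ g : AutG L A, (∀ a ∈ F, g.1 a = a) → g ∈ K :=
    ⟨Finset.univ.image a, fun g hg l => hg _ (Finset.mem_image_of_mem _ (Finset.mem_univ l))⟩
  obtain ⟨ε, hε⟩ := @amalgam _ _ S K d hK (fun α hα l => ha l α hα) N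
  refine ⟨fun p => if hp : ∀ i, p.2 i < N then (ε (fun i => ⟨p.2 i, hp i⟩)).1 (a p.1) else a p.1,
    fun h0 hh => ?_⟩
  obtain ⟨γ, hγ⟩ := hε (fun i => h0 i) (hh.comp Fin.val_injective)
  refine ⟨γ.1, γ.2, fun l t ht hs => ?_⟩
  have := hγ (fun i => ⟨t i, ht i⟩) hs l
  simp only [dif_pos ht]
  conv_rhs => rw [← this]
  simp only [Subgroup.coe_mul, Subgroup.coe_inv, Equiv.Perm.mul_apply,
    Equiv.Perm.coe_inv, Equiv.apply_symm_apply]
  rfl

theorem pigeon (hO : Oligo L A) {Λ : Type} [Finite Λ] {d : ℕ} (f : Λ → (Fin d → ℚ) → A)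
    (Q : (Λ × (Fin d → ℕ) → A) → Prop) (hQ : ∀ N, ∃ y, GoodN L f N y ∧ Q y) (m : ℕ) :
    ∃ x, Q x ∧ ∀ N, ∃ y, GoodN L f N y ∧ Agree m x y := by
  choose y hy1 hy2 using hQ
  obtain ⟨κ, _, c, hc⟩ := hO (Λ × (Fin d → Fin m))
  let rs : (Λ × (Fin d → ℕ) → A) → Λ × (Fin d → Fin m) → A :=
    fun z p => z (p.1, fun i => p.2 i)
  obtain ⟨k, hk⟩ := Finite.exists_infinite_fiber (fun N => c (rs (y N)))
  have hk' := Set.infinite_coe_iff.1 hk
  obtain ⟨N0, h0⟩ := hk'.nonempty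
  refine ⟨y N0, hy2 N0, fun N => ?_⟩
  obtain ⟨N', h1, h2⟩ := hk'.exists_gt N
  obtain ⟨σ, hσ, e⟩ := hc (rs (y N')) (rs (y N0)) (Eq.trans h1 (Eq.symm h0))
  refine ⟨σ ∘ y N', fun h hh => ?_, fun l t ht => ?_⟩
  · obtain ⟨γ, hγ, k1⟩ := hy1 N' h hh
    refine ⟨σ * γ, (AutG L A).mul_mem hσ hγ, fun l t ht hs => ?_⟩
    rw [Equiv.Perm.mul_apply, k1 l t (fun i => (ht i).trans h2) hs]
    rfl
  · exact (congrFun e (l, fun i => ⟨t i, ht i⟩)).symm

theorem koenig (hO : Oligo L A) {Λ : Type} [Finite Λ] {d : ℕ} (f : Λ → (Fin d → ℚ) → A)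
    (hf : ∀ N, ∃ y, GoodN L f N y) : ∃ g, ∀ N, GoodN L f N g := by
  let X := fun n : ℕ => {x : Λ × (Fin d → ℕ) → A // ∀ N, ∃ y, GoodN L f N y ∧ Agree n x y}
  obtain ⟨x0, -, h0⟩ := pigeon hO f (fun _ => True) (fun N => (hf N).imp fun _ h => ⟨h, trivial⟩) 0
  have step : ∀ n (x : X n), ∃ x' : X (n + 1), Agree n x.1 x'.1 := by
    intro n x
    obtain ⟨x', h1, h2⟩ := pigeon hO f (Agree n x.1) x.2 (n + 1)
    exact ⟨⟨x', h2⟩, h1⟩
  choose st hst using step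
  let s : ∀ n, X n := fun n => Nat.rec ⟨x0, h0⟩ st n
  have hs : ∀ n m, n ≤ m → Agree n (s n).1 (s m).1 := by
    intro n m hnm
    induction hnm with
    | refl => exact fun _ _ _ => rfl
    | step hnm ih =>
      exact fun l t ht => (ih l t ht).trans (hst _ _ l t (fun i => lt_of_lt_of_le (ht i) hnm))
  refine ⟨fun p => (s (Finset.univ.sup (fun i => p.2 i + 1))).1 p, fun N h hh => ?_⟩
  obtain ⟨y, h1, h2⟩ := (s N).2 N
  obtain ⟨γ, hγ, k⟩ := h1 h hh
  refine ⟨γ, hγ, fun l t ht hsm => ?_⟩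
  rw [k l t ht hsm, ← h2 l t ht]
  exact (hs _ N (Finset.sup_le (fun i _ => ht i)) l t
    (fun i => Finset.le_sup (f := fun i => t i + 1) (Finset.mem_univ i))).symm

theorem nat_inv {I : Type} [Finite I] (S : Set (I → ℕ))
    (hS : ∀ σ : Equiv.Perm ℕ, ∀ x ∈ S, σ ∘ x ∈ S) :
    (∅ : Set ℕ).Definable FirstOrder.Language.empty S := by
  refine definable_of_inv ?_ S (fun σ _ => hS σ)
  intro J _
  refine ⟨J → J → Prop, inferInstance, fun x i j => x i = x j, fun x y e => ?_⟩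
  have e' : ∀ i j, x i = x j ↔ y i = y j := fun i j => iff_of_eq (congrFun (congrFun e i) j)
  obtain ⟨σ, hσ⟩ := Equiv.Perm.exists_extending_pair (fun r : Set.range x => r.1)
    (fun r => y r.2.choose) Subtype.val_injective (fun r r' h => Subtype.ext (by
      rw [← r.2.choose_spec, ← r'.2.choose_spec]; exact (e' _ _).2 h))
  refine ⟨σ, fun n R => isEmptyElim R, funext fun i => ?_⟩
  exact (hσ ⟨x i, i, rfl⟩).trans ((e' _ _).1 (Exists.choose_spec (⟨i, rfl⟩ : x i ∈ Set.range x)))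

theorem interp_of_inv {B : Type} [L.Structure B] {d : ℕ} (D : Set (Fin d → ℕ)) (F : D → B)
    (hF : Surjective F) (hD : ∀ σ : Equiv.Perm ℕ, ∀ x ∈ D, σ ∘ x ∈ D)
    (h : ∀ σ : Equiv.Perm ℕ, ∃ τ : B → B, (∀ x : D, F ⟨σ ∘ x.1, hD σ _ x.2⟩ = τ (F x)) ∧
      ∀ (n : ℕ) (R : L.Relations n) (z : Fin n → B), RelMap R z → RelMap R (τ ∘ z)) :
    Interp FirstOrder.Language.empty ℕ ∅ L B := by
  refine ⟨d, D, F, hF, nat_inv _ hD, nat_inv _ ?_, fun n R => nat_inv _ ?_⟩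
  · rintro σ w ⟨x, h1, h2⟩
    obtain ⟨τ, k1, -⟩ := h σ
    refine ⟨fun j => ⟨σ ∘ (x j).1, hD σ _ (x j).2⟩, fun j i => congrArg σ (h1 j i), ?_⟩
    exact (k1 _).trans ((congrArg τ h2).trans (k1 _).symm)
  · rintro σ w ⟨x, h1, h2⟩
    obtain ⟨τ, k1, k2⟩ := h σ
    refine ⟨fun j => ⟨σ ∘ (x j).1, hD σ _ (x j).2⟩, fun j i => congrArg σ (h1 j i), ?_⟩
    have := k2 n R _ h2
    simp only [Set.mem_ofPred_eq, k1]
    exact this

theorem interp_labelled {Λ : Type} [Finite Λ] {d : ℕ} [L.Structure (Λ × (Fin d → ℕ))]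
    (h : ∀ (σ : Equiv.Perm ℕ) (n : ℕ) (R : L.Relations n) (z : Fin n → Λ × (Fin d → ℕ)),
      RelMap R z → RelMap R (fun i => ((z i).1, σ ∘ (z i).2))) :
    Interp FirstOrder.Language.empty ℕ ∅ L (Λ × (Fin d → ℕ)) := by
  classical
  obtain ⟨m, ⟨e⟩⟩ := Finite.exists_equiv_fin (Fin d ⊕ Option Λ)
  let D : Set (Fin m → ℕ) :=
    {w | ∃ l, ∀ l', w (e (Sum.inr (some l'))) = w (e (Sum.inr none)) ↔ l' = l}
  have hD : ∀ σ : Equiv.Perm ℕ, ∀ x ∈ D, σ ∘ x ∈ D := by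
    rintro σ x ⟨l, hl⟩
    exact ⟨l, fun l' => σ.injective.eq_iff.trans (hl l')⟩
  have hu : ∀ (x : D) l, (∀ l', x.1 (e (Sum.inr (some l'))) = x.1 (e (Sum.inr none)) ↔ l' = l) →
      x.2.choose = l := fun x l hl => (hl _).1 ((x.2.choose_spec _).2 rfl)
  refine interp_of_inv D (fun x => (x.2.choose, fun i => x.1 (e (Sum.inl i)))) ?_ hD
    (fun σ => ⟨fun p => (p.1, σ ∘ p.2), fun x => ?_, h σ⟩)
  · rintro ⟨l, t⟩
    have k : ∀ l', (Sum.elim t (fun o : Option Λ => o.elim 0 (fun l' => if l' = l then 0 else 1)) ∘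
        e.symm) (e (Sum.inr (some l'))) = (Sum.elim t (fun o : Option Λ =>
          o.elim 0 (fun l' => if l' = l then 0 else 1)) ∘ e.symm) (e (Sum.inr none)) ↔ l' = l := by
      intro l'
      simp
    refine ⟨⟨_, l, k⟩, Prod.ext (hu _ l k) (funext fun i => ?_)⟩
    simp
  · refine Prod.ext (hu _ _ (fun l' => σ.injective.eq_iff.trans (x.2.choose_spec l'))) rfl

theorem main_nice [L.IsRelational] [Countable A] {ρ : GQ →* Equiv.Perm A} (h : Nice ρ)
    (hρ : ∀ α, ρ α ∈ AutG L A) (hst : IsStable L A) :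
    ∃ (B : Type) (_ : L.Structure B), Interp FirstOrder.Language.empty ℕ ∅ L B ∧
      Nonempty (A →[L] B) ∧ Nonempty (B →[L] A) := by
  obtain ⟨d, Λ, _, a, h1, h2⟩ := h.reps
  let f : Λ → (Fin d → ℚ) → A := fun l r => ρ (β r) (a l)
  obtain ⟨g, hg⟩ := koenig (h.oligo hρ) f (exists_goodN h hρ hst a h1)
  let S : L.Structure (Λ × (Fin d → ℕ)) :=
    { funMap := fun F => isEmptyElim F
      RelMap := fun R z => ∃ h : ℕ → ℚ, Injective h ∧ (∀ i, StrictMono (h ∘ (z i).2)) ∧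
        RelMap R (fun i => f (z i).1 (h ∘ (z i).2)) }
  refine ⟨Λ × (Fin d → ℕ), S, interp_labelled ?_, ?_, ⟨⟨g, fun F => isEmptyElim F, ?_⟩⟩⟩
  · rintro σ n R z ⟨h, k1, k2, k3⟩
    have e : ∀ t : Fin d → ℕ, (h ∘ σ.symm) ∘ (σ ∘ t) = h ∘ t := fun t => funext fun i => by simp
    refine ⟨h ∘ σ.symm, k1.comp σ.symm.injective, fun i => ?_, ?_⟩
    · simp only [e]; exact k2 i
    · simp only [e]; exact k3
  · have : ∀ x, ∃ l r, StrictMono r ∧ f l r = x := by
      intro x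
      obtain ⟨l, α, rfl⟩ := h2 x
      have hs : StrictMono (α ∘ std d) := α.strictMono.comp (std_sm d)
      refine ⟨l, α ∘ std d, hs, ?_⟩
      have := h1 l (α⁻¹ * β (α ∘ std d)) (by
        intro w hw
        obtain ⟨i, -, rfl⟩ := Finset.mem_image.1 hw
        rw [mul_app, β_spec hs, comp_apply, inv_app])
      conv_rhs => rw [← this]
      rw [← Equiv.Perm.mul_apply, ← map_mul, mul_inv_cancel_left]
    choose l r hr hx using this
    let e : ℕ ≃ ℚ := (Denumerable.eqv ℚ).symm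
    have e' : ∀ t : Fin d → ℚ, e ∘ (e.symm ∘ t) = t := fun t => funext fun i => by simp
    refine ⟨⟨fun x => (l x, e.symm ∘ r x), fun F => isEmptyElim F, fun R z hz => ?_⟩⟩
    refine ⟨e, e.injective, fun i => ?_, ?_⟩
    · simp only [comp_apply, e']; exact hr _
    · simp only [comp_apply, e', hx]; exact hz
  · rintro n R z ⟨h, k1, k2, k3⟩
    obtain ⟨N, hN⟩ := (Set.finite_range (fun p : Fin n × Fin d => (z p.1).2 p.2)).bddAbove
    obtain ⟨γ, hγ, k⟩ := hg (N + 1) h k1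
    have := (hγ n R _).2 k3
    convert this using 1
    funext i
    exact (k _ _ (fun j => Nat.lt_succ_of_le (hN ⟨(i, j), rfl⟩)) (k2 i)).symm

end Pool.Agent.Lib.MP_905f9a_lc
end
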