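import Pool.Agent.Lib.MP_905f9a_lc.Final

namespace Pool.Agent.Lib.MP_905f9a_lc

open FirstOrder FirstOrder.Language FirstOrder.Language.Structure Function

universe u v

def toP : GQ →* Equiv.Perm ℚ where
  toFun α := α.toEquiv
  map_one' := rfl
  map_mul' _ _ := rfl

theorem nice_id : Nice toP := by
  refine ⟨fun x => ⟨{x}, fun α hα => hα x (Finset.mem_singleton_self x)⟩, Unit, inferInstance,
    fun _ => (), fun x y _ => ?_⟩
  obtain ⟨α, hα⟩ := ext_iso (fun _ : Unit => x) (fun _ => y) (by simp)
  exact ⟨α, hα ()⟩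

theorem exists_j (P : Finset ℚ) :
    ∃ j : GQ →* GQ, Nice (toP.comp j) ∧ ∀ α, Fix P (j α) := by
  induction P using Finset.induction_on_max with
  | empty => exact ⟨MonoidHom.id _, nice_id, fun α w hw => by simp at hw⟩
  | insert a s ha ih =>
    obtain ⟨j, hj, hs⟩ := ih
    have : Countable (ℚ ⊕ₗ WithBot ℚ) := inferInstanceAs (Countable (ℚ ⊕ WithBot ℚ))
    have : Nonempty (ℚ ⊕ₗ WithBot ℚ) := ⟨toLex (Sum.inl 0)⟩
    obtain ⟨e0⟩ := Order.iso_of_countable_dense (ℚ ⊕ₗ WithBot ℚ) ℚ
    obtain ⟨θ, hθ⟩ := ext_iso (I := Option s)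
      (fun o => e0 (toLex (o.elim (Sum.inr ⊥) (fun x => Sum.inl x.1))))
      (fun o => o.elim a (fun x => x.1)) (by
        rintro (_ | x) (_ | y)
        · simp
        · simpa using (ha y.1 y.2).le
        · simpa using ha x.1 x.2
        · simp)
    let e := e0.trans θ
    let j' : GQ →* GQ :=
      { toFun := fun α => e.symm.trans (((j α).sumLexCongr α.withBotCongr).trans e)
        map_one' := by
          ext x
          obtain ⟨y, rfl⟩ := e.surjective x
          simp only [map_one, OrderIso.trans_apply, OrderIso.symm_apply_apply, one_app]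
          rcases y with y | _ | y <;> rfl
        map_mul' := by
          intro α α'
          ext x
          obtain ⟨y, rfl⟩ := e.surjective x
          simp only [map_mul, OrderIso.trans_apply, OrderIso.symm_apply_apply, mul_app]
          rcases y with y | _ | y <;> rfl }
    have k : ∀ α y, j' α (e y) = e (((j α).sumLexCongr α.withBotCongr) y) := by
      intro α y
      show e (((j α).sumLexCongr α.withBotCongr) (e.symm (e y))) = _
      rw [OrderIso.symm_apply_apply]
    refine ⟨j', ⟨fun x => ?_, ?_⟩, fun α w hw => ?_⟩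
    · obtain ⟨y, rfl⟩ := e.surjective x
      rcases y with y | _ | y
      · obtain ⟨T, hT⟩ := hj.supp y
        exact ⟨T, fun α hα => (k α _).trans (congrArg (fun z => e (toLex (Sum.inl z))) (hT α hα))⟩
      · exact ⟨∅, fun α _ => k α _⟩
      · exact ⟨{y}, fun α hα => (k α _).trans (congrArg
          (fun z : ℚ => e (toLex (Sum.inr (z : WithBot ℚ)))) (hα y (Finset.mem_singleton_self y)))⟩
    · obtain ⟨κ, _, c, hc⟩ := hj.fin
      refine ⟨κ ⊕ Bool, inferInstance, fun x => Sum.map c Option.isSome (ofLex (e.symm x)),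
        fun x y h => ?_⟩
      obtain ⟨x, rfl⟩ := e.surjective x
      obtain ⟨y, rfl⟩ := e.surjective y
      simp only [OrderIso.symm_apply_apply] at h
      rcases x with x | _ | x <;> rcases y with y | _ | y
      · obtain ⟨α, hα⟩ := hc x y (Sum.inl.inj h)
        exact ⟨α, (k α _).trans (congrArg (fun z => e (toLex (Sum.inl z))) hα)⟩
      · cases h
      · cases h
      · cases h
      · exact ⟨1, k 1 _⟩
      · cases h
      · cases h
      · cases h
      · obtain ⟨α, hα⟩ := ext_iso (fun _ : Unit => x) (fun _ => y) (by simp)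
        exact ⟨α, (k α _).trans (congrArg
          (fun z : ℚ => e (toLex (Sum.inr (z : WithBot ℚ)))) (hα ()))⟩
    · rcases Finset.mem_insert.1 hw with rfl | hw
      · have e1 : e (toLex (Sum.inr ⊥)) = w := hθ none
        rw [← e1]
        exact k α _
      · have e1 : e (toLex (Sum.inl w)) = w := hθ (some ⟨w, hw⟩)
        rw [← e1]
        exact (k α _).trans (congrArg (fun z => e (toLex (Sum.inl z))) (hs α w hw))

theorem rat_inv {P : Finset ℚ} {α : GQ} (hα : Fix P α) {I : Type} {S : Set (I → ℚ)}
    (hS : (P : Set ℚ).Definable ltLang S) {x : I → ℚ} (hx : x ∈ S) : α ∘ x ∈ S := by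
  obtain ⟨φ, rfl⟩ := Set.definable_iff_exists_formula_sum.1 hS
  let e : ℚ ≃[ltLang] ℚ := ⟨α.toEquiv, fun f => Empty.elim f, fun R x => by
    cases R
    exact α.lt_iff_lt⟩
  have := (StrongHomClass.realize_formula e φ).2 hx
  simp only [Set.mem_ofPred_eq]
  convert this using 1
  funext i
  rcases i with i | i
  · exact (hα i.1 i.2).symm
  · rfl

variable {L : FirstOrder.Language.{u, v}} {A : Type} [L.Structure A]

theorem source (P : Finset ℚ) (h : Interp ltLang ℚ P L A) :
    Countable A ∧ ∃ ρ : GQ →* Equiv.Perm A, Nice ρ ∧ ∀ α, ρ α ∈ AutG L A := by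
  classical
  obtain ⟨d, D, f, hf, hD, hK, hR⟩ := h
  obtain ⟨j, hj, hP⟩ := exists_j P
  let mv : GQ → D → D := fun α x => ⟨j α ∘ x.1, rat_inv (hP α) hD x.2⟩
  have hp : ∀ {n : ℕ} (S : Set (Fin n → A)), (P : Set ℚ).Definable ltLang (pull f S) →
      ∀ α (x : Fin n → D), (fun i => f (x i)) ∈ S → (fun i => f (mv α (x i))) ∈ S := by
    intro n S hS α x hx
    obtain ⟨y, h1, h2⟩ := rat_inv (hP α) hS (x := fun p => (x p.1).1 p.2) ⟨x, fun _ _ => rfl, hx⟩
    have : y = fun i => mv α (x i) := funext fun i => Subtype.ext (funext fun k => (h1 i k).symm)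
    rw [this] at h2
    exact h2
  have hk : ∀ α x y, f x = f y → f (mv α x) = f (mv α y) := fun α x y e =>
    hp _ hK α ![x, y] e
  let act : GQ → A → A := fun α a => f (mv α (surjInv hf a))
  have hact : ∀ α x, act α (f x) = f (mv α x) := fun α x => hk α _ _ (surjInv_eq hf _)
  let M : MulAction GQ A :=
    { smul := act
      one_smul := fun a => by
        obtain ⟨x, rfl⟩ := hf a
        refine (hact 1 x).trans (congrArg f (Subtype.ext ?_))
        simp only [mv, map_one]
        rfl
      mul_smul := fun α α' a => by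
        obtain ⟨x, rfl⟩ := hf a
        show act (α * α') (f x) = act α (act α' (f x))
        rw [hact (α * α'), hact α', hact α]
        refine congrArg f (Subtype.ext ?_)
        simp only [mv, map_mul]
        rfl }
  have hρ : ∀ α x, MulAction.toPermHom GQ A α (f x) = f (mv α x) := hact
  have hrel : ∀ α (n : ℕ) (R : L.Relations n) (z : Fin n → A),
      RelMap R z → RelMap R (MulAction.toPermHom GQ A α ∘ z) := by
    intro α n R z hz
    choose x hx using fun i => hf (z i)
    have := hp _ (hR n R) α x (by simp only [hx]; exact hz)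
    simp only [Set.mem_ofPred_eq, ← hρ, hx] at this
    exact this
  refine ⟨hf.countable, MulAction.toPermHom GQ A, ⟨fun a => ?_, ?_⟩, fun α n R z =>
    ⟨fun h => ?_, hrel α n R z⟩⟩
  · obtain ⟨x, rfl⟩ := hf a
    choose T hT using hj.supp
    refine ⟨Finset.univ.biUnion (fun i => T (x.1 i)), fun α hα => (hρ α x).trans
      (congrArg f (Subtype.ext (funext fun i => hT _ α (hα.mono
        (Finset.subset_biUnion_of_mem (fun i => T (x.1 i)) (Finset.mem_univ i))))))⟩
  · obtain ⟨κ, _, c, hc⟩ := hj.tup (Fin d)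
    refine ⟨κ, inferInstance, fun a => c (surjInv hf a).1, fun a b e => ?_⟩
    obtain ⟨α, hα⟩ := hc _ _ e
    refine ⟨α, ?_⟩
    rw [← surjInv_eq hf a, hρ, ← surjInv_eq hf b]
    exact congrArg f (Subtype.ext (funext hα))
  · have := hrel α⁻¹ n R _ h
    convert this using 1
    funext i
    simp

end Pool.Agent.Lib.MP_905f9a_lc
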